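import Mathlib
import Pool.Agent.ROA.Defs
import Pool.Agent.RO.KeyDefs

set_option autoImplicit false

/-!
# Disjoint NP-pairs relative to a random oracle: definitions

As in `Pool.Agent.RO.Defs` and `Pool.Agent.ROA.Defs`, with new parameters, with random words for the
reductions, and with the two verifiers as a pair: nothing is said about words accepted by neither.
-/

namespace Pool.Agent.ROP

open Function N68a2faeb N793a5b8e N487b59b3 Pool.Agent.Helper22
open Pool.Agent.Helper20.Cons (join Po cRun)
open Pool.Agent.RO (pr AA wx Mark marks vx Vp pads pe lev qs)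

/-! ## The parameters of the phase `l` -/

/-- the number of the phase, shifted -/
def tt (l : ℕ) : ℕ := l + 3

/-- the number of marks in a certificate -/
def al (l : ℕ) : ℕ := 4 * tt l

/-- the ratio of the risks -/
def rho (l : ℕ) : ℕ := 2 ^ tt l

/-- the expected number of marks -/
def mu (l : ℕ) : ℕ := 2 ^ (2 * tt l + 7)

/-- a word of length `s` is a mark with probability `2 ^ (- kap s l)` -/
def kap (s l : ℕ) : ℕ := s - (2 * tt l + 7)

/-- half of the number of the words of an instance -/
noncomputable def kk (l : ℕ) : ℕ :=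
  sInf {k | rho l * mu l ^ (2 * k + 1) ≤ (al l + 1).ascFactorial (2 * k + 1)}

/-- the number of the words of an instance -/
noncomputable def jj (l : ℕ) : ℕ := 2 * kk l + 1

/-- a bound for the numbers which occur in the computation of `jj l` -/
def nb (l : ℕ) : ℕ := mu l ^ (4 * mu l + 1)

/-! ## Finite probability -/

section core

variable {Λ Ω : Type} [Fintype Λ] [DecidableEq Λ] [Fintype Ω]

/-- the reduction fails for the set `G`: with probability more than `1 / 3` some positive instance
is not accepted by `a` or some negative instance is not accepted by `b`, or some instance is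
accepted by both for some random word -/
def Fl (op : Λ → Λ → Λ) {j : ℕ} (a b : (Fin j ↪ Λ) × Ω → Finset Λ → Prop) (G : Finset Λ) : Prop :=
  ∃ x, (AA op x G ∧ pr (fun r => a (x, r) G) < 2 / 3) ∨
    (¬ AA op x G ∧ pr (fun r => b (x, r) G) < 2 / 3) ∨ ∃ r, a (x, r) G ∧ b (x, r) G

/-- `a` and `b` are not disjoint -/
def Iv {j : ℕ} (a b : (Fin j ↪ Λ) × Ω → Finset Λ → Prop) (G : Finset Λ) : Prop :=
  ∃ x r, a (x, r) G ∧ b (x, r) G

end core

/-! ## The gadget -/

/-- `u` codes `jj l` different words of length `s` -/
def IsInst (s l : ℕ) (u : List Bool) : Prop :=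
  lc (ld u) = u ∧ (ld u).length = jj l ∧ (ld u).Nodup ∧ ∀ x ∈ ld u, x.length = s

/-- all words of some translate of the instance `u` are marks -/
def Sat (R : Oracle) (s l : ℕ) (u : List Bool) : Prop :=
  ∃ y : List Bool, y.length = s ∧ ∀ x ∈ ld u, Mark R (kap s l) (wx y x)

/-- the number of marks is as expected -/
def Win (R : Oracle) (s l : ℕ) : Prop :=
  al l ≤ (marks R s (kap s l)).card ∧ (marks R s (kap s l)).card < al l + jj l

/-- four different marks with sum zero -/
def Quad (R : Oracle) (s l : ℕ) : Prop :=
  ∃ a b c d : List.Vector Bool s, ((a ≠ b ∧ a ≠ c ∧ a ≠ d) ∧ (b ≠ c ∧ b ≠ d ∧ c ≠ d)) ∧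
    (a ∈ marks R s (kap s l) ∧ b ∈ marks R s (kap s l) ∧ c ∈ marks R s (kap s l) ∧
      d ∈ marks R s (kap s l)) ∧ vx a b = vx c d

/-! ## The reductions -/

/-- the length of the random words -/
noncomputable def rl (s l : ℕ) : ℕ := (jj l * (2 * s + 1)) ^ pe l + pe l

/-- the inputs of the trivial reduction number `l` -/
def Dom (s l : ℕ) (x : List Bool) : Prop :=
  ∃ u w : List Bool, IsInst s l u ∧ w.length = rl s l ∧ x = cd u w

/-- acceptance with probability at least `2 / 3` -/
def Maj (V : Vp) (b : Bool) (A R : Oracle) (s l : ℕ) (u : List Bool) : Prop :=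
  2 / 3 ≤ pr fun w : List.Vector Bool (rl s l) => ROA.acc V b A R l (cd u w.1)

/-- both verifiers accept for some random word -/
def Both (V : Vp) (A R : Oracle) (s l : ℕ) (u : List Bool) : Prop :=
  ∃ w : List.Vector Bool (rl s l), ROA.acc V true A R l (cd u w.1) ∧
    ROA.acc V false A R l (cd u w.1)

/-- the reduction number `l` to the pair of the verifiers `V` fails for some instance, or the pair
is not disjoint -/
def Fail (V : Vp) (A R : Oracle) (s l : ℕ) : Prop :=
  ∃ u, IsInst s l u ∧ ((Sat R s l u ∧ ¬ Maj V true A R s l u) ∨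
    (¬ Sat R s l u ∧ ¬ Maj V false A R s l u) ∨ Both V A R s l u)

/-- the verifiers are not disjoint on the image of some instance -/
def Inv (V : Vp) (A R : Oracle) (s l : ℕ) : Prop :=
  ∃ u, IsInst s l u ∧ Both V A R s l u

/-! ## The levels -/

open Classical in
/-- the number of the levels less than `i` with a failure -/
noncomputable def cnt (V : Vp) (S : ℕ) (A R : Oracle) : ℕ → ℕ
  | 0 => 0
  | i + 1 => cnt V S A R i + if Fail V A R (lev S i) (cnt V S A R i) then 1 else 0

/-- the new language: instances of the levels from `i₀` on -/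
def Lng (V : Vp) (S i₀ : ℕ) (A R : Oracle) (z : List Bool) : Prop :=
  ∃ i, i₀ ≤ i ∧ IsInst (lev S i) (cnt V S A R i) z ∧ Sat R (lev S i) (cnt V S A R i) z

/-! ## Bounds -/

/-- everything which occurs for the level with words of length `s` and the number `l` is bounded by
`h` -/
structure HB (V : Vp) (s l h : ℕ) : Prop where
  two : 2 * s ≤ h
  inst : ∀ u, IsInst s l u → u.length ≤ h
  rnd : rl s l ≤ h
  pad : ∀ x, Dom s l x → (pads l x).length ≤ h
  wit : ∀ x, Dom s l x → ∀ b, (V b).2.eval (pads l x).length ≤ h
  num : ∀ x, Dom s l x → ∀ (b : Bool) (R : Oracle) (w : List Bool),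
    w.length ≤ (V b).2.eval (pads l x).length → (qs (V b).1 R (pads l x, w)).length ≤ h
  len : ∀ x, Dom s l x → ∀ (b : Bool) (R : Oracle) (w : List Bool),
    w.length ≤ (V b).2.eval (pads l x).length → ∀ q ∈ qs (V b).1 R (pads l x, w), q.length ≤ h

/-- the levels are large enough -/
def Big (V : Vp) (S : ℕ) : Prop :=
  ∀ i l, l ≤ i → nb l ≤ lev S i ∧
    ∃ h, HB V (lev S i) l h ∧ 100 * mu l ^ 2 * (h + 1) ≤ 2 ^ lev S i

/-! ## Unambiguous NP -/

/-- UP relative to the oracle `X`: NP with at most one witness -/
def UPo (X : Oracle) : DecisionComplexityClass :=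
  {L | ∃ (p : Polynomial ℕ) (M : OracleProc (List Bool × List Bool) Bool),
    (∀ x, L x = true ↔ Accepts M p X x) ∧
    ∀ x w w' : List Bool, w.length ≤ p.eval x.length → w'.length ≤ p.eval x.length →
      M.run X (x, w) = true → M.run X (x, w') = true → w = w'}

/-! ## Randomized reductions -/

/-- the proportion of the words of length `n` with a property -/
noncomputable def prob (n : ℕ) (P : List Bool → Prop) : ℝ :=
  pr fun w : List.Vector Bool n => P w.1

/-- `L` is reducible to the pair `(C, D)` by a randomized polynomial time many-one reduction with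
oracle `X` and error at most `1 / 3` -/
def RandRed (X : Oracle) (L C D : DecisionProblem) : Prop :=
  ∃ (f : OracleProc (List Bool × List Bool) (List Bool)) (p : Polynomial ℕ), ∀ x : List Bool,
    (L x = true → 2 / 3 ≤ prob (p.eval x.length) fun w => C (f.run X (x, w)) = true) ∧
    (L x = false → 2 / 3 ≤ prob (p.eval x.length) fun w => D (f.run X (x, w)) = true)

/-- `L` is decided in randomized polynomial time with the oracles `X` and `B` and error at most
`1 / 3` -/
def RandTuring (X : Oracle) (L B : DecisionProblem) : Prop :=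
  ∃ (M : OracleProc (List Bool × List Bool) Bool) (p : Polynomial ℕ), ∀ x : List Bool,
    2 / 3 ≤ prob (p.eval x.length) fun w => M.run (join X B) (x, w) = L x

end Pool.Agent.ROP
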