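import Mathlib
import Pool.Agent.RO.Meas

set_option autoImplicit false

/-!
# ROP-QdA (job): the probability that all words of a finite set are outside of the random oracle

The set is a cylinder of the product measure.
-/

namespace Pool.Agent.ROP

open MeasureTheory Pool.Agent.Helper22
open Pool.Agent.RO (coin)
open scoped ENNReal

theorem coin_false (F : Finset (List Bool)) :
    coin {R | ∀ w ∈ F, R w = false} = (2⁻¹ : ℝ≥0∞) ^ F.card := by
  have h1 : {R : List Bool → Bool | ∀ w ∈ F, R w = false} =
      Set.pi (F : Set (List Bool)) (fun _ => ({false} : Set Bool)) := by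
    ext R
    simp [Set.pi]
  have h2 : (PMF.uniformOfFintype Bool).toMeasure {false} = (2⁻¹ : ℝ≥0∞) := by
    rw [PMF.toMeasure_apply_singleton _ _ (measurableSet_singleton _),
      PMF.uniformOfFintype_apply]
    simp
  unfold Pool.Agent.RO.coin
  rw [h1, Measure.infinitePi_pi _ (fun _ _ => measurableSet_singleton _),
    Finset.prod_congr rfl fun _ _ => h2, Finset.prod_const]

end Pool.Agent.ROP
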