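import Mathlib

set_option autoImplicit false

/-!
# ROP-ParA: a large product of consecutive numbers (Mathlib only)
-/

namespace Pool.Agent.ROP

private theorem pa_exp : Real.exp 4 ≤ 64 := by
  have h1 : Real.exp 4 = (Real.exp 1) ^ 4 := by
    rw [← Real.exp_nat_mul]
    norm_num
  have h2 : Real.exp 1 < 2.7182818286 := Real.exp_one_lt_d9
  rw [h1]
  have h3 : Real.exp 1 ≤ 2.8 := by linarith
  have h4 : (Real.exp 1) ^ 4 ≤ (2.8 : ℝ) ^ 4 := pow_le_pow_left₀ (Real.exp_pos 1).le h3 4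
  refine h4.trans ?_
  norm_num

private theorem pa_fact (m : ℕ) : m ^ (4 * m) * 4 ^ m ≤ (4 * m).factorial := by
  have h1 := Real.pow_div_factorial_le_exp ((4 * m : ℕ) : ℝ) (Nat.cast_nonneg _) (4 * m)
  have h2 : (0 : ℝ) < ((4 * m).factorial : ℝ) := by exact_mod_cast Nat.factorial_pos _
  rw [div_le_iff₀ h2] at h1
  have h3 : Real.exp ((4 * m : ℕ) : ℝ) ≤ (64 : ℝ) ^ m := by
    have h4 : Real.exp ((4 * m : ℕ) : ℝ) = (Real.exp 4) ^ m := by
      rw [← Real.exp_nat_mul]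
      push_cast
      ring_nf
    rw [h4]
    exact pow_le_pow_left₀ (Real.exp_pos 4).le pa_exp m
  have h5 : ((4 * m : ℕ) : ℝ) ^ (4 * m) ≤ (64 : ℝ) ^ m * ((4 * m).factorial : ℝ) :=
    h1.trans (mul_le_mul_of_nonneg_right h3 h2.le)
  have h6 : (4 * m) ^ (4 * m) ≤ 64 ^ m * (4 * m).factorial := by exact_mod_cast h5
  have h7 : (4 * m) ^ (4 * m) = 64 ^ m * (m ^ (4 * m) * 4 ^ m) := by
    have h8 : (4 : ℕ) ^ (4 * m) = 64 ^ m * 4 ^ m := by
      rw [pow_mul, ← mul_pow]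
      norm_num
    rw [mul_pow, h8]
    ring
  rw [h7] at h6
  exact Nat.le_of_mul_le_mul_left h6 (pow_pos (by norm_num) m)

theorem par_up {t : ℕ} (ht : 3 ≤ t) :
    2 ^ t * (2 ^ (2 * t + 7)) ^ (4 * 2 ^ (2 * t + 7) - 4 * t - 1) ≤
      (4 * t + 1).ascFactorial (4 * 2 ^ (2 * t + 7) - 4 * t - 1) := by
  obtain ⟨m, hm⟩ : ∃ m, m = 2 ^ (2 * t + 7) := ⟨_, rfl⟩
  rw [← hm]
  have hmt : 4 * t + 28 ≤ 2 * m := by
    have h1 : 2 * t + 14 < 2 ^ (2 * t + 7) * 1 := by
      have h2 : 2 * t + 3 < 2 ^ (2 * t + 3) := Nat.lt_two_pow_self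
      have h3 : 2 ^ (2 * t + 7) = 16 * 2 ^ (2 * t + 3) := by
        rw [show 2 * t + 7 = 4 + (2 * t + 3) by ring, pow_add]
        norm_num
      omega
    omega
  have hm4 : 4 * t ≤ m := by
    have h2 : 2 * t + 3 < 2 ^ (2 * t + 3) := Nat.lt_two_pow_self
    have h3 : 2 ^ (2 * t + 7) = 16 * 2 ^ (2 * t + 3) := by
      rw [show 2 * t + 7 = 4 + (2 * t + 3) by ring, pow_add]
      norm_num
    omega
  obtain ⟨j, hj⟩ : ∃ j, j = 4 * m - 4 * t - 1 := ⟨_, rfl⟩
  rw [← hj]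
  have hj2 : 4 * t + j + 1 = 4 * m := by omega
  have h1 : (4 * t).factorial * (4 * t + 1).ascFactorial j = (4 * t + j).factorial :=
    Nat.factorial_mul_ascFactorial _ _
  have h2 : (4 * m).factorial = 4 * m * ((4 * t).factorial * (4 * t + 1).ascFactorial j) := by
    rw [h1, ← hj2, Nat.factorial_succ]
  have h3 := pa_fact m
  rw [h2] at h3
  have h4 : (4 * t).factorial ≤ m ^ (4 * t) :=
    (Nat.factorial_le_pow _).trans (Nat.pow_le_pow_left hm4 _)
  have h5 : 4 * 2 ^ t ≤ 4 ^ m := by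
    have h6 : (4 : ℕ) ^ m = 2 ^ (2 * m) := by
      rw [pow_mul]
      norm_num
    have h7 : 4 * 2 ^ t = 2 ^ (t + 2) := by
      rw [pow_add]
      ring
    rw [h6, h7]
    exact Nat.pow_le_pow_right (by norm_num) (by omega)
  have h8 : m ^ (4 * m) = m * m ^ (4 * t) * m ^ j := by
    rw [← hj2, pow_succ, pow_add]
    ring
  have h9 : 4 * m * (4 * t).factorial * (2 ^ t * m ^ j) ≤
      4 * m * (4 * t).factorial * (4 * t + 1).ascFactorial j := by
    calc 4 * m * (4 * t).factorial * (2 ^ t * m ^ j)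
        = (4 * 2 ^ t) * (m * (4 * t).factorial * m ^ j) := by ring
      _ ≤ 4 ^ m * (m * m ^ (4 * t) * m ^ j) := by
          apply Nat.mul_le_mul h5
          apply Nat.mul_le_mul_right
          exact Nat.mul_le_mul_left _ h4
      _ = m ^ (4 * m) * 4 ^ m := by
          rw [h8]
          ring
      _ ≤ 4 * m * ((4 * t).factorial * (4 * t + 1).ascFactorial j) := h3
      _ = 4 * m * (4 * t).factorial * (4 * t + 1).ascFactorial j := by ring
  have hpos : 0 < 4 * m * (4 * t).factorial := by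
    have : 0 < m := by omega
    positivity
  exact Nat.le_of_mul_le_mul_left h9 hpos

end Pool.Agent.ROP
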