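import Mathlib

set_option autoImplicit false

/-!
# ROP-ParB: a small product of consecutive numbers
-/

namespace Pool.Agent.ROP

private theorem pb_add (a k l : ℕ) : a.ascFactorial (k + l) = a.ascFactorial k * (a + k).ascFactorial l := by
  induction l with
  | zero => simp
  | succ l ih =>
    rw [← Nat.add_assoc, Nat.ascFactorial_succ, Nat.ascFactorial_succ, ih]
    ring

private theorem pb_up (a b k : ℕ) (h : a + k ≤ b) : (a + 1).ascFactorial k ≤ b ^ k :=
  (Nat.ascFactorial_le_pow_add a k).trans (Nat.pow_le_pow_left h k)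

private theorem pb_num (n i : ℕ) (hi : i ≤ 3 * n) : 11 ^ i ≤ 4 ^ n * 8 ^ i := by
  have h1 : 0 < 8 ^ (3 * n - i) := Nat.pow_pos (by norm_num)
  refine Nat.le_of_mul_le_mul_right ?_ h1
  have e1 : i + (3 * n - i) = 3 * n := by omega
  calc 11 ^ i * 8 ^ (3 * n - i) ≤ 11 ^ i * 11 ^ (3 * n - i) :=
        Nat.mul_le_mul_left _ (Nat.pow_le_pow_left (by norm_num) _)
    _ = 1331 ^ n := by rw [← pow_add, e1, pow_mul]; norm_num
    _ ≤ 2048 ^ n := Nat.pow_le_pow_left (by norm_num) _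
    _ = 4 ^ n * 8 ^ (3 * n) := by rw [pow_mul, ← mul_pow]; norm_num
    _ = 4 ^ n * 8 ^ i * 8 ^ (3 * n - i) := by rw [mul_assoc, ← pow_add, e1]

theorem par_low {α n j : ℕ} (hα : α ≤ n) (hj : j ≤ 10 * n) :
    (α + 1).ascFactorial j ≤ (8 * n) ^ j := by
  by_cases h : α + j ≤ 8 * n
  · exact pb_up α (8 * n) j h
  · obtain ⟨i, rfl⟩ : ∃ i, j = n + (6 * n + i) := ⟨j - 7 * n, by omega⟩
    have hi : i ≤ 3 * n := by omega
    rw [pb_add, pb_add]
    have h1 : (α + 1).ascFactorial n ≤ (2 * n) ^ n := pb_up α (2 * n) n (by omega)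
    have h2 : (α + 1 + n).ascFactorial (6 * n) ≤ (8 * n) ^ (6 * n) := by
      rw [Nat.add_right_comm]
      exact pb_up (α + n) (8 * n) (6 * n) (by omega)
    have h3 : (α + 1 + n + 6 * n).ascFactorial i ≤ (11 * n) ^ i := by
      rw [show α + 1 + n + 6 * n = (α + n + 6 * n) + 1 by ring]
      exact pb_up (α + n + 6 * n) (11 * n) i (by omega)
    have h4 : (11 * n) ^ i ≤ 4 ^ n * (8 * n) ^ i := by
      rw [mul_pow, mul_pow, ← mul_assoc]
      exact Nat.mul_le_mul_right _ (pb_num n i hi)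
    calc (α + 1).ascFactorial n * ((α + 1 + n).ascFactorial (6 * n) * (α + 1 + n + 6 * n).ascFactorial i)
        ≤ (2 * n) ^ n * ((8 * n) ^ (6 * n) * (4 ^ n * (8 * n) ^ i)) :=
          Nat.mul_le_mul h1 (Nat.mul_le_mul h2 (h3.trans h4))
      _ = ((2 * n) * 4) ^ n * ((8 * n) ^ (6 * n) * (8 * n) ^ i) := by rw [mul_pow (2 * n) 4]; ring
      _ = (8 * n) ^ (n + (6 * n + i)) := by
          rw [show (2 * n) * 4 = 8 * n by ring, ← pow_add, ← pow_add]

end Pool.Agent.ROP
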