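import Mathlib
import Pool.Agent.ROP.Defs
import Pool.Agent.ROP.ParA
import Pool.Agent.ROP.ParB

set_option autoImplicit false

/-!
# ROP-Par: the parameters
-/

namespace Pool.Agent.ROP

open Pool.Agent.Helper22

theorem mu_pos (l : ℕ) : 0 < mu l := by unfold mu; positivity

theorem rho_pos (l : ℕ) : 0 < rho l := by unfold rho; positivity

theorem al_pos (l : ℕ) : 0 < al l := by unfold al tt; omega

theorem jj_pos (l : ℕ) : 0 < jj l := by unfold jj; omega

private theorem tt_three (l : ℕ) : 3 ≤ tt l := by unfold tt; omega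

private theorem mu_ge (l : ℕ) : 64 * tt l ≤ mu l := by
  have h1 : tt l < 2 ^ tt l := Nat.lt_two_pow_self
  have h2 : mu l = 128 * (2 ^ tt l * 2 ^ tt l) := by
    rw [mu, ← pow_add, show 2 * tt l + 7 = (tt l + tt l) + 7 by ring, pow_add]
    ring
  have h3 : 1 ≤ 2 ^ tt l := Nat.one_le_two_pow
  nlinarith

private theorem set_nonempty (l : ℕ) :
    2 * mu l - 2 * tt l - 1 ∈
      {k | rho l * mu l ^ (2 * k + 1) ≤ (al l + 1).ascFactorial (2 * k + 1)} := by
  have h1 := par_up (tt_three l)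
  have h2 := mu_ge l
  have e : 2 * (2 * mu l - 2 * tt l - 1) + 1 = 4 * mu l - 4 * tt l - 1 := by
    have := tt_three l
    omega
  rw [Set.mem_ofPred_eq, e]
  exact h1

/-- the defining inequality -/
theorem par_thr (l : ℕ) : rho l * mu l ^ jj l ≤ (al l + 1).ascFactorial (jj l) := by
  have h : kk l ∈ {k | rho l * mu l ^ (2 * k + 1) ≤ (al l + 1).ascFactorial (2 * k + 1)} :=
    Nat.sInf_mem ⟨_, set_nonempty l⟩
  exact h

/-- minimality -/
theorem par_lt (l k : ℕ) (hk : k < kk l) :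
    (al l + 1).ascFactorial (2 * k + 1) < rho l * mu l ^ (2 * k + 1) := by
  have h : k ∉ {k | rho l * mu l ^ (2 * k + 1) ≤ (al l + 1).ascFactorial (2 * k + 1)} :=
    Nat.notMem_of_lt_sInf hk
  rw [Set.mem_ofPred_eq, not_le] at h
  exact h

theorem par_be (l : ℕ) : al l + jj l ≤ 4 * mu l := by
  have h : kk l ≤ 2 * mu l - 2 * tt l - 1 := Nat.sInf_le (set_nonempty l)
  have h2 := mu_ge l
  have h3 := tt_three l
  rw [al, jj]
  omega

theorem par_jj (l : ℕ) : 5 * mu l ≤ 4 * jj l := by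
  by_contra hcon
  obtain ⟨n, hn⟩ : ∃ n, mu l = 8 * n := by
    refine ⟨2 ^ (2 * tt l + 4), ?_⟩
    rw [mu, show 2 * tt l + 7 = 3 + (2 * tt l + 4) by ring, pow_add]
    norm_num
  have h1 : jj l ≤ 10 * n := by omega
  have h2 : al l ≤ n := by
    have := mu_ge l
    rw [al]
    omega
  have h3 := par_low h2 h1
  have h4 := par_thr l
  rw [← hn] at h3
  have h5 : 0 < mu l ^ jj l := pow_pos (mu_pos l) _
  have h6 : 8 ≤ rho l := by
    rw [rho]
    calc 8 = 2 ^ 3 := by norm_num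
      _ ≤ 2 ^ tt l := Nat.pow_le_pow_right (by norm_num) (tt_three l)
  nlinarith

theorem par_al (l : ℕ) : al l < jj l := by
  have h1 := mu_ge l
  have h2 := par_jj l
  have h3 := tt_three l
  rw [al]
  omega

theorem par_min (l : ℕ) : (al l + 1).ascFactorial (jj l) ≤ 16 * rho l * mu l ^ jj l := by
  have h0 : 1 ≤ kk l := by
    have h1 := par_jj l
    have h2 := mu_ge l
    have h3 := tt_three l
    rw [jj] at h1
    omega
  obtain ⟨k, hk⟩ : ∃ k, kk l = k + 1 := ⟨kk l - 1, by omega⟩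
  have h1 := par_lt l k (by omega)
  have hbe := par_be l
  rw [jj, hk] at hbe ⊢
  have e : 2 * (k + 1) + 1 = (2 * k + 1) + 1 + 1 := by ring
  rw [e, Nat.ascFactorial_succ, Nat.ascFactorial_succ]
  have h2 : al l + 1 + (2 * k + 1 + 1) ≤ 4 * mu l := by omega
  have h3 : al l + 1 + (2 * k + 1) ≤ 4 * mu l := by omega
  calc (al l + 1 + (2 * k + 1 + 1)) * ((al l + 1 + (2 * k + 1)) *
        (al l + 1).ascFactorial (2 * k + 1))
      ≤ (4 * mu l) * ((4 * mu l) * (rho l * mu l ^ (2 * k + 1))) :=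
        Nat.mul_le_mul h2 (Nat.mul_le_mul h3 h1.le)
    _ = 16 * rho l * mu l ^ (2 * k + 1 + 1 + 1) := by ring

theorem par_mu (l : ℕ) : 32 * (rho l * al l) ≤ mu l := by
  have h1 : tt l ≤ 2 ^ tt l := Nat.lt_two_pow_self.le
  have h2 : mu l = 128 * (2 ^ tt l * 2 ^ tt l) := by
    rw [mu, ← pow_add, show 2 * tt l + 7 = (tt l + tt l) + 7 by ring, pow_add]
    ring
  rw [h2, rho, al]
  have h3 := Nat.mul_le_mul_left (2 ^ tt l) h1
  nlinarith

theorem par_rho (l : ℕ) : (rho l : ℝ) ≤ (5 / 4 : ℝ) ^ al l := by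
  rw [rho, al, pow_mul]
  push_cast
  exact pow_le_pow_left₀ (by norm_num) (by norm_num) _

theorem par_rho8 (l : ℕ) : 8 ≤ rho l := by
  rw [rho]
  calc 8 = 2 ^ 3 := by norm_num
    _ ≤ 2 ^ tt l := Nat.pow_le_pow_right (by norm_num) (tt_three l)

theorem par_jj_odd (l : ℕ) : Odd (jj l) := ⟨kk l, rfl⟩

theorem par_nb (l : ℕ) : 16 * rho l * mu l ^ jj l ≤ nb l := by
  have h1 : 16 * rho l ≤ mu l := by
    have h2 := par_mu l
    have h3 := al_pos l
    have h4 : rho l * 1 ≤ rho l * al l := Nat.mul_le_mul_left _ h3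
    omega
  have h2 := par_be l
  calc 16 * rho l * mu l ^ jj l ≤ mu l * mu l ^ jj l := Nat.mul_le_mul_right _ h1
    _ = mu l ^ (jj l + 1) := by ring
    _ ≤ nb l := Nat.pow_le_pow_right (mu_pos l) (by omega)

theorem inst_length {s l : ℕ} {u : List Bool} (h : IsInst s l u) :
    u.length = jj l * (2 * s + 1) := by
  obtain ⟨h1, h2, -, h4⟩ := h
  have h5 : ∀ L : List (List Bool), (∀ w ∈ L, w.length = s) →
      (lc L).length = L.length * (2 * s + 1) := by
    intro L hL
    induction L with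
    | nil => simp [lc]
    | cons a L ih =>
      rw [lc, cd_length, hL a List.mem_cons_self, ih fun w hw => hL w (List.mem_cons_of_mem _ hw),
        List.length_cons]
      ring
  have h6 := h5 (ld u) h4
  rwa [h1, h2] at h6

end Pool.Agent.ROP
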