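import Mathlib
import Pool.Agent.RO.CFpC
import Pool.Agent.RO.CWx
import Pool.Agent.RO.CLev
import Pool.Agent.ROP.Par

set_option autoImplicit false

/-!
# ROP, block C: definitions for the polynomial time machines

As in `Pool/Agent/RO/CDefs.lean` and `Pool/Agent/ROA/CDefs.lean`: bounded versions of all notions; `r` is a bound in unary, `T` a
list of the words which are in the oracle, `s`, `l`, `k` numbers in unary (only the lengths matter).
-/

namespace Pool.Agent.ROP

open N68a2faeb N793a5b8e N487b59b3 Pool.Agent.Helper22
open Pool.Agent.Helper20.Cons (join Po cRun)
open Pool.Agent.RO (Vp pads lev wx uns nodupB accB nxtU nz)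

/-! ## Parameters -/

/-- the number of marks in a certificate, in unary -/
def aU (l : List Bool) : List Bool := l ++ (l ++ (l ++ (l ++ un 12)))

/-- the expected number of marks, in unary, truncated at `|s| + 1` -/
def muU (s l : List Bool) : List Bool := pw [true, true] (l ++ (l ++ un 13)) s

/-- the ratio of the risks, in unary, truncated at `|s| + 1` -/
def rhU (s l : List Bool) : List Bool := pw [true, true] (l ++ un 3) s

/-- truncated product in unary -/
def mlU (s x y : List Bool) : List Bool := (un (x.length * y.length)).take s.length

/-- one step of the search for `jj`; the state is `(j, (P, Q))`, `P = (α+1)...(α+j)`, `Q = ρ μ^j` -/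
def jst (s a m : List Bool) (p : List Bool × (List Bool × List Bool)) :
    List Bool × (List Bool × List Bool) :=
  if decide (p.2.2.length ≤ p.2.1.length) then p
  else (true :: true :: p.1,
    (mlU s (mlU s p.2.1 (a ++ (p.1 ++ un 1))) (a ++ (p.1 ++ un 2)), mlU s (mlU s p.2.2 m) m))

/-- the number of the words of an instance, in unary, if `nb |l| ≤ |s|` -/
def jU (s l : List Bool) : List Bool :=
  ((jst s (aU l) (muU s l))^[s.length] (un 1, (aU l ++ un 1, mlU s (rhU s l) (muU s l)))).1

/-- `kap` in unary -/
def kapU (s l : List Bool) : List Bool := s.drop (l ++ (l ++ un 13)).length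

/-! ## The gadget -/

/-- `w` is a mark, `k` marks words in unary -/
def markB (T : List (List Bool)) (k w : List Bool) : Bool :=
  (uns k).all fun a => !wmem T (true :: (w ++ a))

/-- `u` is an instance -/
def instB (s l u : List Bool) : Bool :=
  (weq (lc (ld u)) u && leneq (un (ld u).length) (jU s l)) &&
    (nodupB (ld u) && (ld u).all fun x => leneq x s)

/-- all words of some translate of `u` are marks -/
def satB (r : List Bool) (T : List (List Bool)) (s l u : List Bool) : Bool :=
  (strs r).any fun y => leneq y s && (ld u).all fun x => markB T (kapU s l) (wx y x)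

/-! ## The verifiers on the images of the trivial reductions -/

/-- the length of the random words for the instance `u`, in unary -/
def rlU (r l u : List Bool) : List Bool :=
  pw u (cf (cs (enumU l))) r ++ un (cf (cs (enumU l))).length

/-- the random words for the instance `u` -/
def rw' (r l u : List Bool) : List (List Bool) := (strs r).filter fun w => leneq w (rlU r l u)

/-- the random words for which the verifier accepts -/
def aw' (V : Vp) (b : Bool) (r : List Bool) (T : List (List Bool)) (l u : List Bool) :
    List (List Bool) := (rw' r l u).filter fun w => accB V b r T l (cd u w)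

/-- acceptance with probability at least `2 / 3` -/
def majB (V : Vp) (b : Bool) (r : List Bool) (T : List (List Bool)) (l u : List Bool) : Bool :=
  decide ((un (rw' r l u).length ++ un (rw' r l u).length).length ≤
    (un (aw' V b r T l u).length ++ (un (aw' V b r T l u).length ++
      un (aw' V b r T l u).length)).length)

/-- both verifiers accept for some random word -/
def bothB (V : Vp) (r : List Bool) (T : List (List Bool)) (l u : List Bool) : Bool :=
  (rw' r l u).any fun w => accB V true r T l (cd u w) && accB V false r T l (cd u w)

/-- failure of the reduction number `|l|` for the words of length `|s|` -/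
def failB (V : Vp) (r : List Bool) (T : List (List Bool)) (s l : List Bool) : Bool :=
  (strs r).any fun u => instB s l u && ((satB r T s l u && !majB V true r T l u) ||
    ((!satB r T s l u && !majB V false r T l u) || bothB V r T l u))

/-! ## Looking back -/

/-- one step: from the level and its number to the next level and its number -/
def lstep (V : Vp) (r : List Bool) (T : List (List Bool)) (p : List Bool × List Bool) :
    List Bool × List Bool :=
  if decide ((nxtU p.1 r).length ≤ r.length) then
    (nxtU p.1 r, if failB V r T p.1 p.2 then true :: p.2 else p.2)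
  else p

/-- the largest level which is at most `|r|`, and its number -/
def look (V : Vp) (S : ℕ) (r : List Bool) (T : List (List Bool)) : List Bool × List Bool :=
  (lstep V r T)^[r.length] (un S, [])

/-- `z` is an instance of a level `≥ i₀`, if `T` holds the positive answers for `strs (nz z)` -/
def levB (V : Vp) (S i₀ : ℕ) (z : List Bool) (T : List (List Bool)) : Bool :=
  (leneq (look V S (nz z) T).1 (nz z) && decide ((un (lev S i₀)).length ≤ (nz z).length)) &&
    instB (look V S (nz z) T).1 (look V S (nz z) T).2 z

/-! ## The two verifiers of the new language -/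

/-- the queries of the first verifier -/
def qY (a : List Bool × List Bool) : List (List Bool) :=
  strs (nz a.1) ++ (ld a.1).flatMap fun x => (uns (nz a.1)).map fun t => true :: (wx a.2 x ++ t)

/-- the output of the first verifier, from the list of the queries which are in the oracle -/
def dY (V : Vp) (S i₀ : ℕ) (c : (List Bool × List Bool) × List (List Bool)) : Bool :=
  levB V S i₀ c.1.1 c.2 && (leneq c.1.2 (nz c.1.1) && (ld c.1.1).all fun x =>
    markB c.2 (kapU (nz c.1.1) (look V S (nz c.1.1) c.2).2) (wx c.1.2 x))

/-- the queries of the second verifier; the witness codes two lists of words -/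
def qN (a : List Bool × List Bool) : List (List Bool) :=
  strs (nz a.1) ++ (ld (cf a.2) ++ ld (cs a.2)).flatMap fun e =>
    (uns (nz a.1)).map fun t => true :: (e ++ t)

/-- the certificate of the second verifier, `s` and `l` in unary -/
def crtB (T : List (List Bool)) (s l u : List Bool) (E F : List (List Bool)) : Bool :=
  ((nodupB E && leneq (un E.length) (aU l)) &&
    ((E.all fun e => leneq e s && markB T (kapU s l) e) &&
      (F.all fun f => !markB T (kapU s l) f))) &&
    (E.all fun e => (ld u).all fun x => (ld u).any fun x' => wmem F (wx (wx e x) x'))

/-- the output of the second verifier -/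
def dN (V : Vp) (S i₀ : ℕ) (c : (List Bool × List Bool) × List (List Bool)) : Bool :=
  !levB V S i₀ c.1.1 c.2 ||
    crtB c.2 (nz c.1.1) (look V S (nz c.1.1) c.2).2 c.1.1 (ld (cf c.1.2)) (ld (cs c.1.2))

/-! ## Certificates -/

/-- the lists `E` (marks) and `F` (no marks) show that the instance `u` has no translate of
marks -/
def Crt (R : Oracle) (s l : ℕ) (u : List Bool) (E F : List (List Bool)) : Prop :=
  (E.Nodup ∧ E.length = al l) ∧
    (∀ e ∈ E, e.length = s ∧ RO.Mark R (kap s l) e) ∧ (∀ f ∈ F, ¬ RO.Mark R (kap s l) f) ∧
    ∀ e ∈ E, ∀ x ∈ ld u, ∃ x' ∈ ld u, wx (wx e x) x' ∈ F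

end Pool.Agent.ROP
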