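import Mathlib
import Pool.Agent.ROP.CDefs

set_option autoImplicit false

/-!
# ROP-CJf (job): the computation of `jj l` is in polynomial time

Composition of functions in polynomial time; `jU` is an iteration with bounded size.
-/

namespace Pool.Agent.ROP

open N68a2faeb N793a5b8e N487b59b3 Pool.Agent.Helper22

private theorem fp_aU {α : Type} [N487b59b3 α] {f : α → List Bool} (hf : FP f) :
    FP fun a => aU (f a) := by
  unfold aU
  exact hf.append (hf.append (hf.append (hf.append (FP.const _))))

private theorem fp_ml {α : Type} [N487b59b3 α] {f g h : α → List Bool} (hf : FP f) (hg : FP g)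
    (hh : FP h) : FP fun a => mlU (f a) (g a) (h a) := by
  unfold mlU
  exact FP.take (FP.unMul hg hh) hf

private theorem fp_mu {α : Type} [N487b59b3 α] {f g : α → List Bool} (hf : FP f) (hg : FP g) :
    FP fun a => muU (f a) (g a) := by
  unfold muU
  exact FP.pw (FP.const _) (hg.append (hg.append (FP.const _))) hf

private theorem fp_rh {α : Type} [N487b59b3 α] {f g : α → List Bool} (hf : FP f) (hg : FP g) :
    FP fun a => rhU (f a) (g a) := by
  unfold rhU
  exact FP.pw (FP.const _) (hg.append (FP.const _)) hf

private theorem ml_len (s x y : List Bool) : (mlU s x y).length ≤ s.length := by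
  unfold mlU
  rw [List.length_take]
  exact min_le_left _ _

/-- the step with its context -/
private def cj (p : List Bool × (List Bool × (List Bool × (List Bool × (List Bool × List Bool))))) :
    List Bool × (List Bool × (List Bool × (List Bool × (List Bool × List Bool)))) :=
  (p.1, (p.2.1, (p.2.2.1, jst p.1 p.2.1 p.2.2.1 p.2.2.2)))

private theorem cj_iter (s a m : List Bool) (q : List Bool × (List Bool × List Bool)) (i : ℕ) :
    cj^[i] (s, (a, (m, q))) = (s, (a, (m, (jst s a m)^[i] q))) := by
  induction i with
  | zero => rfl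
  | succ i ih => rw [Function.iterate_succ_apply', ih, Function.iterate_succ_apply']; rfl

private theorem cj_FP : FP cj := by
  have e1 : FP fun p : List Bool × (List Bool × (List Bool × (List Bool × (List Bool × List Bool)))) =>
      p.1 := FP.fst
  have e2 : FP fun p : List Bool × (List Bool × (List Bool × (List Bool × (List Bool × List Bool)))) =>
      p.2.1 := FP.snd.fst'
  have e3 : FP fun p : List Bool × (List Bool × (List Bool × (List Bool × (List Bool × List Bool)))) =>
      p.2.2.1 := FP.snd.snd'.fst'
  have e4 : FP fun p : List Bool × (List Bool × (List Bool × (List Bool × (List Bool × List Bool)))) =>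
      p.2.2.2 := FP.snd.snd'.snd'
  have e5 : FP fun p : List Bool × (List Bool × (List Bool × (List Bool × (List Bool × List Bool)))) =>
      p.2.2.2.1 := e4.fst'
  have e6 : FP fun p : List Bool × (List Bool × (List Bool × (List Bool × (List Bool × List Bool)))) =>
      p.2.2.2.2.1 := e4.snd'.fst'
  have e7 : FP fun p : List Bool × (List Bool × (List Bool × (List Bool × (List Bool × List Bool)))) =>
      p.2.2.2.2.2 := e4.snd'.snd'
  have e8 : FP fun p : List Bool × (List Bool × (List Bool × (List Bool × (List Bool × List Bool)))) =>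
      jst p.1 p.2.1 p.2.2.1 p.2.2.2 := by
    unfold jst
    refine FP.ite (FP.length_le e7 e6) e4 (FP.pair ((FP.const true).cons ((FP.const true).cons e5))
      (FP.pair ?_ ?_))
    · exact fp_ml e1 (fp_ml e1 e6 (e2.append (e5.append (FP.const _))))
        (e2.append (e5.append (FP.const _)))
    · exact fp_ml e1 (fp_ml e1 e7 e3) e3
  exact e1.pair (e2.pair (e3.pair e8))

private theorem jst_len (s a m : List Bool) (q : List Bool × (List Bool × List Bool)) (i : ℕ) :
    ((jst s a m)^[i] q).1.length ≤ q.1.length + 2 * i ∧
      ((jst s a m)^[i] q).2.1.length ≤ q.2.1.length + s.length ∧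
      ((jst s a m)^[i] q).2.2.length ≤ q.2.2.length + s.length := by
  induction i with
  | zero =>
    refine ⟨?_, ?_, ?_⟩ <;> simp
  | succ i ih =>
    rw [Function.iterate_succ_apply']
    obtain ⟨h1, h2, h3⟩ := ih
    generalize (jst s a m)^[i] q = p at h1 h2 h3
    rw [jst]
    split_ifs
    · exact ⟨by omega, h2, h3⟩
    · refine ⟨?_, (ml_len _ _ _).trans (Nat.le_add_left _ _), (ml_len _ _ _).trans (Nat.le_add_left _ _)⟩
      show p.1.length + 1 + 1 ≤ _
      omega

private theorem jst_FP : FP fun p : List Bool ×
    (List Bool × (List Bool × (List Bool × (List Bool × (List Bool × List Bool))))) =>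
      cj^[p.1.length] p.2 := by
  refine FP.iterate (f := cj) cj_FP (B := fun n => 20 * n) (by fun_prop) ?_
  rintro l ⟨s, a, m, q⟩ i hi
  rw [cj_iter]
  obtain ⟨h2, h3, h5⟩ := jst_len s a m q i
  have h4 := length_le_sz l
  rcases hq : (jst s a m)^[i] q with ⟨b, c, d⟩
  rw [hq] at h2 h3 h5
  obtain ⟨q1, q2, q3⟩ := q
  simp only [sz_pair, sz_bits] at *
  omega

theorem aU_FP : FP fun l : List Bool => aU l := by
  exact fp_aU FP.id

theorem jU_FP : FP fun p : List Bool × List Bool => jU p.1 p.2 := by
  have a1 : FP fun p : List Bool × List Bool => aU p.2 := fp_aU FP.snd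
  have a2 : FP fun p : List Bool × List Bool => muU p.1 p.2 := fp_mu FP.fst FP.snd
  have a3 : FP fun p : List Bool × List Bool => rhU p.1 p.2 := fp_rh FP.fst FP.snd
  have a4 : FP fun p : List Bool × List Bool => mlU p.1 (rhU p.1 p.2) (muU p.1 p.2) :=
    fp_ml FP.fst a3 a2
  have a5 : FP fun p : List Bool × List Bool => (p.1, (p.1, (aU p.2, (muU p.1 p.2, (un 1,
      (aU p.2 ++ un 1, mlU p.1 (rhU p.1 p.2) (muU p.1 p.2))))))) :=
    FP.fst.pair (FP.fst.pair (a1.pair (a2.pair ((FP.const _).pair ((a1.append (FP.const _)).pair a4)))))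
  have h2 := jst_FP.comp a5
  refine (congrArg FP (funext fun p => ?_)).mp h2.snd'.snd'.snd'.fst'
  rw [cj_iter]
  rfl

end Pool.Agent.ROP
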