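import Mathlib
import Pool.Agent.ROP.CJf

set_option autoImplicit false

/-!
# ROP-CFpA (job): the bounded versions are computable in polynomial time, part 1

ADAPT `Pool/Agent/RO/CFpA.lean` (`kapU_FP`, `instB_FP`), `Pool/Agent/ROA/CB.lean` (`markB_FP`, `satB_FP`), `Pool/Agent/RO/CFpB.lean` (`padB_FP` for the pattern of
`rlU`; `RO.accB_FP` is used as it is). `rw'`, `aw'`: `RO.FP.filter_ctx` (`Pool/Agent/RO/CTlA.lean`), `FP.strs`, `FP.leneq`. `majB`: `FP.length_le`,
`FP.append`, `FP.un_length`. `bothB`: `FP.any_ctx`.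
-/

namespace Pool.Agent.ROP

open N68a2faeb N793a5b8e N487b59b3 Pool.Agent.Helper22
open Pool.Agent.RO (Vp)
open Pool.Agent.RO (nodupB accB wx uns accB_FP)

theorem kapU_FP : FP fun p : List Bool × List Bool => kapU p.1 p.2 := by
  unfold kapU
  have h : FP fun p : List Bool × List Bool => un 13 := FP.const _
  exact FP.drop (by fun_prop) (FP.snd.append (FP.snd.append h))

theorem instB_FP : FP fun p : List Bool × (List Bool × List Bool) =>
    instB p.1 p.2.1 p.2.2 := by
  have e0 : FP fun p : List Bool × (List Bool × List Bool) => ld p.2.2 := by fun_prop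
  have e1 : FP fun p : List Bool × (List Bool × List Bool) => weq (lc (ld p.2.2)) p.2.2 :=
    FP.weq (Pool.Agent.Helper20.Cons.FP.lc'.comp e0) (by fun_prop)
  have e2 : FP fun p : List Bool × (List Bool × List Bool) => jU p.1 p.2.1 :=
    jU_FP.comp (f := fun p : List Bool × (List Bool × List Bool) => (p.1, p.2.1))
      (by fun_prop)
  have e3 : FP fun p : List Bool × (List Bool × List Bool) =>
      leneq (un (ld p.2.2).length) (jU p.1 p.2.1) :=
    FP.leneq (FP.un_length e0) e2
  have e4 : FP fun p : List Bool × (List Bool × List Bool) => nodupB (ld p.2.2) :=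
    RO.FP.nodupB e0
  have e5 : FP fun p : List Bool × (List Bool × List Bool) =>
      (ld p.2.2).all fun x => leneq x p.1 := by
    have h1 : FP fun p : List Bool × List Bool => leneq p.2 p.1 := by fun_prop
    exact (RO.FP.all_ctx h1).comp (f := fun p : List Bool × (List Bool × List Bool) =>
      (p.1, ld p.2.2)) (by fun_prop)
  unfold instB
  exact (e1.and e3).and (e4.and e5)

theorem markB_FP : FP fun p : List (List Bool) × (List Bool × List Bool) =>
    markB p.1 p.2.1 p.2.2 := by
  have h1 : FP fun p : (List (List Bool) × List Bool) × List Bool =>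
      !wmem p.1.1 (true :: (p.1.2 ++ p.2)) := by
    have h0 : FP fun p : (List (List Bool) × List Bool) × List Bool =>
        true :: (p.1.2 ++ p.2) := (FP.const true).cons (by fun_prop)
    fun_prop
  have h2 := RO.FP.all_ctx h1
  exact h2.comp (f := fun p : List (List Bool) × (List Bool × List Bool) =>
    ((p.1, p.2.2), uns p.2.1)) (by fun_prop)

theorem satB_FP : FP fun p : List Bool × (List (List Bool) × (List Bool ×
    (List Bool × List Bool))) => satB p.1 p.2.1 p.2.2.1 p.2.2.2.1 p.2.2.2.2 := by
  have h1 : FP fun p : ((List (List Bool) × (List Bool × List Bool)) × List Bool) × List Bool =>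
      markB p.1.1.1 (kapU p.1.1.2.1 p.1.1.2.2) (wx p.1.2 p.2) := by
    have e1 : FP fun p : ((List (List Bool) × (List Bool × List Bool)) × List Bool) × List Bool =>
        kapU p.1.1.2.1 p.1.1.2.2 := kapU_FP.comp (f := fun p : ((List (List Bool) ×
          (List Bool × List Bool)) × List Bool) × List Bool => (p.1.1.2.1, p.1.1.2.2))
        (by fun_prop)
    exact markB_FP.comp (f := fun p : ((List (List Bool) × (List Bool × List Bool)) ×
      List Bool) × List Bool => (p.1.1.1, (kapU p.1.1.2.1 p.1.1.2.2, wx p.1.2 p.2)))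
      (FP.pair (by fun_prop) (FP.pair e1 (by fun_prop)))
  have h2 := RO.FP.all_ctx h1
  have h3 : FP fun p : ((List (List Bool) × (List Bool × List Bool)) × List Bool) × List Bool =>
      leneq p.2 p.1.1.2.1 && (ld p.1.2).all fun x =>
        markB p.1.1.1 (kapU p.1.1.2.1 p.1.1.2.2) (wx p.2 x) := by
    refine FP.and (by fun_prop) ?_
    exact h2.comp (f := fun p : ((List (List Bool) × (List Bool × List Bool)) × List Bool) ×
      List Bool => ((p.1.1, p.2), ld p.1.2)) (by fun_prop)
  have h4 := FP.any_ctx h3
  unfold satB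
  exact h4.comp (f := fun p : List Bool × (List (List Bool) × (List Bool ×
    (List Bool × List Bool))) => (((p.2.1, (p.2.2.1, p.2.2.2.1)), p.2.2.2.2), strs p.1))
    (by fun_prop)

private theorem rlU_FP : FP fun p : List Bool × (List Bool × List Bool) =>
    rlU p.1 p.2.1 p.2.2 := by
  have e1 : FP fun p : List Bool × (List Bool × List Bool) => cf (cs (enumU p.2.1)) := by
    fun_prop
  have e2 : FP fun p : List Bool × (List Bool × List Bool) =>
      un (cf (cs (enumU p.2.1))).length := FP.un_length e1
  have e3 : FP fun p : List Bool × (List Bool × List Bool) =>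
      pw p.2.2 (cf (cs (enumU p.2.1))) p.1 := FP.pw (by fun_prop) e1 (by fun_prop)
  unfold rlU
  exact e3.append e2

private theorem rw_FP : FP fun p : List Bool × (List Bool × List Bool) =>
    rw' p.1 p.2.1 p.2.2 := by
  have h1 : FP fun p : List Bool × List Bool => leneq p.2 p.1 := by fun_prop
  have h2 := RO.FP.filter_ctx h1
  unfold rw'
  exact h2.comp (f := fun p : List Bool × (List Bool × List Bool) =>
    (rlU p.1 p.2.1 p.2.2, strs p.1)) (rlU_FP.pair (FP.strs FP.fst))

private theorem acc1_FP (V : Vp) (b : Bool) :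
    FP fun p : (List Bool × (List (List Bool) × (List Bool × List Bool))) × List Bool =>
      accB V b p.1.1 p.1.2.1 p.1.2.2.1 (cd p.1.2.2.2 p.2) :=
  (accB_FP V b).comp (f := fun p : (List Bool × (List (List Bool) × (List Bool × List Bool))) ×
    List Bool => (p.1.1, (p.1.2.1, (p.1.2.2.1, cd p.1.2.2.2 p.2)))) (by fun_prop)

private theorem rw4_FP : FP fun p : List Bool × (List (List Bool) × (List Bool × List Bool)) =>
    rw' p.1 p.2.2.1 p.2.2.2 :=
  rw_FP.comp (f := fun p : List Bool × (List (List Bool) × (List Bool × List Bool)) =>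
    (p.1, (p.2.2.1, p.2.2.2))) (by fun_prop)

private theorem aw_FP (V : Vp) (b : Bool) :
    FP fun p : List Bool × (List (List Bool) × (List Bool × List Bool)) =>
      aw' V b p.1 p.2.1 p.2.2.1 p.2.2.2 := by
  have h2 := RO.FP.filter_ctx (acc1_FP V b)
  unfold aw'
  exact h2.comp (f := fun p : List Bool × (List (List Bool) × (List Bool × List Bool)) =>
    (p, rw' p.1 p.2.2.1 p.2.2.2)) (FP.id.pair rw4_FP)

theorem majB_FP (V : Vp) (b : Bool) : FP fun p : List Bool × (List (List Bool) ×
    (List Bool × List Bool)) => majB V b p.1 p.2.1 p.2.2.1 p.2.2.2 := by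
  have e1 := FP.un_length rw4_FP
  have e2 := FP.un_length (aw_FP V b)
  unfold majB
  exact FP.length_le (e1.append e1) (e2.append (e2.append e2))

theorem bothB_FP (V : Vp) : FP fun p : List Bool × (List (List Bool) ×
    (List Bool × List Bool)) => bothB V p.1 p.2.1 p.2.2.1 p.2.2.2 := by
  have h1 := FP.any_ctx ((acc1_FP V true).and (acc1_FP V false))
  unfold bothB
  exact h1.comp (f := fun p : List Bool × (List (List Bool) × (List Bool × List Bool)) =>
    (p, rw' p.1 p.2.2.1 p.2.2.2)) (FP.id.pair rw4_FP)

end Pool.Agent.ROP
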