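import Mathlib
import Pool.Agent.ROP.CDefs

set_option autoImplicit false

/-!
# ROP-CJ (job): the computation of `jj l`, correctness

PLAN. Only the lengths of the words matter. Let `a = |aU l| = al |l|` (`al l = 4 (l + 3)`), `m = |muU s l| = mu |l|` and `|rhU s l| = rho |l|`
if `nb |l| ≤ |s|` (`pw_eq : pw y e t = un (min (|y| ^ |e|) (|t| + 1))`; `mu l, rho l ≤ nb l`), `|mlU s x y| = min (|x| |y|) |s|`.
Claim (induction on `i`): after `i` steps the state has the lengths
`(2 i' + 1, (al l + 1).ascFactorial (2 i' + 1), rho l * mu l ^ (2 i' + 1))` with `i' = min i (kk l)`; nothing is truncated: for `i' < kk l`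
`par_lt` gives `P < Q` (so the step is done), and the new numbers are at most `(al l + 1).ascFactorial (jj l) ≤ 16 * rho l * mu l ^ jj l ≤ nb l ≤ |s|`
(`par_min`, `par_nb`; `ascFactorial` is monotone in the second argument: `Nat.ascFactorial_succ` and positivity) and `rho l * mu l ^ jj l ≤ nb l`
(the intermediate products are between); for `i' = kk l` the step stops by `par_thr`. `Nat.ascFactorial_succ : n.ascFactorial (k+1) = (n + k) * n.ascFactorial k`.
Finally `kk l ≤ nb l ≤ |s|` (`par_be`), so after `|s|` steps the first component has length `2 kk l + 1 = jj l`.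
-/

namespace Pool.Agent.ROP

open N68a2faeb N793a5b8e N487b59b3 Pool.Agent.Helper22

theorem aU_length (l : List Bool) : (aU l).length = al l.length := by
  simp only [aU, al, tt, List.length_append, un_length]
  omega

private theorem cj_mono (n : ℕ) {k k' : ℕ} (h : k ≤ k') :
    (n + 1).ascFactorial k ≤ (n + 1).ascFactorial k' := by
  induction k', h using Nat.le_induction with
  | base => exact le_rfl
  | succ m _ ih =>
    rw [Nat.ascFactorial_succ]
    exact ih.trans (Nat.le_mul_of_pos_left _ (by omega))

private theorem cj_ml {s x y : List Bool} (h : x.length * y.length ≤ s.length) :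
    (mlU s x y).length = x.length * y.length := by
  unfold mlU
  rw [List.length_take, un_length, min_eq_right h]

private theorem cj_b1 {l k : ℕ} (h : k ≤ jj l) : (al l + 1).ascFactorial k ≤ nb l :=
  (cj_mono _ h).trans ((par_min l).trans (par_nb l))

private theorem cj_b2 {l k : ℕ} (h : k ≤ jj l) : rho l * mu l ^ k ≤ nb l := by
  have h1 : rho l * mu l ^ k ≤ rho l * mu l ^ jj l :=
    Nat.mul_le_mul_left _ (Nat.pow_le_pow_right (mu_pos l) h)
  have h2 := par_nb l
  have h3 : rho l * mu l ^ jj l ≤ 16 * rho l * mu l ^ jj l := by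
    rw [mul_assoc]
    exact Nat.le_mul_of_pos_left _ (by norm_num)
  exact h1.trans (h3.trans h2)

private theorem cj_nb (l : ℕ) : 4 * mu l ≤ nb l := by
  have h1 : 128 ≤ mu l := by
    unfold mu
    rw [pow_add]
    have : 1 ≤ 2 ^ (2 * tt l) := Nat.one_le_two_pow
    omega
  unfold nb
  have h2 : mu l ^ 2 ≤ mu l ^ (4 * mu l + 1) := Nat.pow_le_pow_right (by omega) (by omega)
  have h3 : 4 * mu l ≤ mu l ^ 2 := by
    rw [sq]
    exact Nat.mul_le_mul_right _ (by omega)
  exact h3.trans h2

private theorem cj_mu {s l : List Bool} (h : nb l.length ≤ s.length) :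
    (muU s l).length = mu l.length := by
  have h1 := cj_nb l.length
  unfold muU
  rw [pw_eq, un_length]
  have e1 : ([true, true] : List Bool).length = 2 := rfl
  have e2 : (l ++ (l ++ un 13)).length = 2 * tt l.length + 7 := by
    simp only [tt, List.length_append, un_length]
    omega
  have e3 : mu l.length = 2 ^ (2 * tt l.length + 7) := rfl
  rw [e1, e2, ← e3, min_eq_left (by omega)]

private theorem cj_rh {s l : List Bool} (h : nb l.length ≤ s.length) :
    (rhU s l).length = rho l.length := by
  have h1 := cj_b2 (l := l.length) (k := 0) (Nat.zero_le _)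
  rw [pow_zero, mul_one] at h1
  unfold rhU
  rw [pw_eq, un_length]
  have e1 : ([true, true] : List Bool).length = 2 := rfl
  have e2 : (l ++ un 3).length = tt l.length := by
    simp only [tt, List.length_append, un_length]
  have e3 : rho l.length = 2 ^ (tt l.length) := rfl
  rw [e1, e2, ← e3, min_eq_left (by omega)]

/-- the state after `i` steps -/
private def St (l i : ℕ) (p : List Bool × (List Bool × List Bool)) : Prop :=
  p.1.length = 2 * i + 1 ∧ p.2.1.length = (al l + 1).ascFactorial (2 * i + 1) ∧
    p.2.2.length = rho l * mu l ^ (2 * i + 1)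

private theorem cj_step {s a m : List Bool} {l i : ℕ} {p : List Bool × (List Bool × List Bool)}
    (hn : nb l ≤ s.length) (ha : a.length = al l) (hm : m.length = mu l) (hp : St l i p)
    (hi : i < kk l) : St l (i + 1) (jst s a m p) := by
  obtain ⟨h1, h2, h3⟩ := hp
  have hlt := par_lt l i hi
  rw [← h2, ← h3] at hlt
  have hjj : jj l = 2 * kk l + 1 := rfl
  unfold jst
  rw [if_neg (by rw [decide_eq_true_eq]; omega)]
  have e1 : (a ++ (p.1 ++ un 1)).length = al l + 1 + (2 * i + 1) := by
    simp only [List.length_append, un_length]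
    omega
  have e2 : (a ++ (p.1 ++ un 2)).length = al l + 1 + (2 * i + 1 + 1) := by
    simp only [List.length_append, un_length]
    omega
  have f1 : p.2.1.length * (a ++ (p.1 ++ un 1)).length =
      (al l + 1).ascFactorial (2 * i + 1 + 1) := by
    rw [h2, e1, Nat.ascFactorial_succ (k := 2 * i + 1), mul_comm]
  have f2 : (mlU s p.2.1 (a ++ (p.1 ++ un 1))).length =
      (al l + 1).ascFactorial (2 * i + 1 + 1) := by
    rw [cj_ml, f1]
    rw [f1]
    exact (cj_b1 (by omega)).trans hn
  have f3 : (mlU s p.2.1 (a ++ (p.1 ++ un 1))).length * (a ++ (p.1 ++ un 2)).length =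
      (al l + 1).ascFactorial (2 * i + 1 + 1 + 1) := by
    rw [f2, e2, Nat.ascFactorial_succ (k := 2 * i + 1 + 1), mul_comm]
  have g1 : p.2.2.length * m.length = rho l * mu l ^ (2 * i + 1 + 1) := by
    rw [h3, hm, pow_succ (mu l) (2 * i + 1), mul_assoc]
  have g2 : (mlU s p.2.2 m).length = rho l * mu l ^ (2 * i + 1 + 1) := by
    rw [cj_ml, g1]
    rw [g1]
    exact (cj_b2 (by omega)).trans hn
  have g3 : (mlU s p.2.2 m).length * m.length = rho l * mu l ^ (2 * i + 1 + 1 + 1) := by
    rw [g2, hm, pow_succ (mu l) (2 * i + 1 + 1), mul_assoc]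
  have e : 2 * (i + 1) + 1 = 2 * i + 1 + 1 + 1 := by ring
  refine ⟨?_, ?_, ?_⟩
  · show (true :: true :: p.1).length = _
    rw [List.length_cons, List.length_cons, h1, e]
  · show (mlU s (mlU s p.2.1 (a ++ (p.1 ++ un 1))) (a ++ (p.1 ++ un 2))).length = _
    rw [e, cj_ml, f3]
    rw [f3]
    exact (cj_b1 (by omega)).trans hn
  · show (mlU s (mlU s p.2.2 m) m).length = _
    rw [e, cj_ml, g3]
    rw [g3]
    exact (cj_b2 (by omega)).trans hn

private theorem cj_stop {s a m : List Bool} {l : ℕ} {p : List Bool × (List Bool × List Bool)}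
    (hp : St l (kk l) p) : jst s a m p = p := by
  obtain ⟨_, h2, h3⟩ := hp
  have h := par_thr l
  have hjj : jj l = 2 * kk l + 1 := rfl
  rw [hjj, ← h2, ← h3] at h
  unfold jst
  rw [if_pos (by rw [decide_eq_true_eq]; exact h)]

private theorem cj_iter {s a m : List Bool} {l : ℕ} {p : List Bool × (List Bool × List Bool)}
    (hn : nb l ≤ s.length) (ha : a.length = al l) (hm : m.length = mu l) (hp : St l 0 p) (i : ℕ) :
    St l (min i (kk l)) ((jst s a m)^[i] p) := by
  induction i with
  | zero =>
    rw [Nat.zero_min]
    exact hp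
  | succ i ih =>
    rw [Function.iterate_succ_apply']
    rcases Nat.lt_or_ge i (kk l) with h | h
    · rw [min_eq_left (by omega)] at ih ⊢
      exact cj_step hn ha hm ih h
    · rw [min_eq_right (by omega)] at ih ⊢
      rw [cj_stop ih]
      exact ih

theorem jU_length {s l : List Bool} (h : nb l.length ≤ s.length) :
    (jU s l).length = jj l.length := by
  have h0 : St l.length 0 (un 1, (aU l ++ un 1, mlU s (rhU s l) (muU s l))) := by
    refine ⟨?_, ?_, ?_⟩
    · show (un 1).length = _
      rw [un_length]
    · show (aU l ++ un 1).length = _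
      rw [List.length_append, aU_length, un_length, mul_zero, zero_add, Nat.ascFactorial_succ,
        Nat.ascFactorial_zero, mul_one, add_zero]
    · show (mlU s (rhU s l) (muU s l)).length = _
      have e : (rhU s l).length * (muU s l).length = rho l.length * mu l.length ^ 1 := by
        rw [cj_rh h, cj_mu h, pow_one]
      rw [mul_zero, zero_add, cj_ml, e]
      rw [e]
      exact (cj_b2 (jj_pos _)).trans h
  have h1 := cj_iter h (aU_length l) (cj_mu h) h0 s.length
  have h2 : kk l.length ≤ s.length := by
    have a1 := par_be l.length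
    have a2 := cj_nb l.length
    have hjj : jj l.length = 2 * kk l.length + 1 := rfl
    omega
  rw [min_eq_right h2] at h1
  exact h1.1

end Pool.Agent.ROP
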