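import Mathlib
import Pool.Agent.ROP.CJ

set_option autoImplicit false

/-!
# ROP-CIns (job): the bounded versions of instances, marks, translates and acceptance are correct

ADAPT `Pool/Agent/RO/CIns.lean` (`instB_iff`), `Pool/Agent/RO/CMk.lean` (`kapU_length`: `kap s l = s - (2 (l + 3) + 7)`), `Pool/Agent/ROA/CA.lean` (`markB_iff`,
`satB_iff`, `accB_iff`). `accB` is `RO.accB`; for `x ∈ Dom` the bounds are in `HB`; `RO.padB_eq` (`Pool/Agent/RO/CAcc.lean`) is used as it is.
-/

namespace Pool.Agent.ROP

open N68a2faeb N793a5b8e N487b59b3 Pool.Agent.Helper22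
open Pool.Agent.Helper20.Cons (join Po cRun)
open Pool.Agent.RO (Vp accB Mark)

theorem kapU_length (s l : List Bool) : (kapU s l).length = kap s.length l.length := by
  rw [kapU, List.length_drop, kap, tt]
  simp only [List.length_append, un_length]
  omega

theorem instB_iff {s l : List Bool} (h : nb l.length ≤ s.length) (u : List Bool) :
    instB s l u = true ↔ IsInst s.length l.length u := by
  rw [instB, Bool.and_eq_true, Bool.and_eq_true, Bool.and_eq_true, weq_iff, leneq_iff,
    RO.nodupB_iff, List.all_eq_true, IsInst, un_length, jU_length h]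
  constructor
  · rintro ⟨⟨h1, h2⟩, h3, h4⟩
    exact ⟨h1, h2, h3, fun x hx => (leneq_iff _ _).1 (h4 x hx)⟩
  · rintro ⟨h1, h2, h3, h4⟩
    exact ⟨⟨h1, h2⟩, h3, fun x hx => (leneq_iff _ _).2 (h4 x hx)⟩

theorem markB_iff {T : List (List Bool)} {R : Oracle} {k w : List Bool}
    (hT : ∀ a < k.length, wmem T (true :: (w ++ un a)) = R (w ++ un a)) :
    markB T k w = true ↔ Mark R k.length w := by
  rw [markB, List.all_eq_true, Mark]
  constructor
  · intro h a ha
    have h1 := h (un a) (RO.mem_uns.2 ⟨a, ha, rfl⟩)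
    rw [hT a ha] at h1
    simpa using h1
  · intro h x hx
    obtain ⟨a, ha, rfl⟩ := RO.mem_uns.1 hx
    rw [hT a ha, h a ha]
    rfl

theorem satB_iff {r : List Bool} {T : List (List Bool)} {A R : Oracle} {s l u : List Bool} {h : ℕ}
    (h2 : 2 * s.length ≤ h) (hr : 2 ^ (h + 1) ≤ r.length)
    (hT : ∀ w : List Bool, w.length ≤ h → wmem T w = join A R w)
    (hu : IsInst s.length l.length u) :
    satB r T s l u = true ↔ Sat R s.length l.length u := by
  have key : ∀ y : List Bool, y.length = s.length → ∀ x ∈ ld u,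
      (markB T (kapU s l) (RO.wx y x) = true ↔
        Mark R (kap s.length l.length) (RO.wx y x)) := by
    intro y hy x hx
    have h3 : (RO.wx y x).length = s.length := by
      rw [RO.wx, List.length_zipWith, hy, hu.2.2.2 x hx, min_self]
    rw [← kapU_length]
    refine markB_iff fun a ha => hT (true :: (RO.wx y x ++ un a)) ?_
    rw [kapU_length, kap] at ha
    rw [List.length_cons, List.length_append, un_length, h3]
    omega
  rw [satB, List.any_eq_true, Sat]
  constructor
  · rintro ⟨y, -, hy⟩
    rw [Bool.and_eq_true, leneq_iff, List.all_eq_true] at hy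
    exact ⟨y, hy.1, fun x hx => (key y hy.1 x hx).1 (hy.2 x hx)⟩
  · rintro ⟨y, hy1, hy2⟩
    refine ⟨y, Hrd.mem_strs_of_length (le_trans ?_ hr), ?_⟩
    · exact Nat.pow_le_pow_right (by norm_num) (by omega)
    · rw [Bool.and_eq_true, leneq_iff, List.all_eq_true]
      exact ⟨hy1, fun x hx => (key y hy1 x hx).2 (hy2 x hx)⟩

theorem accB_iff {V : Vp} {b : Bool} {r : List Bool} {T : List (List Bool)} {A R : Oracle}
    {s h : ℕ} {l x : List Bool} (hb : HB V s l.length h) (hr : 2 ^ (h + 1) ≤ r.length)
    (hT : ∀ w : List Bool, w.length ≤ h → wmem T w = join A R w) (hx : Dom s l.length x) :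
    accB V b r T l x = true ↔ ROA.acc V b A R l.length x := by
  have h0 : h < 2 ^ (h + 1) := lt_trans (Nat.lt_succ_self h) Nat.lt_two_pow_self
  have h1 : RO.padB l x r = RO.pads l.length x := RO.padB_eq (by
    have := hb.pad x hx
    omega)
  have key : ∀ w : List Bool, w.length ≤ (V b).2.eval (RO.pads l.length x).length →
      (V b).1.run (wmem T) (RO.pads l.length x, w) =
        (V b).1.run (join A R) (RO.pads l.length x, w) := by
    intro w hw
    exact RO.run_congr _ fun q hq => hT q (hb.len x hx b (wmem T) w hw q hq)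
  rw [accB, h1, List.any_eq_true, ROA.acc, Accepts]
  constructor
  · rintro ⟨w, -, hw⟩
    rw [Bool.and_eq_true, decide_eq_true_eq, un_length] at hw
    exact ⟨w, hw.1, by rw [← key w hw.1]; exact hw.2⟩
  · rintro ⟨w, hw1, hw2⟩
    refine ⟨w, Hrd.mem_strs_of_length (le_trans ?_ hr), ?_⟩
    · have := hb.wit x hx b
      exact Nat.pow_le_pow_right (by norm_num) (by omega)
    · rw [Bool.and_eq_true, decide_eq_true_eq, un_length]
      exact ⟨hw1, by rw [key w hw1]; exact hw2⟩

end Pool.Agent.ROP
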