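import Mathlib
import Pool.Agent.ROP.CIns

set_option autoImplicit false

/-!
# ROP-CFact (job): certificates for the non-existence of a translate
-/

namespace Pool.Agent.ROP

open N68a2faeb N793a5b8e N487b59b3 Pool.Agent.Helper22
open Pool.Agent.RO (wx Mark marks wl_length wl_inj wl_cancel nodupB_iff)

theorem exists_crt {R : Oracle} {s l : ℕ} {u : List Bool} (hu : IsInst s l u) (hw : Win R s l)
    (hS : ¬ Sat R s l u) : ∃ E F : List (List Bool), Crt R s l u E F ∧
      F.length = E.length * (ld u).length ∧ ∀ f ∈ F, f.length = s := by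
  classical
  obtain ⟨E0, hE0, hc⟩ := Finset.exists_subset_card_eq hw.1
  have hEm : ∀ e ∈ E0.toList.map (fun w : List.Vector Bool s => w.1),
      e.length = s ∧ Mark R (kap s l) e := by
    intro e he
    obtain ⟨w, hw', rfl⟩ := List.mem_map.1 he
    refine ⟨w.2, ?_⟩
    have h1 := hE0 (Finset.mem_toList.1 hw')
    simp only [marks, Finset.mem_filter] at h1
    exact h1.2
  have hch : ∀ e x : List Bool, ∃ x' : List Bool,
      e ∈ E0.toList.map (fun w : List.Vector Bool s => w.1) → x ∈ ld u →
        x' ∈ ld u ∧ ¬ Mark R (kap s l) (wx (wx e x) x') := by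
    intro e x
    by_cases h : e ∈ E0.toList.map (fun w : List.Vector Bool s => w.1) ∧ x ∈ ld u
    · have hl : (wx e x).length = s := by
        rw [wl_length ((hEm e h.1).1.trans (hu.2.2.2 x h.2).symm), (hEm e h.1).1]
      have h2 : ¬ ∀ x' ∈ ld u, Mark R (kap s l) (wx (wx e x) x') := fun h3 => hS ⟨_, hl, h3⟩
      push Not at h2
      obtain ⟨x', hx', h4⟩ := h2
      exact ⟨x', fun _ _ => ⟨hx', h4⟩⟩
    · exact ⟨[], fun h1 h2 => absurd ⟨h1, h2⟩ h⟩
  choose g hg using hch
  refine ⟨E0.toList.map (fun w : List.Vector Bool s => w.1),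
    (E0.toList.map (fun w : List.Vector Bool s => w.1)).flatMap
      (fun e => (ld u).map (fun x => wx (wx e x) (g e x))), ⟨⟨?_, ?_⟩, hEm, ?_, ?_⟩, ?_, ?_⟩
  · exact (Finset.nodup_toList E0).map Subtype.val_injective
  · rw [List.length_map, Finset.length_toList, hc]
  · intro f hf
    obtain ⟨e, he, hf⟩ := List.mem_flatMap.1 hf
    obtain ⟨x, hx, rfl⟩ := List.mem_map.1 hf
    exact (hg e x he hx).2
  · intro e he x hx
    exact ⟨g e x, (hg e x he hx).1,
      List.mem_flatMap.2 ⟨e, he, List.mem_map.2 ⟨x, hx, rfl⟩⟩⟩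
  · rw [List.length_flatMap]
    simp
  · intro f hf
    obtain ⟨e, he, hf⟩ := List.mem_flatMap.1 hf
    obtain ⟨x, hx, rfl⟩ := List.mem_map.1 hf
    have h1 : (wx e x).length = s := by
      rw [wl_length ((hEm e he).1.trans (hu.2.2.2 x hx).symm), (hEm e he).1]
    rw [wl_length (h1.trans (hu.2.2.2 _ (hg e x he hx).1).symm), h1]

theorem crt_sound {R : Oracle} {s l : ℕ} {u : List Bool} (hu : IsInst s l u) (hw : Win R s l)
    {E F : List (List Bool)} (hc : Crt R s l u E F) : ¬ Sat R s l u := by
  classical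
  rintro ⟨y, hy, hm⟩
  obtain ⟨⟨hnd, hlen⟩, hE, hF, hx⟩ := hc
  set M : Finset (List Bool) := (marks R s (kap s l)).image Subtype.val with hM
  have hMc : M.card < al l + jj l :=
    lt_of_le_of_lt (Finset.card_image_le) hw.2
  have hmem : ∀ w : List Bool, w.length = s → Mark R (kap s l) w → w ∈ M := by
    intro w h1 h2
    have h3 : ∀ v : List.Vector Bool s, Mark R (kap s l) v.1 → v ∈ marks R s (kap s l) := by
      intro v hv
      rw [marks]
      exact (Finset.mem_filter (α := List.Vector Bool s)).2 ⟨Finset.mem_univ v, hv⟩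
    exact Finset.mem_image.2 ⟨⟨w, h1⟩, h3 ⟨w, h1⟩ h2, rfl⟩
  have hXnd : ((ld u).map (wx y)).Nodup := by
    refine List.Nodup.map_on ?_ hu.2.2.1
    intro a ha b hb hab
    exact wl_inj (hy.trans (hu.2.2.2 a ha).symm) (hy.trans (hu.2.2.2 b hb).symm) hab
  have hXM : ((ld u).map (wx y)).toFinset ⊆ M := by
    intro w h1
    rw [List.mem_toFinset] at h1
    obtain ⟨x, hx', rfl⟩ := List.mem_map.1 h1
    exact hmem _ (by rw [wl_length (hy.trans (hu.2.2.2 x hx').symm), hy]) (hm x hx')
  have hEM : E.toFinset ⊆ M := by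
    intro w h1
    rw [List.mem_toFinset] at h1
    exact hmem w (hE w h1).1 (hE w h1).2
  have hXc : ((ld u).map (wx y)).toFinset.card = jj l := by
    rw [List.toFinset_card_of_nodup hXnd, List.length_map, hu.2.1]
  have hEc : E.toFinset.card = E.length := List.toFinset_card_of_nodup hnd
  have hnd2 : ¬ Disjoint E.toFinset ((ld u).map (wx y)).toFinset := by
    intro hd
    have h1 := Finset.card_union_of_disjoint hd
    have h2 := Finset.card_le_card (Finset.union_subset hEM hXM)
    omega
  obtain ⟨e, he1, he2⟩ := Finset.not_disjoint_iff.1 hnd2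
  rw [List.mem_toFinset] at he1 he2
  obtain ⟨x, hxu, rfl⟩ := List.mem_map.1 he2
  obtain ⟨x', hx', hxF⟩ := hx _ he1 x hxu
  rw [wl_cancel (hy.trans (hu.2.2.2 x hxu).symm)] at hxF
  exact hF _ hxF (hm x' hx')

theorem crtB_iff {T : List (List Bool)} {R : Oracle} {s l u : List Bool} {E F : List (List Bool)}
    (hu : IsInst s.length l.length u)
    (hT : ∀ e ∈ E ++ F, ∀ a < s.length, wmem T (true :: (e ++ un a)) = R (e ++ un a)) :
    crtB T s l u E F = true ↔ Crt R s.length l.length u E F := by
  have hkap : kap s.length l.length ≤ s.length := Nat.sub_le _ _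
  have hmk : ∀ e ∈ E ++ F, (markB T (kapU s l) e = true ↔ Mark R (kap s.length l.length) e) := by
    intro e he
    rw [← kapU_length]
    refine markB_iff fun a ha => hT e he a ?_
    rw [kapU_length] at ha
    omega
  have hlen : leneq (un E.length) (aU l) = true ↔ E.length = al l.length := by
    rw [leneq_iff, aU_length, un_length]
  rw [crtB, Bool.and_eq_true, Bool.and_eq_true, Bool.and_eq_true, Bool.and_eq_true, nodupB_iff,
    hlen, List.all_eq_true, List.all_eq_true, List.all_eq_true, Crt]
  have e1 : (∀ x ∈ E, (leneq x s && markB T (kapU s l) x) = true) ↔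
      ∀ e ∈ E, e.length = s.length ∧ Mark R (kap s.length l.length) e := by
    refine forall₂_congr fun e he => ?_
    rw [Bool.and_eq_true, leneq_iff, hmk e (List.mem_append_left _ he)]
  have e2 : (∀ x ∈ F, (!markB T (kapU s l) x) = true) ↔
      ∀ f ∈ F, ¬ Mark R (kap s.length l.length) f := by
    refine forall₂_congr fun f hf => ?_
    rw [← hmk f (List.mem_append_right _ hf)]
    simp
  have e3 : (∀ x ∈ E, ((ld u).all fun y => (ld u).any fun x' => wmem F (wx (wx x y) x')) = true) ↔
      ∀ e ∈ E, ∀ x ∈ ld u, ∃ x' ∈ ld u, wx (wx e x) x' ∈ F := by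
    refine forall₂_congr fun e he => ?_
    rw [List.all_eq_true]
    refine forall₂_congr fun x hx => ?_
    rw [List.any_eq_true]
    simp only [wmem_iff]
  rw [e1, e2, e3]
  tauto

private theorem lc_len (l : List (List Bool)) (s : ℕ) (h : ∀ w ∈ l, w.length = s) :
    (lc l).length = l.length * (2 * s + 1) := by
  induction l with
  | nil => simp [lc]
  | cons a l ih =>
    rw [lc, cd_length, h a List.mem_cons_self, ih fun w hw => h w (List.mem_cons_of_mem _ hw),
      List.length_cons]
    ring

theorem crt_length {R : Oracle} {s l : ℕ} {u : List Bool} (hu : IsInst s l u)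
    {E F : List (List Bool)} (hc : Crt R s l u E F) (h1 : F.length = E.length * (ld u).length)
    (h2 : ∀ f ∈ F, f.length = s) : (cd (lc E) (lc F)).length ≤ 3 * u.length ^ 3 + 1 := by
  have hE := lc_len E s fun e he => (hc.2.1 e he).1
  have hF := lc_len F s h2
  have hU : u.length = (ld u).length * (2 * s + 1) := by
    have h3 := lc_len (ld u) s hu.2.2.2
    rwa [hu.1] at h3
  rw [cd_length, hE, hF, h1, hU]
  have hJ : (ld u).length = jj l := hu.2.1
  have hJ1 : 1 ≤ (ld u).length := by
    rw [hJ]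
    exact jj_pos l
  have hEJ : E.length ≤ (ld u).length ^ 2 := by
    have h3 := hc.1.2
    have h4 := par_al l
    rw [h3, hJ]
    nlinarith
  generalize (ld u).length = J at *
  generalize E.length = m at *
  have hw : 1 ≤ 2 * s + 1 := by omega
  generalize 2 * s + 1 = w at *
  have g1 : m * w ≤ (J * w) ^ 3 := by
    calc m * w ≤ J ^ 2 * w := Nat.mul_le_mul_right _ hEJ
      _ ≤ J ^ 3 * w ^ 3 := by
        apply Nat.mul_le_mul
        · exact Nat.pow_le_pow_right hJ1 (by norm_num)
        · exact Nat.le_self_pow (by norm_num) w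
      _ = (J * w) ^ 3 := (mul_pow _ _ _).symm
  have g2 : m * J * w ≤ (J * w) ^ 3 := by
    calc m * J * w ≤ J ^ 2 * J * w := by
          apply Nat.mul_le_mul_right
          exact Nat.mul_le_mul_right _ hEJ
      _ = J ^ 3 * w := by ring
      _ ≤ J ^ 3 * w ^ 3 := Nat.mul_le_mul_left _ (Nat.le_self_pow (by norm_num) w)
      _ = (J * w) ^ 3 := (mul_pow _ _ _).symm
  omega

end Pool.Agent.ROP
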