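import Mathlib
import Pool.Agent.ROP.Defs
import Pool.Agent.RO.LinkA

set_option autoImplicit false

/-!
# ROP-Cg (job): everything at one level depends only on the words of length at most `h`

ADAPT `Pool/Agent/RO/C2.lean` and `Pool/Agent/ROA/Defs.lean` (`join_congr`, `acc_congr`), with the hypothesis `Dom s l x` (`x = cd u w`, `u` an instance,
`w` a word of length `rl s l`) instead of `IsInst s l u` for acceptance. `Maj`: the sets of random words are the same
(`RO.pr_congr` in `Pool/Agent/RO/Pr.lean`).
-/

namespace Pool.Agent.ROP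

open N68a2faeb N793a5b8e N487b59b3 Pool.Agent.Helper22
open Pool.Agent.Helper20.Cons (join Po cRun)
open Pool.Agent.RO (Vp)

private theorem mark_congr {s κ h : ℕ} (h2 : 2 * s ≤ h) (hκ : κ ≤ s) {R R' : Oracle}
    (hR : ∀ u : List Bool, u.length ≤ h → R u = R' u) {w : List Bool} (hw : w.length ≤ s) :
    RO.Mark R κ w ↔ RO.Mark R' κ w := by
  unfold RO.Mark
  refine forall_congr' fun a => forall_congr' fun ha => ?_
  rw [hR (w ++ un a)]
  rw [List.length_append]
  simp only [un, List.length_replicate]
  omega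

private theorem kap_le (s l : ℕ) : kap s l ≤ s := by
  unfold kap
  omega

private theorem marks_congr {s κ h : ℕ} (h2 : 2 * s ≤ h) (hκ : κ ≤ s) {R R' : Oracle}
    (hR : ∀ u : List Bool, u.length ≤ h → R u = R' u) : RO.marks R s κ = RO.marks R' s κ := by
  classical
  rw [RO.marks, RO.marks]
  refine Finset.filter_congr fun w _ => ?_
  exact mark_congr h2 hκ hR (le_of_eq w.2)

private theorem acc_imp {V : Vp} {s l h : ℕ} (H : HB V s l h) {A R R' : Oracle}
    (hR : ∀ u : List Bool, u.length ≤ h → R u = R' u) {x : List Bool} (hx : Dom s l x)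
    (b : Bool) : ROA.acc V b A R l x → ROA.acc V b A R' l x := by
  rintro ⟨w, hw, hrun⟩
  refine ⟨w, hw, ?_⟩
  rw [← hrun]
  symm
  apply RO.run_congr
  intro q hq
  exact ROA.join_congr hR q (H.len x hx b (join A R) w hw q hq)

theorem sat_congr {V : Vp} {s l h : ℕ} (H : HB V s l h) {R R' : Oracle}
    (hR : ∀ u : List Bool, u.length ≤ h → R u = R' u) {u : List Bool} (hu : IsInst s l u) :
    Sat R s l u ↔ Sat R' s l u := by
  unfold Sat
  refine exists_congr fun y => and_congr_right fun hy => ?_
  refine forall_congr' fun x => forall_congr' fun hx => ?_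
  refine mark_congr H.two (kap_le s l) hR ?_
  unfold RO.wx
  rw [List.length_zipWith, hy]
  exact min_le_left _ _

theorem acc_congr {V : Vp} {s l h : ℕ} (H : HB V s l h) {A R R' : Oracle}
    (hR : ∀ u : List Bool, u.length ≤ h → R u = R' u) {x : List Bool} (hx : Dom s l x)
    (b : Bool) : ROA.acc V b A R l x ↔ ROA.acc V b A R' l x :=
  ⟨acc_imp H hR hx b, acc_imp H (fun v hv => (hR v hv).symm) hx b⟩

private theorem maj_congr {V : Vp} {s l h : ℕ} (H : HB V s l h) {A R R' : Oracle}
    (hR : ∀ u : List Bool, u.length ≤ h → R u = R' u) {u : List Bool} (hu : IsInst s l u)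
    (b : Bool) : Maj V b A R s l u ↔ Maj V b A R' s l u := by
  unfold Maj
  have h1 : (fun w : List.Vector Bool (rl s l) => ROA.acc V b A R l (cd u w.1)) =
      fun w : List.Vector Bool (rl s l) => ROA.acc V b A R' l (cd u w.1) :=
    funext fun w => propext (acc_congr H hR ⟨u, w.1, hu, w.2, rfl⟩ b)
  rw [h1]

private theorem both_congr {V : Vp} {s l h : ℕ} (H : HB V s l h) {A R R' : Oracle}
    (hR : ∀ u : List Bool, u.length ≤ h → R u = R' u) {u : List Bool} (hu : IsInst s l u) :
    Both V A R s l u ↔ Both V A R' s l u := by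
  unfold Both
  refine exists_congr fun w => ?_
  have hx : Dom s l (cd u w.1) := ⟨u, w.1, hu, w.2, rfl⟩
  rw [acc_congr H hR hx true, acc_congr H hR hx false]

theorem fail_congr {V : Vp} {s l h : ℕ} (H : HB V s l h) {A R R' : Oracle}
    (hR : ∀ u : List Bool, u.length ≤ h → R u = R' u) : Fail V A R s l ↔ Fail V A R' s l := by
  unfold Fail
  refine exists_congr fun u => and_congr_right fun hu => ?_
  rw [maj_congr H hR hu true, maj_congr H hR hu false, sat_congr H hR hu, both_congr H hR hu]

theorem inv_congr {V : Vp} {s l h : ℕ} (H : HB V s l h) {A R R' : Oracle}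
    (hR : ∀ u : List Bool, u.length ≤ h → R u = R' u) : Inv V A R s l ↔ Inv V A R' s l := by
  unfold Inv
  refine exists_congr fun u => and_congr_right fun hu => ?_
  rw [both_congr H hR hu]

theorem win_congr {V : Vp} {s l h : ℕ} (H : HB V s l h) {R R' : Oracle}
    (hR : ∀ u : List Bool, u.length ≤ h → R u = R' u) : Win R s l ↔ Win R' s l := by
  unfold Win
  rw [marks_congr H.two (kap_le s l) hR]

end Pool.Agent.ROP
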