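import Mathlib
import Pool.Agent.RO.Defs

set_option autoImplicit false

/-!
# ROP-BinA (job): the recursion of the binomial weights

`bw N q k = C(N,k) q^k (1-q)^(N-k)` with `q = m / N`, `0 < m < N`.
PLAN. `bw_rec`: `(N.choose (k+1)) (k+1) = (N.choose k) (N-k)` (`Nat.choose_succ_right_eq`), `q^(k+1) = q^k q`,
`(1-q)^(N-k) = (1-q)^(N-k-1) (1-q)`, `q = m/N`, `1 - q = (N-m)/N`; see the private lemma `bw_rec` in `Pool/Agent/RO/BinomB.lean`, which is
almost this. `bw_up`: for `m ≤ k` (also `k ≥ N`: then `bw N q (k+1) = 0`): `(N - k) ≤ (N - m)`. `bw_lo`: for `k < m`: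
`(N-k) ≥ (N-m)`.
-/

namespace Pool.Agent.ROP

open Pool.Agent.RO (bw)

theorem bwr {N m k : ℕ} (hN : m < N) (hk : k < N) :
    ((k : ℝ) + 1) * ((N : ℝ) - m) * bw N ((m : ℝ) / N) (k + 1) =
      ((N : ℝ) - k) * m * bw N ((m : ℝ) / N) k := by
  have hN0 : (N : ℝ) ≠ 0 := by
    have : 0 < N := by omega
    exact_mod_cast this.ne'
  unfold bw
  have h1 : (N.choose (k + 1) : ℝ) * ((k : ℝ) + 1) = (N.choose k : ℝ) * ((N : ℝ) - k) := by
    have h := Nat.choose_succ_right_eq N k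
    have h' : ((N.choose (k + 1) * (k + 1) : ℕ) : ℝ) = ((N.choose k * (N - k) : ℕ) : ℝ) := by
      exact_mod_cast h
    push_cast [Nat.cast_sub hk.le] at h'
    exact h'
  have h2 : N - k = (N - (k + 1)) + 1 := by omega
  rw [h2, pow_succ, pow_succ]
  have h3 : ((m : ℝ) / N) * N = m := by field_simp
  have h4 : (N : ℝ) - m = N * (1 - m / N) := by field_simp
  rw [h4]
  calc ((k : ℝ) + 1) * (N * (1 - m / N)) *
        ((N.choose (k + 1) : ℝ) * ((m / N) ^ k * (m / N)) * (1 - m / N) ^ (N - (k + 1)))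
      = ((N.choose (k + 1) : ℝ) * ((k : ℝ) + 1)) * ((m : ℝ) / N) ^ k * ((m / N) * N) *
        ((1 - m / N) ^ (N - (k + 1)) * (1 - m / N)) := by ring
    _ = _ := by rw [h1, h3]; ring

theorem bwp {N m : ℕ} (hN : m < N) (k : ℕ) : 0 ≤ bw N ((m : ℝ) / N) k := by
  have hN0 : (0 : ℝ) < N := by
    have : 0 < N := by omega
    exact_mod_cast this
  have h1 : (0 : ℝ) ≤ (m : ℝ) / N := by positivity
  have h2 : (m : ℝ) / N ≤ 1 := by
    rw [div_le_one hN0]; exact_mod_cast hN.le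
  have h3 : (0 : ℝ) ≤ 1 - (m : ℝ) / N := by linarith
  unfold bw
  positivity

theorem bw_big {N : ℕ} (q : ℝ) {k : ℕ} (hk : N < k) : bw N q k = 0 := by
  unfold bw
  rw [Nat.choose_eq_zero_of_lt hk]; simp

/-- above the mean -/
theorem bw_hi {N m k : ℕ} (hN : m < N) (hk : m ≤ k) :
    ((k : ℝ) + 1) * bw N ((m : ℝ) / N) (k + 1) ≤ m * bw N ((m : ℝ) / N) k := by
  have hb := bwp hN k
  rcases lt_or_ge k N with hkN | hkN
  · have hr := bwr hN hkN
    have hD : (0 : ℝ) < (N : ℝ) - m := by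
      have : (m : ℝ) < N := by exact_mod_cast hN
      linarith
    have hle : (N : ℝ) - k ≤ (N : ℝ) - m := by
      have : (m : ℝ) ≤ k := by exact_mod_cast hk
      linarith
    have hmb : 0 ≤ (m : ℝ) * bw N ((m : ℝ) / N) k := by positivity
    have h : ((N : ℝ) - m) * (((k : ℝ) + 1) * bw N ((m : ℝ) / N) (k + 1)) ≤
        ((N : ℝ) - m) * (m * bw N ((m : ℝ) / N) k) := by
      calc ((N : ℝ) - m) * (((k : ℝ) + 1) * bw N ((m : ℝ) / N) (k + 1))
          = ((N : ℝ) - k) * (m * bw N ((m : ℝ) / N) k) := by rw [← mul_assoc ((N : ℝ) - k), ← hr]; ring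
        _ ≤ _ := mul_le_mul_of_nonneg_right hle hmb
    exact le_of_mul_le_mul_left h hD
  · rw [bw_big _ (by omega : N < k + 1), mul_zero]
    positivity

/-- below the mean -/
theorem bw_lo {N m k : ℕ} (hN : m < N) (hk : k < m) :
    (m : ℝ) * bw N ((m : ℝ) / N) k ≤ ((k : ℝ) + 1) * bw N ((m : ℝ) / N) (k + 1) := by
  have hb := bwp hN k
  have hr := bwr hN (hk.trans hN)
  have hD : (0 : ℝ) < (N : ℝ) - m := by
    have : (m : ℝ) < N := by exact_mod_cast hN
    linarith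
  have hle : (N : ℝ) - m ≤ (N : ℝ) - k := by
    have : (k : ℝ) < m := by exact_mod_cast hk
    linarith
  have hmb : 0 ≤ (m : ℝ) * bw N ((m : ℝ) / N) k := by positivity
  have h : ((N : ℝ) - m) * (m * bw N ((m : ℝ) / N) k) ≤
      ((N : ℝ) - m) * (((k : ℝ) + 1) * bw N ((m : ℝ) / N) (k + 1)) := by
    calc ((N : ℝ) - m) * (m * bw N ((m : ℝ) / N) k)
        ≤ ((N : ℝ) - k) * (m * bw N ((m : ℝ) / N) k) := mul_le_mul_of_nonneg_right hle hmb
      _ = ((N : ℝ) - m) * (((k : ℝ) + 1) * bw N ((m : ℝ) / N) (k + 1)) := by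
        rw [← mul_assoc ((N : ℝ) - k), ← hr]; ring
  exact le_of_mul_le_mul_left h hD

end Pool.Agent.ROP
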