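import Mathlib
import Pool.Agent.ROP.BinA

set_option autoImplicit false

/-!
# ROP-BinB (job): comparison of two binomial weights with the Poisson weights

`q = m / N`, `π_k = bw N q k`, `64 m² ≤ N`, `0 < m`, `α + j ≤ 4 m`.
PLAN. `bwr`: `(k+1) (N-m) π_(k+1) = (N-k) m π_k`, and `(α+1).ascFactorial (i+1) = (α+1+i) (α+1).ascFactorial i`
(`Nat.ascFactorial_succ`), so with `P_i = π_(α+i) * (α+1).ascFactorial i`: `P_(i+1) (N-m) = (N-α-i) m P_i` for `α + i < N`.
* `bw_asc_le`: let `c = N / (N-m)`. For all `i`: `P_i ≤ c^(min i m) m^i π_α`: induction: the step has the factor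
  `(N-k)/(N-m) ≤ c`, and `≤ 1` if `k = α + i ≥ m` (in particular if `i ≥ m`). Then `c^m ≤ 2`: by Bernoulli
  (`one_add_mul_le_pow`) `(1 - m/N)^m ≥ 1 - m²/N ≥ 1/2` and `c = 1/(1 - m/N)`. (Instead of `min` you may prove first the claim for
  `i ≤ m` by induction and then for `i ≥ m` by `Nat.le_induction`.)
* `bw_asc_ge`: let `δ = 4m/(N-m)` (`≤ 1`). For `i ≤ j`: `P_i ≥ (1-δ)^i m^i π_α`: the step has the factor
  `(N-k)/(N-m) ≥ 1 - δ`, since `k ≤ 4m`. And `(1-δ)^j ≥ 1 - jδ ≥ 1 - 16m²/(N-m) ≥ 1/2`.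
-/

namespace Pool.Agent.ROP

open Pool.Agent.RO (bw)

private theorem bb_pos {N m : ℕ} (hm : 0 < m) (hN : 64 * m ^ 2 ≤ N) :
    4 * m < N ∧ 64 * (m : ℝ) ^ 2 ≤ (N : ℝ) ∧ (1 : ℝ) ≤ m ∧ 64 * (m : ℝ) ≤ N := by
  have h1 : m ≤ m ^ 2 := by nlinarith
  have h2 : 64 * (m : ℝ) ^ 2 ≤ (N : ℝ) := by exact_mod_cast hN
  have h3 : (1 : ℝ) ≤ m := by exact_mod_cast hm
  exact ⟨by omega, h2, h3, by nlinarith⟩

private theorem bb_step {N m α i : ℕ} (hN : m < N) (hi : α + i < N) :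
    (bw N ((m : ℝ) / N) (α + (i + 1)) * ((α + 1).ascFactorial (i + 1) : ℝ)) * ((N : ℝ) - m) =
      ((N : ℝ) - ((α : ℝ) + i)) * m *
        (bw N ((m : ℝ) / N) (α + i) * ((α + 1).ascFactorial i : ℝ)) := by
  have h := bwr (N := N) (m := m) (k := α + i) hN hi
  have h2 : ((α + 1).ascFactorial (i + 1) : ℝ) =
      ((α : ℝ) + i + 1) * ((α + 1).ascFactorial i : ℝ) := by
    rw [Nat.ascFactorial_succ]
    push_cast
    ring
  rw [h2]
  rw [show α + (i + 1) = α + i + 1 from rfl]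
  push_cast at h
  linear_combination ((α + 1).ascFactorial i : ℝ) * h

theorem bw_asc_le {N m α j : ℕ} (hm : 0 < m) (hN : 64 * m ^ 2 ≤ N) (hj : α + j ≤ 4 * m) :
    bw N ((m : ℝ) / N) (α + j) * ((α + 1).ascFactorial j : ℝ) ≤
      2 * (m : ℝ) ^ j * bw N ((m : ℝ) / N) α := by
  obtain ⟨h4, hNR, hm1, hNm⟩ := bb_pos hm hN
  have hmN : m < N := by omega
  have hNmpos : (0 : ℝ) < (N : ℝ) - m := by linarith
  have hNpos : (0 : ℝ) < (N : ℝ) := by linarith
  have hpα := bwp hmN α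
  obtain ⟨c, hc⟩ : ∃ c : ℝ, c = (N : ℝ) / ((N : ℝ) - m) := ⟨_, rfl⟩
  have hc1 : 1 ≤ c := by
    rw [hc, le_div_iff₀ hNmpos]
    linarith
  have hcN : c * ((N : ℝ) - m) = N := by
    rw [hc]
    field_simp
  have claim : ∀ i : ℕ, α + i ≤ 4 * m →
      bw N ((m : ℝ) / N) (α + i) * ((α + 1).ascFactorial i : ℝ) ≤
        c ^ (min i m) * (m : ℝ) ^ i * bw N ((m : ℝ) / N) α := by
    intro i
    induction i with
    | zero => intro _; simp
    | succ i ih =>
      intro hi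
      have ih' := ih (by omega)
      have hs := bb_step (N := N) (m := m) (α := α) (i := i) hmN (by omega)
      have hP : 0 ≤ bw N ((m : ℝ) / N) (α + i) * ((α + 1).ascFactorial i : ℝ) :=
        mul_nonneg (bwp hmN _) (Nat.cast_nonneg _)
      obtain ⟨P, hPd⟩ : ∃ P : ℝ, P = bw N ((m : ℝ) / N) (α + i) * ((α + 1).ascFactorial i : ℝ) :=
        ⟨_, rfl⟩
      obtain ⟨P1, hP1d⟩ : ∃ P : ℝ, P = bw N ((m : ℝ) / N) (α + (i + 1)) *
        ((α + 1).ascFactorial (i + 1) : ℝ) := ⟨_, rfl⟩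
      rw [← hPd] at ih' hP hs
      rw [← hP1d] at hs ⊢
      refine le_of_mul_le_mul_right ?_ hNmpos
      rw [hs]
      have hiR : (0 : ℝ) ≤ (α : ℝ) + i := by positivity
      have hmR : (0 : ℝ) ≤ (m : ℝ) := by linarith
      have hkN : (0 : ℝ) ≤ (N : ℝ) - ((α : ℝ) + i) := by
        have : ((α + i : ℕ) : ℝ) ≤ N := by exact_mod_cast (by omega : α + i ≤ N)
        push_cast at this
        linarith
      rcases lt_or_ge i m with h | h
      · rw [min_eq_left (by omega : i + 1 ≤ m)]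
        rw [min_eq_left h.le] at ih'
        calc ((N : ℝ) - ((α : ℝ) + i)) * m * P ≤ (N : ℝ) * m * P := by
              refine mul_le_mul_of_nonneg_right ?_ hP
              exact mul_le_mul_of_nonneg_right (by linarith) hmR
          _ ≤ (N : ℝ) * m * (c ^ i * (m : ℝ) ^ i * bw N ((m : ℝ) / N) α) :=
              mul_le_mul_of_nonneg_left ih' (by positivity)
          _ = (c * ((N : ℝ) - m)) * m * (c ^ i * (m : ℝ) ^ i * bw N ((m : ℝ) / N) α) := by
              rw [hcN]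
          _ = c ^ (i + 1) * (m : ℝ) ^ (i + 1) * bw N ((m : ℝ) / N) α * ((N : ℝ) - m) := by
              ring
      · rw [min_eq_right (by omega : m ≤ i + 1)]
        rw [min_eq_right h] at ih'
        have hik : (m : ℝ) ≤ (α : ℝ) + i := by
          have : (m : ℝ) ≤ (i : ℝ) := by exact_mod_cast h
          have h0 : (0 : ℝ) ≤ (α : ℝ) := Nat.cast_nonneg _
          linarith
        calc ((N : ℝ) - ((α : ℝ) + i)) * m * P ≤ ((N : ℝ) - m) * m * P := by
              refine mul_le_mul_of_nonneg_right ?_ hP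
              exact mul_le_mul_of_nonneg_right (by linarith) hmR
          _ ≤ ((N : ℝ) - m) * m * (c ^ m * (m : ℝ) ^ i * bw N ((m : ℝ) / N) α) :=
              mul_le_mul_of_nonneg_left ih' (mul_nonneg hNmpos.le hmR)
          _ = c ^ m * (m : ℝ) ^ (i + 1) * bw N ((m : ℝ) / N) α * ((N : ℝ) - m) := by
              ring
  have hc2 : c ^ m ≤ 2 := by
    have hB := one_add_mul_le_pow (a := -((m : ℝ) / N)) (by
      have : (m : ℝ) / N ≤ 1 := by
        rw [div_le_one hNpos]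
        linarith
      linarith) m
    have hmm : (m : ℝ) * ((m : ℝ) / N) ≤ 1 / 2 := by
      rw [← mul_div_assoc, div_le_iff₀ hNpos]
      nlinarith
    have h1 : (1 / 2 : ℝ) ≤ (1 + -((m : ℝ) / N)) ^ m := by
      refine le_trans ?_ hB
      linarith
    have h2 : c * (1 + -((m : ℝ) / N)) = 1 := by
      rw [hc]
      field_simp
      ring
    have h3 : c ^ m * (1 + -((m : ℝ) / N)) ^ m = 1 := by
      rw [← mul_pow, h2, one_pow]
    have h4 : 0 ≤ c ^ m := by positivity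
    nlinarith [mul_le_mul_of_nonneg_left h1 h4]
  have hcj : c ^ (min j m) ≤ 2 :=
    (pow_le_pow_right₀ hc1 (min_le_right _ _)).trans hc2
  refine (claim j hj).trans ?_
  refine mul_le_mul_of_nonneg_right ?_ hpα
  exact mul_le_mul_of_nonneg_right hcj (by positivity)

theorem bw_asc_ge {N m α j : ℕ} (hm : 0 < m) (hN : 64 * m ^ 2 ≤ N) (hj : α + j ≤ 4 * m) :
    (1 / 2 : ℝ) * (m : ℝ) ^ j * bw N ((m : ℝ) / N) α ≤
      bw N ((m : ℝ) / N) (α + j) * ((α + 1).ascFactorial j : ℝ) := by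
  obtain ⟨h4, hNR, hm1, hNm⟩ := bb_pos hm hN
  have hmN : m < N := by omega
  have hNmpos : (0 : ℝ) < (N : ℝ) - m := by linarith
  have hpα := bwp hmN α
  obtain ⟨r, hr⟩ : ∃ r : ℝ, r = 1 + -(3 * (m : ℝ) / ((N : ℝ) - m)) := ⟨_, rfl⟩
  have hdle : 3 * (m : ℝ) / ((N : ℝ) - m) ≤ 1 := by
    rw [div_le_one hNmpos]
    linarith
  have hr0 : 0 ≤ r := by
    rw [hr]
    linarith
  have hrN : r * ((N : ℝ) - m) = N - 4 * m := by
    rw [hr]
    field_simp
    ring
  have claim : ∀ i : ℕ, α + i ≤ 4 * m →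
      r ^ i * (m : ℝ) ^ i * bw N ((m : ℝ) / N) α ≤
      bw N ((m : ℝ) / N) (α + i) * ((α + 1).ascFactorial i : ℝ) := by
    intro i
    induction i with
    | zero => intro _; simp
    | succ i ih =>
      intro hi
      have ih' := ih (by omega)
      have hs := bb_step (N := N) (m := m) (α := α) (i := i) hmN (by omega)
      have hP : 0 ≤ bw N ((m : ℝ) / N) (α + i) * ((α + 1).ascFactorial i : ℝ) :=
        mul_nonneg (bwp hmN _) (Nat.cast_nonneg _)
      obtain ⟨P, hPd⟩ : ∃ P : ℝ, P = bw N ((m : ℝ) / N) (α + i) * ((α + 1).ascFactorial i : ℝ) :=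
        ⟨_, rfl⟩
      obtain ⟨P1, hP1d⟩ : ∃ P : ℝ, P = bw N ((m : ℝ) / N) (α + (i + 1)) *
        ((α + 1).ascFactorial (i + 1) : ℝ) := ⟨_, rfl⟩
      rw [← hPd] at ih' hP hs
      rw [← hP1d] at hs ⊢
      refine le_of_mul_le_mul_right ?_ hNmpos
      rw [hs]
      have hmR : (0 : ℝ) ≤ (m : ℝ) := by linarith
      have hkN : (α : ℝ) + i ≤ 4 * m := by
        have : ((α + i : ℕ) : ℝ) ≤ ((4 * m : ℕ) : ℝ) := by
          exact_mod_cast (by omega : α + i ≤ 4 * m)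
        push_cast at this
        linarith
      calc r ^ (i + 1) * (m : ℝ) ^ (i + 1) * bw N ((m : ℝ) / N) α * ((N : ℝ) - m)
          = (r * ((N : ℝ) - m)) * m * (r ^ i * (m : ℝ) ^ i * bw N ((m : ℝ) / N) α) := by ring
        _ ≤ (r * ((N : ℝ) - m)) * m * P :=
            mul_le_mul_of_nonneg_left ih' (mul_nonneg (mul_nonneg hr0 hNmpos.le) hmR)
        _ = ((N : ℝ) - 4 * m) * m * P := by rw [hrN]
        _ ≤ ((N : ℝ) - ((α : ℝ) + i)) * m * P := by
            refine mul_le_mul_of_nonneg_right ?_ hP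
            exact mul_le_mul_of_nonneg_right (by linarith) hmR
  have hrj : (1 / 2 : ℝ) ≤ r ^ j := by
    have hB := one_add_mul_le_pow (a := -(3 * (m : ℝ) / ((N : ℝ) - m))) (by linarith) j
    rw [← hr] at hB
    have hjR : (j : ℝ) ≤ 4 * m := by
      have : ((j : ℕ) : ℝ) ≤ ((4 * m : ℕ) : ℝ) := by
        exact_mod_cast (by omega : j ≤ 4 * m)
      push_cast at this
      linarith
    have hmm : (j : ℝ) * (3 * (m : ℝ) / ((N : ℝ) - m)) ≤ 1 / 2 := by
      rw [← mul_div_assoc, div_le_iff₀ hNmpos]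
      nlinarith
    linarith
  refine le_trans ?_ (claim j hj)
  refine mul_le_mul_of_nonneg_right ?_ hpα
  exact mul_le_mul_of_nonneg_right hrj (by positivity)

end Pool.Agent.ROP
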