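import Mathlib
import Pool.Agent.ROP.BinA

set_option autoImplicit false

/-!
# ROP-BinC (job): the tails of the binomial weights

`q = m / N`, `π_k = bw N q k`, `0 < m < N`.
PLAN. * `bw_geo`: for `k ≥ j` with `5 m ≤ 4 j`: `π_(k+1) ≤ (m/(k+1)) π_k ≤ (4/5) π_k` (`bw_hi`; `m ≤ k` as `5m ≤ 4j ≤ 4k`); induction
  on `n`: `π_(j+n) ≤ (4/5)^n π_j`.
* `bw_tail_hi`: `∑_{k ≥ b} π_k ≤ π_b ∑ (4/5)^n ≤ 5 π_b` (`geom_sum`-bound `∑_{n<M} (4/5)^n ≤ 5`); the index set is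
  `(range (N+1)).filter (b ≤ ·)`, e.g. by the injection `k ↦ k - b` or as `Ico b (N+1)` and `Finset.sum_Ico_eq_sum_range`.
* `bw_tail_lo`: for `k + 1 ≤ α - 1`..: `π_k ≤ ((k+1)/m) π_(k+1) ≤ (1/2) π_(k+1)` for `k + 1 < α`, `2 α ≤ m` (`bw_lo`), so
  `π_(α-1-n) ≤ (1/2)^n π_(α-1)` and `∑_{k<α} π_k ≤ 2 π_(α-1)` (induction on `α` with the claim `∑_{k ∈ range α} π_k ≤ 2 π_(α-1)` for
  `α ≥ 1` is easiest: `∑_{range (α+1)} ≤ 2 π_(α-1) + π_α ≤ 2 (1/2) π_α + π_α`).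
-/

namespace Pool.Agent.ROP

open Finset
open Pool.Agent.RO (bw)

theorem bw_geo {N m j : ℕ} (hm : 0 < m) (hN : m < N) (hj : 5 * m ≤ 4 * j) (n : ℕ) :
    bw N ((m : ℝ) / N) (j + n) ≤ (4 / 5 : ℝ) ^ n * bw N ((m : ℝ) / N) j := by
  induction n with
  | zero => simp
  | succ n ih =>
    have h1 := bw_hi (k := j + n) hN (by omega)
    have h2 := bwp hN (j + n)
    have h3 : 5 * (m : ℝ) ≤ 4 * (((j + n : ℕ) : ℝ) + 1) := by
      have : 5 * m ≤ 4 * ((j + n) + 1) := by omega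
      exact_mod_cast this
    have hk : (0 : ℝ) < ((j + n : ℕ) : ℝ) + 1 := by positivity
    have h4 : bw N ((m : ℝ) / N) (j + n + 1) ≤ 4 / 5 * bw N ((m : ℝ) / N) (j + n) := by
      have h5 : (((j + n : ℕ) : ℝ) + 1) * bw N ((m : ℝ) / N) (j + n + 1) ≤
          (((j + n : ℕ) : ℝ) + 1) * (4 / 5 * bw N ((m : ℝ) / N) (j + n)) := by
        have h6 : (m : ℝ) * bw N ((m : ℝ) / N) (j + n) ≤
            (4 / 5 * (((j + n : ℕ) : ℝ) + 1)) * bw N ((m : ℝ) / N) (j + n) :=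
          mul_le_mul_of_nonneg_right (by linarith) h2
        linarith
      exact le_of_mul_le_mul_left h5 hk
    calc bw N ((m : ℝ) / N) (j + (n + 1)) = bw N ((m : ℝ) / N) (j + n + 1) := by rw [add_assoc]
      _ ≤ 4 / 5 * bw N ((m : ℝ) / N) (j + n) := h4
      _ ≤ 4 / 5 * ((4 / 5 : ℝ) ^ n * bw N ((m : ℝ) / N) j) := by
        exact mul_le_mul_of_nonneg_left ih (by norm_num)
      _ = (4 / 5 : ℝ) ^ (n + 1) * bw N ((m : ℝ) / N) j := by ring

theorem bw_tail_hi {N m b : ℕ} (hm : 0 < m) (hN : m < N) (hb : 5 * m ≤ 4 * b) :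
    ∑ k ∈ (range (N + 1)).filter (fun k => b ≤ k), bw N ((m : ℝ) / N) k ≤
      5 * bw N ((m : ℝ) / N) b := by
  have h1 : (range (N + 1)).filter (fun k => b ≤ k) = Ico b (N + 1) := by
    ext k
    simp only [mem_filter, mem_range, mem_Ico]
    tauto
  rw [h1, Finset.sum_Ico_eq_sum_range]
  have h2 : ∑ k ∈ range (N + 1 - b), bw N ((m : ℝ) / N) (b + k) ≤
      ∑ k ∈ range (N + 1 - b), (4 / 5 : ℝ) ^ k * bw N ((m : ℝ) / N) b :=
    Finset.sum_le_sum fun k _ => bw_geo hm hN hb k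
  rw [← Finset.sum_mul] at h2
  have h3 : ∑ k ∈ range (N + 1 - b), (4 / 5 : ℝ) ^ k ≤ 5 := by
    rw [geom_sum_eq (by norm_num)]
    have : (0 : ℝ) ≤ (4 / 5) ^ (N + 1 - b) := by positivity
    rw [div_le_iff_of_neg (by norm_num)]
    linarith
  exact h2.trans (mul_le_mul_of_nonneg_right h3 (bwp hN b))

theorem bw_tail_lo {N m α : ℕ} (hN : m < N) (hα : 0 < α) (hαm : 2 * α ≤ m) :
    ∑ k ∈ range α, bw N ((m : ℝ) / N) k ≤ 2 * bw N ((m : ℝ) / N) (α - 1) := by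
  induction α with
  | zero => omega
  | succ a ih =>
    rw [Finset.sum_range_succ, Nat.add_sub_cancel]
    have h0 := bwp hN a
    rcases Nat.eq_zero_or_pos a with h | h
    · subst h
      simp only [Finset.range_zero, Finset.sum_empty]
      linarith
    · have h1 := ih h (by omega)
      have h2 := bw_lo (k := a - 1) hN (by omega)
      have h3 : a - 1 + 1 = a := by omega
      rw [h3] at h2
      have h4 : (((a - 1 : ℕ) : ℝ) + 1) = a := by
        exact_mod_cast h3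
      rw [h4] at h2
      have h5 : 2 * (a : ℝ) ≤ m := by
        have : 2 * a ≤ m := by omega
        exact_mod_cast this
      have hm : (0 : ℝ) < m := by
        have : 0 < m := by omega
        exact_mod_cast this
      have h6 : (m : ℝ) * (2 * bw N ((m : ℝ) / N) (a - 1)) ≤ m * bw N ((m : ℝ) / N) a := by
        have := mul_le_mul_of_nonneg_right h5 h0
        nlinarith
      have h7 := le_of_mul_le_mul_left h6 hm
      linarith

end Pool.Agent.ROP
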