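import Mathlib
import Pool.Agent.ROP.Par
import Pool.Agent.ROP.BinB
import Pool.Agent.ROP.BinC

set_option autoImplicit false

/-!
# ROP-Bin: the risks
-/

namespace Pool.Agent.ROP

open Finset
open Pool.Agent.RO (bw)

private theorem mN {m N : ℕ} (hm : 0 < m) (hN : 64 * m ^ 2 ≤ N) : m < N := by nlinarith

/-- the probability of `α + j` marks is smaller than that of `α` marks -/
theorem risk_al (l : ℕ) {N : ℕ} (hN : 64 * mu l ^ 2 ≤ N) :
    (rho l : ℝ) * bw N ((mu l : ℝ) / N) (al l + jj l) ≤ 2 * bw N ((mu l : ℝ) / N) (al l) := by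
  have hm := mu_pos l
  have h1 := bw_asc_le (α := al l) (j := jj l) hm hN (par_be l)
  have h2 : ((rho l : ℝ) * (mu l : ℝ) ^ jj l) ≤ ((al l + 1).ascFactorial (jj l) : ℝ) := by
    exact_mod_cast par_thr l
  have h3 : (0 : ℝ) < (mu l : ℝ) ^ jj l := by
    have : (0 : ℝ) < mu l := by exact_mod_cast hm
    positivity
  have h4 := bwp (mN hm hN) (al l + jj l)
  have h5 : (mu l : ℝ) ^ jj l * ((rho l : ℝ) * bw N ((mu l : ℝ) / N) (al l + jj l)) ≤
      (mu l : ℝ) ^ jj l * (2 * bw N ((mu l : ℝ) / N) (al l)) := by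
    have h6 := mul_le_mul_of_nonneg_left h2 h4
    linarith
  exact le_of_mul_le_mul_left h5 h3

/-- the probability of `α + j` marks is smaller than that of `j` marks -/
theorem risk_jj (l : ℕ) {N : ℕ} (hN : 64 * mu l ^ 2 ≤ N) :
    (rho l : ℝ) * bw N ((mu l : ℝ) / N) (al l + jj l) ≤ bw N ((mu l : ℝ) / N) (jj l) := by
  have hm := mu_pos l
  have h1 := bw_geo hm (mN hm hN) (par_jj l) (al l)
  have h2 := bwp (mN hm hN) (jj l)
  rw [add_comm]
  have h3 : (rho l : ℝ) * (4 / 5 : ℝ) ^ al l ≤ 1 := by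
    have h4 := mul_le_mul_of_nonneg_right (par_rho l) (show (0 : ℝ) ≤ (4 / 5 : ℝ) ^ al l by positivity)
    rw [← mul_pow] at h4
    norm_num at h4
    linarith
  calc (rho l : ℝ) * bw N ((mu l : ℝ) / N) (jj l + al l)
      ≤ (rho l : ℝ) * ((4 / 5 : ℝ) ^ al l * bw N ((mu l : ℝ) / N) (jj l)) :=
        mul_le_mul_of_nonneg_left h1 (Nat.cast_nonneg _)
    _ = ((rho l : ℝ) * (4 / 5 : ℝ) ^ al l) * bw N ((mu l : ℝ) / N) (jj l) := by ring
    _ ≤ 1 * bw N ((mu l : ℝ) / N) (jj l) := mul_le_mul_of_nonneg_right h3 h2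
    _ = _ := one_mul _

open Classical in
/-- the own risk -/
theorem risk_out (l : ℕ) {N : ℕ} (hN : 64 * mu l ^ 2 ≤ N) :
    ∑ k ∈ (range (N + 1)).filter (fun k => k < al l ∨ al l + jj l ≤ k),
      bw N ((mu l : ℝ) / N) k ≤ 7 * bw N ((mu l : ℝ) / N) (al l + jj l) := by
  have hm := mu_pos l
  have hmN := mN hm hN
  have hα := al_pos l
  have hmu := par_mu l
  have hρ8 := par_rho8 l
  have h2α : 2 * al l ≤ mu l := by nlinarith
  have h1 := bw_tail_hi hm hmN (b := al l + jj l) (by have := par_jj l; omega)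
  have h2 := bw_tail_lo hmN hα h2α
  have h3 := bw_asc_ge (α := al l) (j := jj l) hm hN (par_be l)
  have h4 : (((al l + 1).ascFactorial (jj l) : ℕ) : ℝ) ≤ 16 * rho l * (mu l : ℝ) ^ jj l := by
    exact_mod_cast par_min l
  have h5 := bwp hmN (al l + jj l)
  have h6 := bwp hmN (al l)
  have hmr : (0 : ℝ) < mu l := by exact_mod_cast hm
  have h7 : (0 : ℝ) < (mu l : ℝ) ^ jj l := by positivity
  have hρr : (0 : ℝ) < rho l := by exact_mod_cast rho_pos l
  have hαr : (0 : ℝ) < al l := by exact_mod_cast hα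
  -- π_α ≤ 32 ρ π_β
  have h8 : bw N ((mu l : ℝ) / N) (al l) ≤ 32 * rho l * bw N ((mu l : ℝ) / N) (al l + jj l) := by
    have h9 := mul_le_mul_of_nonneg_left h4 h5
    have h10 : (mu l : ℝ) ^ jj l * bw N ((mu l : ℝ) / N) (al l) ≤
        (mu l : ℝ) ^ jj l * (32 * rho l * bw N ((mu l : ℝ) / N) (al l + jj l)) := by linarith
    exact le_of_mul_le_mul_left h10 h7
  -- π_(α-1) ≤ π_β
  have h9 : bw N ((mu l : ℝ) / N) (al l - 1) ≤ bw N ((mu l : ℝ) / N) (al l + jj l) := by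
    have h10 := bw_lo hmN (k := al l - 1) (by omega)
    have e : al l - 1 + 1 = al l := by omega
    have e2 : ((al l - 1 : ℕ) : ℝ) + 1 = al l := by
      rw [← Nat.cast_add_one, e]
    rw [e2, e] at h10
    have h11 : (32 * ((rho l : ℝ) * al l)) ≤ mu l := by exact_mod_cast hmu
    have h12 : (mu l : ℝ) * bw N ((mu l : ℝ) / N) (al l - 1) ≤
        mu l * bw N ((mu l : ℝ) / N) (al l + jj l) := by
      calc (mu l : ℝ) * bw N ((mu l : ℝ) / N) (al l - 1) ≤ al l * bw N ((mu l : ℝ) / N) (al l) := h10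
        _ ≤ al l * (32 * rho l * bw N ((mu l : ℝ) / N) (al l + jj l)) :=
            mul_le_mul_of_nonneg_left h8 hαr.le
        _ = (32 * ((rho l : ℝ) * al l)) * bw N ((mu l : ℝ) / N) (al l + jj l) := by ring
        _ ≤ _ := mul_le_mul_of_nonneg_right h11 h5
    exact le_of_mul_le_mul_left h12 hmr
  have h10 : ∑ k ∈ (range (N + 1)).filter (fun k => k < al l ∨ al l + jj l ≤ k),
      bw N ((mu l : ℝ) / N) k ≤ ∑ k ∈ range (al l), bw N ((mu l : ℝ) / N) k +
      ∑ k ∈ (range (N + 1)).filter (fun k => al l + jj l ≤ k), bw N ((mu l : ℝ) / N) k := by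
    rw [← sum_union_inter]
    refine le_trans ?_ (le_add_of_nonneg_right (sum_nonneg fun k _ => bwp hmN k))
    refine sum_le_sum_of_subset_of_nonneg ?_ fun k _ _ => bwp hmN k
    intro k hk
    rw [mem_filter] at hk
    rw [mem_union, mem_range, mem_filter]
    rcases hk.2 with h | h
    · exact Or.inl h
    · exact Or.inr ⟨hk.1, h⟩
  linarith

end Pool.Agent.ROP
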