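import Mathlib
import Pool.Agent.ROP.Defs
import Pool.Agent.RO.Emb
import Pool.Agent.RO.EmbB

set_option autoImplicit false

/-!
# ROP-CoA (job): both reductions work with probability `1/6`

Union bounds for the two random sets, then Fubini.
-/

namespace Pool.Agent.ROP

open Pool.Agent.RO hiding Fl Iv

variable {Λ Ω : Type} [Fintype Λ] [DecidableEq Λ] [Fintype Ω] [Nonempty Ω]

omit [Fintype Ω] [Nonempty Ω] in
private theorem coa_fl1 {op : Λ → Λ → Λ} (hop2 : ∀ x y, op x (op x y) = y) {α j : ℕ} (hαj : α < j)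
    [Fintype Ω] {a b : (Fin j ↪ Λ) × Ω → Finset Λ → Prop} (v : Fin α ↪ Λ) (x : Fin j ↪ Λ)
    (h : pr (fun r => b (x, r) (pre α v)) < 2 / 3) : Fl op a b (pre α v) := by
  refine ⟨x, Or.inr (Or.inl ⟨?_, h⟩)⟩
  rintro ⟨y, hy⟩
  have h1 : tr op y x ⊆ pre α v := by
    intro z hz
    obtain ⟨i, -, rfl⟩ := Finset.mem_image.mp hz
    exact hy i
  have h2 := Finset.card_le_card h1
  rw [card_tr hop2, card_pre le_rfl] at h2
  omega

omit [Fintype Ω] [Nonempty Ω] in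
private theorem coa_fl2 {op : Λ → Λ → Λ} {j : ℕ}
    [Fintype Ω] {a b : (Fin j ↪ Λ) × Ω → Finset Λ → Prop} (x : Fin j ↪ Λ) (y : Λ)
    (h : pr (fun r => a (x, r) (tr op y x)) < 2 / 3) : Fl op a b (tr op y x) := by
  refine ⟨x, Or.inl ⟨⟨y, fun i => ?_⟩, h⟩⟩
  exact Finset.mem_image.mpr ⟨i, Finset.mem_univ _, rfl⟩

private theorem coa_avg {H : Type} [Fintype H] {p : H × Ω → Prop} {good : H → Prop} {c : ℝ} (hc : 0 ≤ c)
    (h : ∀ η, good η → c ≤ pr fun r => p (η, r)) : c * pr good ≤ pr p := by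
  classical
  rw [pr_prod]
  have e : pr good = ((Finset.univ.filter good).card : ℝ) / (Fintype.card H : ℝ) := by
    unfold pr
    congr!
  rw [e, ← mul_div_assoc]
  refine div_le_div_of_nonneg_right ?_ (Nat.cast_nonneg _)
  calc c * ((Finset.univ.filter good).card : ℝ) = ∑ η ∈ Finset.univ.filter good, c := by
        rw [Finset.sum_const, nsmul_eq_mul, mul_comm]
    _ ≤ ∑ η ∈ Finset.univ.filter good, pr (fun r => p (η, r)) :=
        Finset.sum_le_sum fun η hη => h η (Finset.mem_filter.mp hη).2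
    _ ≤ ∑ η, pr (fun r => p (η, r)) :=
        Finset.sum_le_sum_of_subset_of_nonneg (Finset.filter_subset _ _) fun η _ _ => pr_nonneg _

theorem co_good {op : Λ → Λ → Λ} (hop1 : ∀ x y, op x y = op y x)
    (hop2 : ∀ x y, op x (op x y) = y) {α j : ℕ} (hαj : α < j) (hN : α + j ≤ Fintype.card Λ)
    {a b : (Fin j ↪ Λ) × Ω → Finset Λ → Prop} (h1 : fr α (Fl op a b) ≤ 1 / 4)
    (h2 : fr j (Fl op a b) ≤ 1 / 4) :
    1 / 6 ≤ pr (fun ω : ((Fin α ↪ Λ) × ((Fin j ↪ Λ) × Λ)) × Ω =>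
      a (ω.1.2.1, ω.2) (tr op ω.1.2.2 ω.1.2.1) ∧ b (ω.1.2.1, ω.2) (pre α ω.1.1)) := by
  classical
  have hne1 : Nonempty (Fin j ↪ Λ) := by
    rw [Function.Embedding.nonempty_iff_card_le, Fintype.card_fin]
    omega
  have hne0 : Nonempty (Fin α ↪ Λ) := by
    rw [Function.Embedding.nonempty_iff_card_le, Fintype.card_fin]
    omega
  have hne2 : Nonempty Λ := by
    rw [← Fintype.card_pos_iff]
    omega
  have g1 : pr (fun η : (Fin α ↪ Λ) × ((Fin j ↪ Λ) × Λ) =>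
      pr (fun r => b (η.2.1, r) (pre α η.1)) < 2 / 3) ≤ 1 / 4 := by
    have e1 : pr (fun η : (Fin α ↪ Λ) × ((Fin j ↪ Λ) × Λ) => Fl op a b (pre α η.1)) =
        fr α (Fl op a b) := by
      rw [pr_fst (fun v : Fin α ↪ Λ => Fl op a b (pre α v))]
      exact pr_pre le_rfl (by omega) _
    refine (pr_mono fun η hη => ?_).trans (e1.le.trans h1)
    exact coa_fl1 hop2 hαj η.1 η.2.1 hη
  have g2 : pr (fun η : (Fin α ↪ Λ) × ((Fin j ↪ Λ) × Λ) =>
      pr (fun r => a (η.2.1, r) (tr op η.2.2 η.2.1)) < 2 / 3) ≤ 1 / 4 := by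
    have e1 := pr_union_le hop1 hop2 (a := 0) (n := α) (j := j) (Nat.zero_le _) (by omega) (by omega)
      (Fl op a b)
    rw [zero_add] at e1
    refine (pr_mono fun η hη => ?_).trans (e1.trans h2)
    have e2 : pre 0 η.1 = ∅ := by
      unfold pre
      simp
    rw [e2, Finset.empty_union]
    exact ⟨Finset.disjoint_empty_left _, coa_fl2 η.2.1 η.2.2 hη⟩
  have g3 : 1 / 2 ≤ pr (fun η : (Fin α ↪ Λ) × ((Fin j ↪ Λ) × Λ) =>
      ¬ ((pr (fun r => b (η.2.1, r) (pre α η.1)) < 2 / 3) ∨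
        (pr (fun r => a (η.2.1, r) (tr op η.2.2 η.2.1)) < 2 / 3))) := by
    rw [pr_not]
    have e1 := pr_or_le (fun η : (Fin α ↪ Λ) × ((Fin j ↪ Λ) × Λ) =>
      pr (fun r => b (η.2.1, r) (pre α η.1)) < 2 / 3)
      (fun η => pr (fun r => a (η.2.1, r) (tr op η.2.2 η.2.1)) < 2 / 3)
    linarith
  have g4 := coa_avg (Ω := Ω) (H := (Fin α ↪ Λ) × ((Fin j ↪ Λ) × Λ))
    (p := fun ω => a (ω.1.2.1, ω.2) (tr op ω.1.2.2 ω.1.2.1) ∧ b (ω.1.2.1, ω.2) (pre α ω.1.1))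
    (good := fun η => ¬ ((pr (fun r => b (η.2.1, r) (pre α η.1)) < 2 / 3) ∨
        (pr (fun r => a (η.2.1, r) (tr op η.2.2 η.2.1)) < 2 / 3)))
    (c := 1 / 3) (by norm_num) (by
      intro η hη
      rw [not_or, not_lt, not_lt] at hη
      have e1 := pr_or_le (fun r => ¬ a (η.2.1, r) (tr op η.2.2 η.2.1)) (fun r => ¬ b (η.2.1, r) (pre α η.1))
      rw [pr_not, pr_not] at e1
      have e2 : pr (fun r => a (η.2.1, r) (tr op η.2.2 η.2.1) ∧ b (η.2.1, r) (pre α η.1)) =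
          1 - pr (fun r => ¬ a (η.2.1, r) (tr op η.2.2 η.2.1) ∨ ¬ b (η.2.1, r) (pre α η.1)) := by
        rw [← pr_not]
        refine pr_congr fun r => ?_
        rw [not_or, not_not, not_not]
      show 1 / 3 ≤ pr (fun r => a (η.2.1, r) (tr op η.2.2 η.2.1) ∧ b (η.2.1, r) (pre α η.1))
      rw [e2]
      linarith [hη.1, hη.2])
  refine le_trans ?_ g4
  linarith

end Pool.Agent.ROP
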