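import Mathlib
import Pool.Agent.ROP.Defs
import Pool.Agent.RO.Emb
import Pool.Agent.RO.EmbB
import Pool.Agent.RO.Step

set_option autoImplicit false

/-!
# ROP-CoB (job): the certificates survive

`ω = ((v, (x, y)), r)`: `v` an injective sequence of length `α`, `x` an injective sequence of length `j`, `y` an element of `Λ`, `r` a
random word; `K = pre α v` (the whole range of `v`), `T = tr op y x`.
`co_sa`: `pr_miss` with `a := 0`; `co_sb`: `step_iii` of `Pool/Agent/RO/Step.lean`; `co_dj`: `pr_tr_mem`.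
-/

namespace Pool.Agent.ROP

open Pool.Agent.RO hiding Fl Iv

variable {Λ Ω : Type} [Fintype Λ] [DecidableEq Λ] [Fintype Ω] [Nonempty Ω]

theorem co_sa {op : Λ → Λ → Λ} {α j P : ℕ} (hN : α < Fintype.card Λ)
    {a : (Fin j ↪ Λ) × Ω → Finset Λ → Prop} (ha : Cert P a) :
    pr (fun ω : ((Fin α ↪ Λ) × ((Fin j ↪ Λ) × Λ)) × Ω =>
      a (ω.1.2.1, ω.2) (tr op ω.1.2.2 ω.1.2.1) ∧
        ¬ a (ω.1.2.1, ω.2) (pre α ω.1.1 ∪ tr op ω.1.2.2 ω.1.2.1)) ≤
      α * (P / (Fintype.card Λ : ℝ)) := by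
  have hN0 : (0 : ℝ) < Fintype.card Λ := by
    exact_mod_cast lt_of_le_of_lt (Nat.zero_le α) hN
  have hε : (0 : ℝ) ≤ α * (P / (Fintype.card Λ : ℝ)) := by positivity
  refine pr_prod_le' hε fun r => pr_prod_le' hε fun xy => ?_
  obtain ⟨x, y⟩ := xy
  show pr (fun v : Fin α ↪ Λ => a (x, r) (tr op y x) ∧ ¬ a (x, r) (pre α v ∪ tr op y x)) ≤ _
  by_cases h : a (x, r) (tr op y x)
  · obtain ⟨W, hW, hWa⟩ := ha (x, r) (tr op y x) h
    have h1 := pr_miss (Λ := Λ) (a := 0) (n := α) (P := P) (Nat.zero_le α) hN.le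
      (lt_of_le_of_lt (Nat.zero_le α) hN) (fun _ => W) (fun _ => hW)
    rw [Nat.cast_zero, sub_zero, sub_zero] at h1
    refine le_trans (pr_mono fun v hv => ?_) h1
    by_contra hcon
    apply hv.2
    apply hWa
    intro w hw
    constructor
    · intro h3
      rcases Finset.mem_union.1 h3 with h4 | h4
      · exfalso
        refine hcon ⟨w, hw, h4, ?_⟩
        unfold pre
        rw [Finset.mem_image]
        rintro ⟨i, hi, _⟩
        rw [Finset.mem_filter] at hi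
        exact absurd hi.2 (Nat.not_lt_zero _)
      · exact h4
    · exact fun h3 => Finset.mem_union_right _ h3
  · have h1 : pr (fun v : Fin α ↪ Λ => a (x, r) (tr op y x) ∧
        ¬ a (x, r) (pre α v ∪ tr op y x)) ≤ pr (fun v : Fin α ↪ Λ => v ∈ (∅ : Finset (Fin α ↪ Λ))) :=
      pr_mono fun v hv => absurd hv.1 h
    rw [pr_mem, Finset.card_empty, Nat.cast_zero, zero_div] at h1
    exact h1.trans hε

theorem co_sb {op : Λ → Λ → Λ} (hop1 : ∀ x y, op x y = op y x)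
    (hop2 : ∀ x y, op x (op x y) = y) {α j P : ℕ}
    {b : (Fin j ↪ Λ) × Ω → Finset Λ → Prop} (hb : Cert P b) :
    pr (fun ω : ((Fin α ↪ Λ) × ((Fin j ↪ Λ) × Λ)) × Ω =>
      b (ω.1.2.1, ω.2) (pre α ω.1.1) ∧
        ¬ b (ω.1.2.1, ω.2) (pre α ω.1.1 ∪ tr op ω.1.2.2 ω.1.2.1)) ≤
      j * (P / (Fintype.card Λ : ℝ)) := by
  have hε : (0 : ℝ) ≤ j * (P / (Fintype.card Λ : ℝ)) := by positivity
  refine pr_prod_le' hε fun r => ?_
  exact step_iii hop1 hop2 (n := α) (b := fun x G => b (x, r) G) fun x G h => hb (x, r) G h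

theorem co_dj {op : Λ → Λ → Λ} (hop1 : ∀ x y, op x y = op y x)
    (hop2 : ∀ x y, op x (op x y) = y) {α j : ℕ} :
    pr (fun ω : ((Fin α ↪ Λ) × ((Fin j ↪ Λ) × Λ)) × Ω =>
      ¬ Disjoint (pre α ω.1.1) (tr op ω.1.2.2 ω.1.2.1)) ≤ j * (α / (Fintype.card Λ : ℝ)) := by
  refine le_trans (le_of_eq (pr_fst (α := (Fin α ↪ Λ) × ((Fin j ↪ Λ) × Λ)) (β := Ω)
    fun ω => ¬ Disjoint (pre α ω.1) (tr op ω.2.2 ω.2.1))) ?_
  refine le_trans (pr_mono ?_) (pr_tr_mem hop1 hop2 (n := α) (j := j) (P := α)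
    (fun v _ => pre α v) (fun v _ => (card_pre le_rfl v).le))
  rintro ⟨v, x, y⟩ h
  have h' : ¬ Disjoint (pre α v) (tr op y x) := h
  rw [Finset.not_disjoint_iff] at h'
  obtain ⟨w, h1, h2⟩ := h'
  unfold tr at h2
  rw [Finset.mem_image] at h2
  obtain ⟨i, _, hi⟩ := h2
  refine ⟨i, ?_⟩
  show op y (x i) ∈ pre α v
  rw [hi]
  exact h1

end Pool.Agent.ROP
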