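import Mathlib
import Pool.Agent.ROP.Bin
import Pool.Agent.ROP.CoA
import Pool.Agent.ROP.CoB
import Pool.Agent.RO.Mx

set_option autoImplicit false

/-!
# ROP-Core: the core lemma

`K` a random set with `α` elements, `T` a translate of the random sequence `x`, with `j` elements. If the reductions
work for `K` and for `T`, the certificates (of `b` for `K`, of `a` for `T`) survive in `K ∪ T`, where both accept `x`.
-/

namespace Pool.Agent.ROP

open Finset
open Pool.Agent.RO hiding Fl Iv mu jj kap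

variable {Λ Ω : Type} [Fintype Λ] [DecidableEq Λ] [Fintype Ω] [Nonempty Ω]

theorem core_fix {op : Λ → Λ → Λ} (hop1 : ∀ x y, op x y = op y x)
    (hop2 : ∀ x y, op x (op x y) = y) {α j P : ℕ} (hα : 0 < α) (hαj : α < j)
    (hN : 12 * (α * P + j * P + j * α) ≤ Fintype.card Λ)
    {a b : (Fin j ↪ Λ) × Ω → Finset Λ → Prop} (ha : Cert P a) (hb : Cert P b)
    (h1 : fr α (Fl op a b) ≤ 1 / 4) (h2 : fr j (Fl op a b) ≤ 1 / 4) :
    1 / 12 ≤ fr (α + j) (Iv a b) := by
  have hN1 : α + j ≤ Fintype.card Λ := by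
    refine le_trans ?_ hN
    nlinarith [Nat.zero_le (α * P), Nat.zero_le (j * P)]
  have hN2 : α < Fintype.card Λ := by omega
  have hn : α ≤ Fintype.card Λ := by omega
  have s0 := co_good hop1 hop2 hαj hN1 (a := a) (b := b) h1 h2
  have s1 := co_sa (op := op) hN2 ha
  have s2 := co_sb hop1 hop2 (α := α) hb
  have s3 := co_dj (Ω := Ω) hop1 hop2 (α := α) (j := j)
  have s4 := pr_union_le hop1 hop2 (a := α) (n := α) (j := j) le_rfl hn hN1 (Iv a b)
  have s5 : pr (fun ω : ((Fin α ↪ Λ) × ((Fin j ↪ Λ) × Λ)) × Ω =>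
      Disjoint (pre α ω.1.1) (tr op ω.1.2.2 ω.1.2.1) ∧
        Iv a b (pre α ω.1.1 ∪ tr op ω.1.2.2 ω.1.2.1)) ≤ fr (α + j) (Iv a b) := by
    refine le_trans (le_of_eq ?_) s4
    exact pr_fst (β := Ω) (fun ω : (Fin α ↪ Λ) × ((Fin j ↪ Λ) × Λ) =>
      Disjoint (pre α ω.1) (tr op ω.2.2 ω.2.1) ∧ Iv a b (pre α ω.1 ∪ tr op ω.2.2 ω.2.1))
  have s6 : pr (fun ω : ((Fin α ↪ Λ) × ((Fin j ↪ Λ) × Λ)) × Ω =>
      a (ω.1.2.1, ω.2) (tr op ω.1.2.2 ω.1.2.1) ∧ b (ω.1.2.1, ω.2) (pre α ω.1.1)) ≤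
      pr (fun ω : ((Fin α ↪ Λ) × ((Fin j ↪ Λ) × Λ)) × Ω =>
        Disjoint (pre α ω.1.1) (tr op ω.1.2.2 ω.1.2.1) ∧
          Iv a b (pre α ω.1.1 ∪ tr op ω.1.2.2 ω.1.2.1)) +
      (pr (fun ω : ((Fin α ↪ Λ) × ((Fin j ↪ Λ) × Λ)) × Ω =>
        ¬ Disjoint (pre α ω.1.1) (tr op ω.1.2.2 ω.1.2.1)) +
      (pr (fun ω : ((Fin α ↪ Λ) × ((Fin j ↪ Λ) × Λ)) × Ω =>
        a (ω.1.2.1, ω.2) (tr op ω.1.2.2 ω.1.2.1) ∧
          ¬ a (ω.1.2.1, ω.2) (pre α ω.1.1 ∪ tr op ω.1.2.2 ω.1.2.1)) +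
      pr (fun ω : ((Fin α ↪ Λ) × ((Fin j ↪ Λ) × Λ)) × Ω =>
        b (ω.1.2.1, ω.2) (pre α ω.1.1) ∧
          ¬ b (ω.1.2.1, ω.2) (pre α ω.1.1 ∪ tr op ω.1.2.2 ω.1.2.1)))) := by
    refine le_trans (pr_mono ?_) (le_trans (pr_or_le _ _) (add_le_add le_rfl
      (le_trans (pr_or_le _ _) (add_le_add le_rfl (pr_or_le _ _)))))
    rintro ⟨⟨v, x, y⟩, r⟩ ⟨e1, e2⟩
    simp only at e1 e2 ⊢
    by_cases d : Disjoint (pre α v) (tr op y x)
    · by_cases e : a (x, r) (pre α v ∪ tr op y x)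
      · by_cases f : b (x, r) (pre α v ∪ tr op y x)
        · exact Or.inl ⟨d, x, r, e, f⟩
        · exact Or.inr (Or.inr (Or.inr ⟨e2, f⟩))
      · exact Or.inr (Or.inr (Or.inl ⟨e1, e⟩))
    · exact Or.inr (Or.inl d)
  have hNr : (12 : ℝ) * (α * P + j * P + j * α) ≤ Fintype.card Λ := by exact_mod_cast hN
  have hNpos : (0 : ℝ) < Fintype.card Λ := by
    have : 0 < Fintype.card Λ := by omega
    exact_mod_cast this
  have b5 : (α : ℝ) * (P / (Fintype.card Λ : ℝ)) + j * (P / (Fintype.card Λ : ℝ)) +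
      j * (α / (Fintype.card Λ : ℝ)) ≤ 1 / 12 := by
    have e1 : (α : ℝ) * (P / (Fintype.card Λ : ℝ)) + j * (P / (Fintype.card Λ : ℝ)) +
        j * (α / (Fintype.card Λ : ℝ)) = (α * P + j * P + j * α) / (Fintype.card Λ : ℝ) := by ring
    rw [e1, div_le_iff₀ hNpos]
    linarith
  linarith

/-- the core lemma: the own risk is bounded by the risk of the pair and by a small part of the
probability of a failure -/
theorem core_mx (l : ℕ) {op : Λ → Λ → Λ} (hop1 : ∀ x y, op x y = op y x)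
    (hop2 : ∀ x y, op x (op x y) = y) {P : ℕ}
    (hN : 100 * mu l ^ 2 * (P + 1) ≤ Fintype.card Λ)
    {a b : (Fin (jj l) ↪ Λ) × Ω → Finset Λ → Prop} (ha : Cert P a) (hb : Cert P b) :
    mx ((mu l : ℝ) / Fintype.card Λ)
        (fun G : Finset Λ => G.card < al l ∨ al l + jj l ≤ G.card) ≤
      84 * mx ((mu l : ℝ) / Fintype.card Λ) (Iv a b) +
        (56 / (rho l : ℝ)) * mx ((mu l : ℝ) / Fintype.card Λ) (Fl op a b) := by
  classical
  obtain ⟨N, hNN⟩ : ∃ N, N = Fintype.card Λ := ⟨_, rfl⟩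
  have hm := mu_pos l
  have hbe := par_be l
  have hal := par_al l
  have hmu := par_mu l
  have hρ8 := par_rho8 l
  have hα := al_pos l
  have hαm : al l ≤ mu l := by nlinarith
  have hN64 : 64 * mu l ^ 2 ≤ N := by
    rw [hNN]
    refine le_trans ?_ hN
    have e7 : 100 * mu l ^ 2 * (P + 1) = 100 * (mu l ^ 2 * P) + 100 * mu l ^ 2 := by
      rw [mul_add, mul_one, mul_assoc]
    rw [e7]
    generalize mu l ^ 2 * P = u
    generalize mu l ^ 2 = q
    omega
  have hmN : mu l < N := by nlinarith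
  have hbN : al l + jj l ≤ N := by nlinarith
  have hq := bwp hmN
  rw [← hNN]
  have hfrn := fun (k : ℕ) (Φ : Finset Λ → Prop) => fr_nonneg k Φ
  have hsingle : ∀ (k : ℕ) (Φ : Finset Λ → Prop), k ≤ N →
      bw N ((mu l : ℝ) / N) k * fr k Φ ≤ mx ((mu l : ℝ) / N) Φ := by
    intro k Φ hk
    rw [mx, ← hNN]
    exact single_le_sum (f := fun k => bw N ((mu l : ℝ) / N) k * fr k Φ)
      (fun k _ => mul_nonneg (hq k) (hfrn k Φ)) (mem_range.2 (by omega))
  have hout : mx ((mu l : ℝ) / N)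
      (fun G : Finset Λ => G.card < al l ∨ al l + jj l ≤ G.card) ≤
      7 * bw N ((mu l : ℝ) / N) (al l + jj l) := by
    have h1 := mx_card (Λ := Λ) ((mu l : ℝ) / N) (fun k => k < al l ∨ al l + jj l ≤ k)
    rw [← hNN] at h1
    rw [h1]
    refine le_trans (le_of_eq ?_) (risk_out l hN64)
    refine sum_congr ?_ fun _ _ => rfl
    ext k
    simp only [mem_filter]
  have hI0 : 0 ≤ mx ((mu l : ℝ) / N) (Iv a b) :=
    le_trans (mul_nonneg (hq 0) (hfrn 0 _)) (hsingle 0 (Iv a b) (Nat.zero_le _))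
  have hF0 : 0 ≤ mx ((mu l : ℝ) / N) (Fl op a b) :=
    le_trans (mul_nonneg (hq 0) (hfrn 0 _)) (hsingle 0 (Fl op a b) (Nat.zero_le _))
  have hρ : (0 : ℝ) < rho l := by exact_mod_cast rho_pos l
  have hF0' : 0 ≤ (56 / (rho l : ℝ)) * mx ((mu l : ℝ) / N) (Fl op a b) :=
    mul_nonneg (div_nonneg (by norm_num) hρ.le) hF0
  -- from a bound for `ρ π_β`
  have hfin : rho l * bw N ((mu l : ℝ) / N) (al l + jj l) ≤ 8 * mx ((mu l : ℝ) / N) (Fl op a b) →
      mx ((mu l : ℝ) / N) (fun G : Finset Λ => G.card < al l ∨ al l + jj l ≤ G.card) ≤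
      84 * mx ((mu l : ℝ) / N) (Iv a b) +
        (56 / (rho l : ℝ)) * mx ((mu l : ℝ) / N) (Fl op a b) := by
    intro h
    have h1 : bw N ((mu l : ℝ) / N) (al l + jj l) ≤
        (8 / (rho l : ℝ)) * mx ((mu l : ℝ) / N) (Fl op a b) := by
      rw [div_mul_eq_mul_div, le_div_iff₀ hρ]
      linarith
    have h2 : (56 / (rho l : ℝ)) * mx ((mu l : ℝ) / N) (Fl op a b) =
        7 * ((8 / (rho l : ℝ)) * mx ((mu l : ℝ) / N) (Fl op a b)) := by ring
    rw [h2]
    linarith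
  by_cases h1 : fr (al l) (Fl op a b) ≤ 1 / 4
  · by_cases h2 : fr (jj l) (Fl op a b) ≤ 1 / 4
    · have h3 := core_fix hop1 hop2 hα hal (P := P) (by
        refine le_trans ?_ hN
        have e1 : al l * P + jj l * P ≤ 4 * mu l * P := by
          rw [← add_mul]
          exact Nat.mul_le_mul_right _ hbe
        have e2 : jj l * al l ≤ 4 * mu l * mu l := Nat.mul_le_mul (by omega) hαm
        have e3 : mu l ≤ mu l ^ 2 := Nat.le_self_pow (by norm_num) _
        have e4 : mu l * P ≤ mu l ^ 2 * P := Nat.mul_le_mul_right _ e3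
        have e5 : 4 * mu l * mu l = 4 * mu l ^ 2 := by rw [mul_assoc, ← sq]
        have e6 : 4 * mu l * P = 4 * (mu l * P) := mul_assoc _ _ _
        have e7 : 100 * mu l ^ 2 * (P + 1) = 100 * (mu l ^ 2 * P) + 100 * mu l ^ 2 := by
          rw [mul_add, mul_one, mul_assoc]
        rw [e5] at e2
        rw [e6] at e1
        rw [e7]
        clear hsingle hfrn hq hout hfin hI0 hF0 hF0' h1 h2
        generalize mu l ^ 2 * P = u at e4 ⊢
        generalize mu l * P = v at e1 e4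
        generalize al l * P = w at e1 ⊢
        generalize jj l * P = z at e1 ⊢
        generalize jj l * al l = t at e2 ⊢
        generalize mu l ^ 2 = q at e2 ⊢
        omega) ha hb h1 h2
      have h4 := hsingle _ (Iv a b) hbN
      have h5 := mul_le_mul_of_nonneg_left h3 (hq (al l + jj l))
      linarith
    · apply hfin
      push Not at h2
      have h4 := hsingle _ (Fl op a b) (show jj l ≤ N by omega)
      have h5 := mul_le_mul_of_nonneg_left h2.le (hq (jj l))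
      have h6 := risk_jj l hN64
      linarith
  · apply hfin
    push Not at h1
    have h4 := hsingle _ (Fl op a b) (show al l ≤ N by omega)
    have h5 := mul_le_mul_of_nonneg_left h1.le (hq (al l))
    have h6 := risk_al l hN64
    linarith

end Pool.Agent.ROP
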