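import Mathlib
import Pool.Agent.ROP.Core

set_option autoImplicit false

/-!
# ROP-CoE (job): the core lemma for weights

From mixtures to weights.
-/

namespace Pool.Agent.ROP

open Pool.Agent.RO hiding Fl Iv mu jj kap
open scoped ENNReal

variable {Λ Ω : Type} [Fintype Λ] [DecidableEq Λ] [Fintype Ω] [Nonempty Ω]

/-- the weight as a real number -/
private noncomputable def ceW (ρ : ℝ) (Φ : Finset Λ → Prop) : ℝ := by
  classical
  exact ∑ G ∈ Finset.univ.filter Φ, ρ ^ G.card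

private theorem ceW_nonneg {ρ : ℝ} (h : 0 ≤ ρ) (Φ : Finset Λ → Prop) : 0 ≤ ceW ρ Φ :=
  Finset.sum_nonneg fun _ _ => pow_nonneg h _

private theorem ceW_mono {ρ : ℝ} (h : 0 ≤ ρ) {Φ Ψ : Finset Λ → Prop} (hΦ : ∀ G, Φ G → Ψ G) :
    ceW ρ Φ ≤ ceW ρ Ψ := by
  classical
  refine Finset.sum_le_sum_of_subset_of_nonneg ?_ fun _ _ _ => pow_nonneg h _
  intro G hG
  rw [Finset.mem_filter] at hG ⊢
  exact ⟨hG.1, hΦ G hG.2⟩

private theorem ceW_true (ρ : ℝ) : ceW ρ (fun _ : Finset Λ => True) =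
    (1 + ρ) ^ Fintype.card Λ := by
  classical
  have h1 := Finset.sum_pow_mul_eq_add_pow ρ 1 (Finset.univ : Finset Λ)
  rw [add_comm ρ 1, Finset.card_univ] at h1
  rw [← h1]
  have h2 : (Finset.univ : Finset (Finset Λ)).filter (fun _ => True) =
      (Finset.univ : Finset Λ).powerset := by
    rw [Finset.filter_true, Finset.powerset_univ]
  have h3 : ceW ρ (fun _ : Finset Λ => True) =
      ∑ G ∈ (Finset.univ : Finset (Finset Λ)).filter (fun _ => True), ρ ^ G.card := by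
    unfold ceW
    congr
  rw [h3, h2]
  exact Finset.sum_congr rfl fun G _ => by rw [one_pow, mul_one]

private theorem ceW_empty {ρ : ℝ} (h : 0 ≤ ρ) (Φ : Finset Λ → Prop) (h0 : Φ ∅) :
    1 ≤ ceW ρ Φ := by
  classical
  have h1 : (∅ : Finset Λ) ∈ Finset.univ.filter Φ := Finset.mem_filter.mpr ⟨Finset.mem_univ _, h0⟩
  have h2 := Finset.single_le_sum (f := fun G : Finset Λ => ρ ^ G.card)
    (fun _ _ => pow_nonneg h _) h1
  rw [Finset.card_empty, pow_zero] at h2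
  exact h2

private theorem ce_wt {ρ : ℝ} (h : 0 ≤ ρ) (Φ : Finset Λ → Prop) :
    wt (ENNReal.ofReal ρ) Φ = ENNReal.ofReal (ceW ρ Φ) := by
  classical
  unfold wt ceW
  rw [ENNReal.ofReal_sum_of_nonneg fun _ _ => pow_nonneg h _]
  exact Finset.sum_congr rfl fun G _ => (ENNReal.ofReal_pow h _).symm

private theorem ce_mx {q : ℝ} (hq : q < 1) (Φ : Finset Λ → Prop) :
    mx q Φ = (1 - q) ^ Fintype.card Λ * ceW (q / (1 - q)) Φ := by
  classical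
  have h0 : (1 - q) ≠ 0 := by linarith
  have h1 : ceW (q / (1 - q)) Φ = ∑ k ∈ Finset.range (Fintype.card Λ + 1),
      (((Finset.univ : Finset Λ).powersetCard k).filter Φ).card * (q / (1 - q)) ^ k := by
    have h2 : ∀ G ∈ Finset.univ.filter Φ, G.card ∈ Finset.range (Fintype.card Λ + 1) := by
      intro G _
      rw [Finset.mem_range]
      exact Nat.lt_succ_of_le (Finset.card_le_univ G)
    unfold ceW
    rw [← Finset.sum_fiberwise_of_maps_to h2]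
    refine Finset.sum_congr rfl fun k _ => ?_
    have h3 : (Finset.univ.filter Φ).filter (fun G => G.card = k) =
        ((Finset.univ : Finset Λ).powersetCard k).filter Φ := by
      ext G
      simp only [Finset.mem_filter, Finset.mem_univ, true_and, Finset.mem_powersetCard,
        Finset.subset_univ]
      exact and_comm
    rw [h3, ← nsmul_eq_mul, ← Finset.sum_const]
    refine Finset.sum_congr rfl fun G hG => ?_
    rw [(Finset.mem_powersetCard.mp (Finset.mem_filter.mp hG).1).2]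
  rw [h1, mx, Finset.mul_sum]
  refine Finset.sum_congr rfl fun k hk => ?_
  have hk' : k ≤ Fintype.card Λ := Nat.lt_succ_iff.mp (Finset.mem_range.mp hk)
  have h4 : ((Fintype.card Λ).choose k : ℝ) ≠ 0 :=
    Nat.cast_ne_zero.mpr (Nat.choose_pos hk').ne'
  have h5 : (1 - q) ^ Fintype.card Λ = (1 - q) ^ (Fintype.card Λ - k) * (1 - q) ^ k := by
    rw [← pow_add, Nat.sub_add_cancel hk']
  have h6 : fr k Φ = ((((Finset.univ : Finset Λ).powersetCard k).filter Φ).card : ℝ) /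
      ((Fintype.card Λ).choose k : ℝ) := by
    unfold fr
    congr
  rw [bw, h6, h5, div_pow]
  field_simp

private theorem ce_pow (κ : ℕ) (hκ : 1 ≤ κ) :
    (1 + 1 / ((2 : ℝ) ^ κ - 1)) ^ (2 ^ κ) ≤ 4 := by
  obtain ⟨κ', rfl⟩ : ∃ κ', κ = κ' + 1 := ⟨κ - 1, by omega⟩
  have hm : (1 : ℝ) ≤ 2 ^ κ' := one_le_pow₀ (by norm_num)
  have h1 : (2 : ℝ) ^ (κ' + 1) = 2 * 2 ^ κ' := by ring
  have h2 := one_add_mul_le_pow (a := -(1 / (2 * (2 : ℝ) ^ κ'))) (by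
    have : 1 / (2 * (2 : ℝ) ^ κ') ≤ 1 := by
      rw [div_le_one (by positivity)]
      linarith
    linarith) (2 ^ κ')
  have h3 : 1 + ((2 ^ κ' : ℕ) : ℝ) * -(1 / (2 * (2 : ℝ) ^ κ')) = 1 / 2 := by
    push_cast
    field_simp
    norm_num
  rw [h3] at h2
  have h4 : 0 < 1 + -(1 / (2 * (2 : ℝ) ^ κ')) := by
    have : 1 / (2 * (2 : ℝ) ^ κ') < 1 := by
      rw [div_lt_one (by positivity)]
      linarith
    linarith
  have h5 : 1 + 1 / ((2 : ℝ) ^ (κ' + 1) - 1) = (1 + -(1 / (2 * (2 : ℝ) ^ κ')))⁻¹ := by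
    have h6 : (2 : ℝ) * 2 ^ κ' - 1 ≠ 0 := by
      have : 0 < (2 : ℝ) * 2 ^ κ' - 1 := by linarith
      exact this.ne'
    rw [h1]
    refine eq_inv_of_mul_eq_one_left ?_
    field_simp
    ring
  have h7 : (1 / 4 : ℝ) ≤ (1 + -(1 / (2 * (2 : ℝ) ^ κ'))) ^ (2 ^ (κ' + 1)) := by
    have h8 : (1 + -(1 / (2 * (2 : ℝ) ^ κ'))) ^ (2 ^ (κ' + 1)) =
        ((1 + -(1 / (2 * (2 : ℝ) ^ κ'))) ^ (2 ^ κ')) ^ 2 := by
      rw [← pow_mul, pow_succ]
    rw [h8]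
    nlinarith
  rw [h5, inv_pow]
  rw [inv_le_comm₀ (by positivity) (by norm_num)]
  linarith

private theorem ce_rho {κ : ℕ} (hκ : 1 ≤ κ) :
    (((2 ^ κ - 1 : ℕ) : ℝ≥0∞)⁻¹) = ENNReal.ofReal (1 / ((2 : ℝ) ^ κ - 1)) ∧
      0 < 1 / ((2 : ℝ) ^ κ - 1) := by
  have h1 : (2 : ℝ) ≤ 2 ^ κ := by
    calc (2 : ℝ) = 2 ^ 1 := (pow_one _).symm
      _ ≤ 2 ^ κ := pow_le_pow_right₀ (by norm_num) hκ
  have h2 : (0 : ℝ) < 2 ^ κ - 1 := by linarith
  refine ⟨?_, by positivity⟩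
  rw [one_div, ENNReal.ofReal_inv_of_pos h2]
  congr 1
  rw [← ENNReal.ofReal_natCast]
  congr 1
  rw [Nat.cast_sub Nat.one_le_two_pow]
  push_cast
  ring

private theorem ce_main (l : ℕ) {op : Λ → Λ → Λ} (hop1 : ∀ x y, op x y = op y x)
    (hop2 : ∀ x y, op x (op x y) = y) {P κ : ℕ} (hκ : 1 ≤ κ)
    (hc : Fintype.card Λ = mu l * 2 ^ κ) (hN : 100 * mu l ^ 2 * (P + 1) ≤ Fintype.card Λ)
    {a b : (Fin (jj l) ↪ Λ) × Ω → Finset Λ → Prop} (ha : Cert P a) (hb : Cert P b) :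
    ceW (1 / ((2 : ℝ) ^ κ - 1))
        (fun G : Finset Λ => ¬ (al l ≤ G.card ∧ G.card < al l + jj l)) ≤
      84 * ceW (1 / ((2 : ℝ) ^ κ - 1)) (Iv a b) +
        (56 / (rho l : ℝ)) * ceW (1 / ((2 : ℝ) ^ κ - 1)) (Fl op a b) ∧
    ceW (1 / ((2 : ℝ) ^ κ - 1)) (fun _ : Finset Λ => True) ≤
      91 * 4 ^ mu l * ceW (1 / ((2 : ℝ) ^ κ - 1)) (Fl op a b) := by
  have hmu0 : (0 : ℝ) < mu l := by exact_mod_cast mu_pos l
  have hρl : (0 : ℝ) < rho l := by exact_mod_cast rho_pos l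
  have hρ8 : (8 : ℝ) ≤ rho l := by exact_mod_cast par_rho8 l
  have hm2 : (2 : ℝ) ≤ 2 ^ κ := by
    calc (2 : ℝ) = 2 ^ 1 := (pow_one _).symm
      _ ≤ 2 ^ κ := pow_le_pow_right₀ (by norm_num) hκ
  have hq : (mu l : ℝ) / Fintype.card Λ = 1 / 2 ^ κ := by
    rw [hc]
    push_cast
    field_simp
  have hq1 : (1 : ℝ) / 2 ^ κ < 1 := by
    rw [div_lt_one (by positivity)]
    linarith
  have hρ : (1 : ℝ) / 2 ^ κ / (1 - 1 / 2 ^ κ) = 1 / (2 ^ κ - 1) := by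
    have h3 : (2 : ℝ) ^ κ - 1 ≠ 0 := by
      have : (0 : ℝ) < 2 ^ κ - 1 := by linarith
      exact this.ne'
    field_simp
  have hρ0 : 0 ≤ 1 / ((2 : ℝ) ^ κ - 1) := by
    have : (0 : ℝ) < 2 ^ κ - 1 := by linarith
    positivity
  have hmx : ∀ Φ : Finset Λ → Prop, mx ((mu l : ℝ) / Fintype.card Λ) Φ =
      (1 - 1 / 2 ^ κ) ^ Fintype.card Λ * ceW (1 / ((2 : ℝ) ^ κ - 1)) Φ := by
    intro Φ
    rw [hq, ce_mx hq1, hρ]
  have hout : (fun G : Finset Λ => ¬ (al l ≤ G.card ∧ G.card < al l + jj l)) =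
      fun G : Finset Λ => G.card < al l ∨ al l + jj l ≤ G.card := by
    funext G
    rw [not_and_or, not_le, not_lt]
  have hcc : (0 : ℝ) < (1 - 1 / 2 ^ κ) ^ Fintype.card Λ := pow_pos (by linarith) _
  have h1 := core_mx l hop1 hop2 hN ha hb
  rw [hmx, hmx, hmx] at h1
  rw [hout]
  have hI := ceW_nonneg hρ0 (Iv a b)
  have hF := ceW_nonneg hρ0 (Fl op a b)
  have hIF : ceW (1 / ((2 : ℝ) ^ κ - 1)) (Iv a b) ≤ ceW (1 / ((2 : ℝ) ^ κ - 1)) (Fl op a b) := by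
    refine ceW_mono hρ0 ?_
    rintro G ⟨x, r, hx⟩
    exact ⟨x, Or.inr (Or.inr ⟨r, hx⟩)⟩
  have h5 : ceW (1 / ((2 : ℝ) ^ κ - 1)) (fun G : Finset Λ => G.card < al l ∨ al l + jj l ≤ G.card) ≤
      84 * ceW (1 / ((2 : ℝ) ^ κ - 1)) (Iv a b) +
        (56 / (rho l : ℝ)) * ceW (1 / ((2 : ℝ) ^ κ - 1)) (Fl op a b) := by
    refine le_of_mul_le_mul_left (h1.trans (le_of_eq ?_)) hcc
    ring
  refine ⟨h5, ?_⟩
  have h7 : 1 ≤ ceW (1 / ((2 : ℝ) ^ κ - 1))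
      (fun G : Finset Λ => G.card < al l ∨ al l + jj l ≤ G.card) := by
    refine ceW_empty hρ0 _ (Or.inl ?_)
    rw [Finset.card_empty]
    exact al_pos l
  have h8 : ceW (1 / ((2 : ℝ) ^ κ - 1)) (fun _ : Finset Λ => True) ≤ 4 ^ mu l := by
    rw [ceW_true, hc, mul_comm (mu l), pow_mul]
    exact pow_le_pow_left₀ (by positivity) (ce_pow κ hκ) _
  have h9 : 56 / (rho l : ℝ) ≤ 7 := by
    rw [div_le_iff₀ hρl]
    linarith
  have h10 := mul_le_mul_of_nonneg_right h9 hF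
  have h11 : 1 ≤ 91 * ceW (1 / ((2 : ℝ) ^ κ - 1)) (Fl op a b) := by linarith
  calc ceW (1 / ((2 : ℝ) ^ κ - 1)) (fun _ : Finset Λ => True) ≤ 4 ^ mu l * 1 := by
        rw [mul_one]; exact h8
    _ ≤ 4 ^ mu l * (91 * ceW (1 / ((2 : ℝ) ^ κ - 1)) (Fl op a b)) :=
        mul_le_mul_of_nonneg_left h11 (by positivity)
    _ = 91 * 4 ^ mu l * ceW (1 / ((2 : ℝ) ^ κ - 1)) (Fl op a b) := by ring

theorem core_wt (l : ℕ) {op : Λ → Λ → Λ} (hop1 : ∀ x y, op x y = op y x)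
    (hop2 : ∀ x y, op x (op x y) = y) {P κ : ℕ} (hκ : 1 ≤ κ)
    (hc : Fintype.card Λ = mu l * 2 ^ κ) (hN : 100 * mu l ^ 2 * (P + 1) ≤ Fintype.card Λ)
    {a b : (Fin (jj l) ↪ Λ) × Ω → Finset Λ → Prop} (ha : Cert P a) (hb : Cert P b) :
    wt (((2 ^ κ - 1 : ℕ) : ℝ≥0∞)⁻¹)
        (fun G : Finset Λ => ¬ (al l ≤ G.card ∧ G.card < al l + jj l)) ≤
      84 * wt (((2 ^ κ - 1 : ℕ) : ℝ≥0∞)⁻¹) (Iv a b) +
        (56 / (rho l : ℝ≥0∞)) * wt (((2 ^ κ - 1 : ℕ) : ℝ≥0∞)⁻¹) (Fl op a b) := by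
  obtain ⟨h1, h3⟩ := ce_rho hκ
  have hρl : (0 : ℝ) < rho l := by exact_mod_cast rho_pos l
  rw [h1, ce_wt h3.le, ce_wt h3.le, ce_wt h3.le]
  have h4 := (ce_main l hop1 hop2 hκ hc hN ha hb).1
  have hI := ceW_nonneg h3.le (Iv a b)
  have hF := ceW_nonneg h3.le (Fl op a b)
  refine (ENNReal.ofReal_le_ofReal h4).trans (le_of_eq ?_)
  rw [ENNReal.ofReal_add (by positivity) (by positivity), ENNReal.ofReal_mul (by norm_num),
    ENNReal.ofReal_mul (by positivity), ENNReal.ofReal_div_of_pos hρl, ENNReal.ofReal_natCast]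
  norm_num

theorem core_wt' (l : ℕ) {op : Λ → Λ → Λ} (hop1 : ∀ x y, op x y = op y x)
    (hop2 : ∀ x y, op x (op x y) = y) {P κ : ℕ} (hκ : 1 ≤ κ)
    (hc : Fintype.card Λ = mu l * 2 ^ κ) (hN : 100 * mu l ^ 2 * (P + 1) ≤ Fintype.card Λ)
    {a b : (Fin (jj l) ↪ Λ) × Ω → Finset Λ → Prop} (ha : Cert P a) (hb : Cert P b) :
    wt (((2 ^ κ - 1 : ℕ) : ℝ≥0∞)⁻¹) (fun _ : Finset Λ => True) ≤
      91 * 4 ^ mu l * wt (((2 ^ κ - 1 : ℕ) : ℝ≥0∞)⁻¹) (Fl op a b) := by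
  obtain ⟨h1, h3⟩ := ce_rho hκ
  rw [h1, ce_wt h3.le, ce_wt h3.le]
  have h4 := (ce_main l hop1 hop2 hκ hc hN ha hb).2
  refine (ENNReal.ofReal_le_ofReal h4).trans (le_of_eq ?_)
  rw [ENNReal.ofReal_mul (by positivity), ENNReal.ofReal_mul (by norm_num),
    ENNReal.ofReal_pow (by norm_num)]
  norm_num

end Pool.Agent.ROP
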