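import Mathlib
import Pool.Agent.ROP.Par
import Pool.Agent.RO.Link

set_option autoImplicit false

/-!
# ROP-Link (job): the machines as predicates with certificates

ADAPT `Pool/Agent/ROA/Link.lean` and `Pool/Agent/RO/Link.lean` (`link_un_inj`, `link_mark`, `link_marks`, `sat_iff`, `win_iff`) and the last two
theorems of `Pool/Agent/RO/LinkA.lean` (with the new `jj`). `code x` is `RO.code x`. The predicates of the core lemma are `aa V b A R s l` below, for pairs
`(x, w)` of an instance and a random word; `Fl`, `Iv` there are the `Fail`, `Inv` here: `Maj` is by definition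
`2 / 3 ≤ pr ..`, so `¬ Maj` is `pr .. < 2 / 3` (`not_le`); `Both` is the existence of a random word.
`Dom s l (cd (code x) w.1)`: the instance `code x` and the word `w` of length `rl s l` (`isInst_code`).
-/

namespace Pool.Agent.ROP

open Pool.Agent.Helper22 N487b59b3
open Pool.Agent.Helper20.Cons (join Po cRun)
open Pool.Agent.RO (Vp pads lev Cert code zer marks qs run_congr vx AA)

/-- acceptance as a predicate for the core lemma -/
def aa (V : Vp) (b : Bool) (A R : Oracle) (s l : ℕ)
    (p : (Fin (jj l) ↪ List.Vector Bool s) × List.Vector Bool (rl s l))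
    (G : Finset (List.Vector Bool s)) : Prop :=
  ROA.acc V b A (zer (kap s l) G R) l (cd (code p.1) p.2.1)

private theorem link_un_inj {s : ℕ} {v v' : List.Vector Bool s} {a a' : ℕ}
    (h : v.1 ++ un a = v'.1 ++ un a') : v = v' := by
  have h1 : v.1.length = v'.1.length := by rw [v.2, v'.2]
  exact Subtype.ext (List.append_inj h h1).1

private theorem link_mark {s κ : ℕ} {R : Oracle} (hR : marks R s κ = ∅)
    (G : Finset (List.Vector Bool s)) (v : List.Vector Bool s) :
    RO.Mark (zer κ G R) κ v.1 ↔ v ∈ G := by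
  classical
  constructor
  · intro hm
    by_contra hv
    have h1 : v ∉ marks R s κ := by rw [hR]; exact Finset.notMem_empty v
    have h2 : ¬ RO.Mark R κ v.1 := by
      intro h
      apply h1
      unfold marks
      exact Finset.mem_filter.2 ⟨Finset.mem_univ v, h⟩
    apply h2
    intro a ha
    have h3 := hm a ha
    unfold zer at h3
    rw [if_neg] at h3
    · exact h3
    · rintro ⟨v', hv', a', -, he⟩
      rw [link_un_inj he] at hv
      exact hv hv'
  · intro hv a ha
    unfold zer
    exact if_pos ⟨v, hv, a, ha, rfl⟩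

private theorem link_marks {s κ : ℕ} {R : Oracle} (hR : marks R s κ = ∅)
    (G : Finset (List.Vector Bool s)) : marks (zer κ G R) s κ = G := by
  classical
  ext v
  unfold marks
  rw [Finset.mem_filter]
  exact ⟨fun h => (link_mark hR G v).1 h.2, fun h => ⟨Finset.mem_univ v, (link_mark hR G v).2 h⟩⟩

theorem isInst_code {s l : ℕ} (x : Fin (jj l) ↪ List.Vector Bool s) : IsInst s l (code x) := by
  unfold IsInst RO.code
  rw [ld_lc]
  refine ⟨rfl, by simp, ?_, ?_⟩
  · rw [List.nodup_ofFn]
    exact fun i j hij => x.injective (Subtype.ext hij)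
  · intro y hy
    rw [List.mem_ofFn] at hy
    obtain ⟨i, rfl⟩ := hy
    exact (x i).2

theorem exists_code_of_isInst {s l : ℕ} {u : List Bool} (h : IsInst s l u) :
    ∃ x : Fin (jj l) ↪ List.Vector Bool s, code x = u := by
  obtain ⟨h1, h2, h3, h4⟩ := h
  refine ⟨⟨fun i => ⟨(ld u)[(i : ℕ)]'(by rw [h2]; exact i.2), h4 _ (List.getElem_mem _)⟩, ?_⟩, ?_⟩
  · intro i j hij
    have h5 : (ld u)[(i : ℕ)]'(by rw [h2]; exact i.2) = (ld u)[(j : ℕ)]'(by rw [h2]; exact j.2) :=
      congrArg Subtype.val hij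
    exact Fin.ext ((List.Nodup.getElem_inj_iff h3).1 h5)
  · unfold RO.code
    conv_rhs => rw [← h1]
    congr 1
    apply List.ext_getElem
    · simp [h2]
    · intro i h5 h6
      rw [List.getElem_ofFn]
      rfl

theorem cert_aa {V : Vp} {s l h : ℕ} (H : HB V s l h) (A R : Oracle) (b : Bool) :
    Cert h (aa V b A R s l) := by
  classical
  intro p G hacc
  have hD : Dom s l (cd (code p.1) p.2.1) := ⟨code p.1, p.2.1, isInst_code p.1, p.2.2, rfl⟩
  obtain ⟨w, hw, hrun⟩ := hacc
  set qq := qs (V b).1 (join A (zer (kap s l) G R)) (pads l (cd (code p.1) p.2.1), w) with hqq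
  have hlen : qq.length ≤ h := H.num _ hD b (join A (zer (kap s l) G R)) w hw
  refine ⟨Finset.univ.filter fun v : List.Vector Bool s => ∃ q ∈ qq, ∃ a, a < kap s l ∧
    q = true :: (v.1 ++ un a), ?_, ?_⟩
  · refine le_trans ?_ hlen
    have h1 : (Finset.univ.filter fun v : List.Vector Bool s =>
        ∃ q ∈ qq, ∃ a, a < kap s l ∧ q = true :: (v.1 ++ un a)).card ≤
        (qq.toFinset.image fun q => q.tail.take s).card := by
      refine Finset.card_le_card_of_injOn (fun v => v.1) ?_ ?_
      · intro v hv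
        obtain ⟨q, hq, a, -, he⟩ := (Finset.mem_filter.1 hv).2
        refine Finset.mem_coe.2 (Finset.mem_image.2 ⟨q, List.mem_toFinset.2 hq, ?_⟩)
        rw [he, List.tail_cons, List.take_left' v.2]
      · intro v _ v' _ he
        exact Subtype.ext he
    exact h1.trans (Finset.card_image_le.trans (List.toFinset_card_le qq))
  · intro G' hG'
    refine ⟨w, hw, ?_⟩
    rw [← hrun]
    symm
    apply run_congr
    intro q hq
    match q, hq with
    | [], _ => rfl
    | false :: q, _ => rfl
    | true :: q, hq =>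
      change zer (kap s l) G R q = zer (kap s l) G' R q
      have hiff : (∃ v ∈ G, ∃ a, a < kap s l ∧ q = v.1 ++ un a) ↔
          (∃ v ∈ G', ∃ a, a < kap s l ∧ q = v.1 ++ un a) := by
        constructor
        · rintro ⟨v, hv, a, ha, he⟩
          exact ⟨v, (hG' v (Finset.mem_filter.2 ⟨Finset.mem_univ v, _, hq, a, ha,
            by rw [he]⟩)).2 hv, a, ha, he⟩
        · rintro ⟨v, hv, a, ha, he⟩
          exact ⟨v, (hG' v (Finset.mem_filter.2 ⟨Finset.mem_univ v, _, hq, a, ha,
            by rw [he]⟩)).1 hv, a, ha, he⟩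
      unfold zer
      by_cases hc : ∃ v ∈ G, ∃ a, a < kap s l ∧ q = v.1 ++ un a
      · rw [if_pos hc, if_pos (hiff.1 hc)]
      · rw [if_neg hc, if_neg fun h' => hc (hiff.2 h')]

theorem sat_iff {s l : ℕ} {R : Oracle} (hR : marks R s (kap s l) = ∅)
    (x : Fin (jj l) ↪ List.Vector Bool s) (G : Finset (List.Vector Bool s)) :
    Sat (zer (kap s l) G R) s l (code x) ↔ AA vx x G := by
  have hld : ld (code x) = List.ofFn fun i => (x i).1 := ld_lc _
  constructor
  · rintro ⟨y, hy, hm⟩
    refine ⟨⟨y, hy⟩, fun i => ?_⟩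
    rw [← link_mark hR G]
    exact hm (x i).1 (by rw [hld, List.mem_ofFn]; exact ⟨i, rfl⟩)
  · rintro ⟨y, hy⟩
    refine ⟨y.1, y.2, fun u hu => ?_⟩
    rw [hld, List.mem_ofFn] at hu
    obtain ⟨i, rfl⟩ := hu
    exact (link_mark hR G (vx y (x i))).2 (hy i)

theorem fail_iff {V : Vp} {s l : ℕ} {A R : Oracle} (hR : marks R s (kap s l) = ∅)
    (G : Finset (List.Vector Bool s)) :
    Fail V A (zer (kap s l) G R) s l ↔ Fl vx (aa V true A R s l) (aa V false A R s l) G := by
  constructor
  · rintro ⟨u, hu, h⟩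
    obtain ⟨x, rfl⟩ := exists_code_of_isInst hu
    rw [sat_iff hR] at h
    refine ⟨x, ?_⟩
    rcases h with ⟨h1, h2⟩ | ⟨h1, h2⟩ | h
    · exact Or.inl ⟨h1, not_le.1 h2⟩
    · exact Or.inr (Or.inl ⟨h1, not_le.1 h2⟩)
    · exact Or.inr (Or.inr h)
  · rintro ⟨x, h⟩
    rw [← sat_iff hR] at h
    refine ⟨code x, isInst_code x, ?_⟩
    rcases h with ⟨h1, h2⟩ | ⟨h1, h2⟩ | h
    · exact Or.inl ⟨h1, not_le.2 h2⟩
    · exact Or.inr (Or.inl ⟨h1, not_le.2 h2⟩)
    · exact Or.inr (Or.inr h)

theorem inv_iff {V : Vp} {s l : ℕ} {A R : Oracle} (G : Finset (List.Vector Bool s)) :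
    Inv V A (zer (kap s l) G R) s l ↔ Iv (aa V true A R s l) (aa V false A R s l) G := by
  constructor
  · rintro ⟨u, hu, r, h⟩
    obtain ⟨x, rfl⟩ := exists_code_of_isInst hu
    exact ⟨x, r, h⟩
  · rintro ⟨x, r, h⟩
    exact ⟨code x, isInst_code x, r, h⟩

theorem win_iff {s l : ℕ} {R : Oracle} (hR : marks R s (kap s l) = ∅)
    (G : Finset (List.Vector Bool s)) :
    Win (zer (kap s l) G R) s l ↔ (al l ≤ G.card ∧ G.card < al l + jj l) := by
  unfold Win
  rw [link_marks hR G]

end Pool.Agent.ROP
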