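import Mathlib
import Pool.Agent.RO.LI
import Pool.Agent.ROP.Link
import Pool.Agent.ROP.CoE

set_option autoImplicit false

/-!
# The inequalities of one level
-/

namespace Pool.Agent.ROP

open MeasureTheory Pool.Agent.Helper22
open Pool.Agent.RO (Vp coin Dep)
open scoped ENNReal
open Pool.Agent.RO (wt zer marks Mark vx vx_comm vx_vx zer_measurable measurable_of_dep zer_of_lt)

private theorem wt_ind {s κ : ℕ} (ρ : ℝ≥0∞) (Φ : Set Oracle) (R : Oracle) :
    wt ρ (fun H : Finset (List.Vector Bool s) => zer κ H R ∈ Φ) =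
      ∑ H : Finset (List.Vector Bool s),
        ((zer κ H) ⁻¹' Φ).indicator (fun _ => ρ ^ H.card) R := by
  classical
  rw [wt, Finset.sum_filter]
  refine Finset.sum_congr rfl fun H _ => ?_
  rw [Set.indicator_apply]
  rfl

private theorem ind_meas {s κ : ℕ} (ρ : ℝ≥0∞) {Φ : Set Oracle} (hΦ : MeasurableSet Φ)
    (H : Finset (List.Vector Bool s)) :
    Measurable (((zer κ H) ⁻¹' Φ).indicator fun _ : Oracle => ρ ^ H.card) :=
  measurable_const.indicator (zer_measurable H hΦ)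

private theorem wt_meas {s κ : ℕ} (ρ : ℝ≥0∞) {Φ : Set Oracle} (hΦ : MeasurableSet Φ) :
    Measurable fun R : Oracle =>
      wt ρ (fun H : Finset (List.Vector Bool s) => zer κ H R ∈ Φ) := by
  have h1 : (fun R : Oracle => wt ρ (fun H : Finset (List.Vector Bool s) => zer κ H R ∈ Φ)) =
      fun R => ∑ H : Finset (List.Vector Bool s),
        ((zer κ H) ⁻¹' Φ).indicator (fun _ => ρ ^ H.card) R := funext fun R => wt_ind ρ Φ R
  rw [h1]
  exact Finset.measurable_fun_sum _ fun H _ => ind_meas ρ hΦ H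

private theorem marks_dep (s κ : ℕ) : Dep (s + κ) {R | marks R s κ = ∅} := by
  intro R R' h
  have h1 : marks R s κ = marks R' s κ := by
    classical
    rw [marks, marks]
    refine Finset.filter_congr fun w _ => ?_
    rw [Mark, Mark]
    refine forall_congr' fun a => forall_congr' fun ha => ?_
    rw [h (w.1 ++ un a)]
    rw [List.length_append, w.2]
    simp only [un, List.length_replicate]
    omega
  change marks R s κ = ∅ ↔ marks R' s κ = ∅
  rw [h1]

private theorem wt_congr {Λ : Type} [Fintype Λ] [DecidableEq Λ] (ρ : ℝ≥0∞)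
    {Φ Ψ : Finset Λ → Prop} (h : ∀ G, Φ G ↔ Ψ G) : wt ρ Φ = wt ρ Ψ := by
  have h1 : Φ = Ψ := funext fun G => propext (h G)
  rw [h1]

private theorem wt_false {Λ : Type} [Fintype Λ] [DecidableEq Λ] (ρ : ℝ≥0∞)
    {Φ : Finset Λ → Prop} (h : ∀ G, ¬ Φ G) : wt ρ Φ = 0 := by
  classical
  rw [wt, Finset.filter_false_of_mem fun G _ => h G, Finset.sum_empty]

private theorem numbers {s l h : ℕ} (hb : 100 * mu l ^ 2 * (h + 1) ≤ 2 ^ s) :
    1 ≤ kap s l ∧ 2 ^ s = mu l * 2 ^ kap s l := by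
  have h1 : mu l ^ 2 < 2 ^ s := by
    have h3 : 0 < mu l ^ 2 := by
      unfold mu
      positivity
    calc mu l ^ 2 < 100 * mu l ^ 2 * (h + 1) := by nlinarith
      _ ≤ 2 ^ s := hb
  rw [mu, ← pow_mul] at h1
  have h2 : (2 * tt l + 7) * 2 < s := (Nat.pow_lt_pow_iff_right (by norm_num)).1 h1
  refine ⟨by unfold kap; omega, ?_⟩
  rw [mu, ← pow_add]
  congr 1
  unfold kap
  omega

private theorem zer_mem {s κ : ℕ} {Y : Set Oracle} (hY : Dep s Y)
    (G : Finset (List.Vector Bool s)) (R : Oracle) : zer κ G R ∈ Y ↔ R ∈ Y :=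
  hY _ _ fun _ hw => zer_of_lt G R hw

private theorem core1 {V : Vp} {A : Oracle} {s l h : ℕ} (H : HB V s l h)
    (hb : 100 * mu l ^ 2 * (h + 1) ≤ 2 ^ s) {R : Oracle} (hR : marks R s (kap s l) = ∅) :
    wt (((2 ^ kap s l - 1 : ℕ) : ℝ≥0∞)⁻¹)
        (fun G : Finset (List.Vector Bool s) => ¬ Win (zer (kap s l) G R) s l) ≤
      84 * wt (((2 ^ kap s l - 1 : ℕ) : ℝ≥0∞)⁻¹)
        (fun G : Finset (List.Vector Bool s) => Inv V A (zer (kap s l) G R) s l) +
      (56 / (rho l : ℝ≥0∞)) * wt (((2 ^ kap s l - 1 : ℕ) : ℝ≥0∞)⁻¹)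
        (fun G : Finset (List.Vector Bool s) => Fail V A (zer (kap s l) G R) s l) := by
  obtain ⟨hκ, hs⟩ := numbers hb
  have hcard : Fintype.card (List.Vector Bool s) = 2 ^ s := by
    rw [card_vector, Fintype.card_bool]
  have h1 := core_wt l (op := vx) (fun x y => vx_comm x y) (fun x y => vx_vx x y)
    (P := h) (κ := kap s l) hκ (by rw [hcard, hs]) (by rw [hcard]; exact hb)
    (cert_aa H A R true) (cert_aa H A R false)
  rw [wt_congr _ (fun G => (fail_iff hR G).symm), wt_congr _ (fun G => (inv_iff G).symm),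
    wt_congr _ (fun G => (not_congr (win_iff hR G)).symm)] at h1
  exact h1

private theorem core2 {V : Vp} {A : Oracle} {s l h : ℕ} (H : HB V s l h)
    (hb : 100 * mu l ^ 2 * (h + 1) ≤ 2 ^ s) {R : Oracle} (hR : marks R s (kap s l) = ∅) :
    wt (((2 ^ kap s l - 1 : ℕ) : ℝ≥0∞)⁻¹) (fun _ : Finset (List.Vector Bool s) => True) ≤
      91 * 4 ^ mu l * wt (((2 ^ kap s l - 1 : ℕ) : ℝ≥0∞)⁻¹)
        (fun G : Finset (List.Vector Bool s) => Fail V A (zer (kap s l) G R) s l) := by
  obtain ⟨hκ, hs⟩ := numbers hb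
  have hcard : Fintype.card (List.Vector Bool s) = 2 ^ s := by
    rw [card_vector, Fintype.card_bool]
  have h1 := core_wt' l (op := vx) (fun x y => vx_comm x y) (fun x y => vx_vx x y)
    (P := h) (κ := kap s l) hκ (by rw [hcard, hs]) (by rw [hcard]; exact hb)
    (cert_aa H A R true) (cert_aa H A R false)
  rw [wt_congr _ (fun G => (fail_iff hR G).symm)] at h1
  exact h1

theorem level_i1 {V : Vp} {A : Oracle} {s l h : ℕ} (H : HB V s l h)
    (hb : 100 * mu l ^ 2 * (h + 1) ≤ 2 ^ s) {Y : Set Oracle} (hY : Dep s Y)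
    (hF : MeasurableSet {R | Fail V A R s l}) (hI : MeasurableSet {R | Inv V A R s l})
    (hW : MeasurableSet {R | Win R s l}) :
    coin (Y ∩ {R | ¬ Win R s l}) ≤ 84 * coin (Y ∩ {R | Inv V A R s l}) +
      (56 / (rho l : ℝ≥0∞)) * coin (Y ∩ {R | Fail V A R s l}) := by
  obtain ⟨hκ, hs⟩ := numbers hb
  have hYm := measurable_of_dep hY
  have hE := measurable_of_dep (marks_dep s (kap s l))
  have hW' : MeasurableSet {R : Oracle | ¬ Win R s l} := hW.compl
  rw [RO.key_int (s := s) hκ (hYm.inter hW'), RO.key_int (s := s) hκ (hYm.inter hI),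
    RO.key_int (s := s) hκ (hYm.inter hF), ← lintegral_const_mul _ (wt_meas _ (hYm.inter hI)),
    ← lintegral_const_mul _ (wt_meas _ (hYm.inter hF)),
    ← lintegral_add_left ((wt_meas _ (hYm.inter hI)).const_mul _)]
  refine setLIntegral_mono' hE fun R hR => ?_
  by_cases hRY : R ∈ Y
  · have h1 := core1 (A := A) H hb hR
    rw [wt_congr _ (Φ := fun G : Finset (List.Vector Bool s) => ¬ Win (zer (kap s l) G R) s l)
        (Ψ := fun G => zer (kap s l) G R ∈ Y ∩ {R | ¬ Win R s l})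
        (fun G => ⟨fun h => ⟨(zer_mem hY G R).2 hRY, h⟩, fun h => h.2⟩),
      wt_congr _ (Φ := fun G : Finset (List.Vector Bool s) => Inv V A (zer (kap s l) G R) s l)
        (Ψ := fun G => zer (kap s l) G R ∈ Y ∩ {R | Inv V A R s l})
        (fun G => ⟨fun h => ⟨(zer_mem hY G R).2 hRY, h⟩, fun h => h.2⟩),
      wt_congr _ (Φ := fun G : Finset (List.Vector Bool s) => Fail V A (zer (kap s l) G R) s l)
        (Ψ := fun G => zer (kap s l) G R ∈ Y ∩ {R | Fail V A R s l})
        (fun G => ⟨fun h => ⟨(zer_mem hY G R).2 hRY, h⟩, fun h => h.2⟩)] at h1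
    exact h1
  · rw [wt_false _ fun G h => hRY ((zer_mem hY G R).1 h.1)]
    exact zero_le

theorem level_i2 {V : Vp} {A : Oracle} {s l h : ℕ} (H : HB V s l h)
    (hb : 100 * mu l ^ 2 * (h + 1) ≤ 2 ^ s) {Y : Set Oracle} (hY : Dep s Y)
    (hF : MeasurableSet {R | Fail V A R s l}) :
    coin Y ≤ 91 * 4 ^ mu l * coin (Y ∩ {R | Fail V A R s l}) := by
  obtain ⟨hκ, hs⟩ := numbers hb
  have hYm := measurable_of_dep hY
  have hE := measurable_of_dep (marks_dep s (kap s l))
  rw [RO.key_int (s := s) hκ hYm, RO.key_int (s := s) hκ (hYm.inter hF),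
    ← lintegral_const_mul _ (wt_meas _ (hYm.inter hF))]
  refine setLIntegral_mono' hE fun R hR => ?_
  by_cases hRY : R ∈ Y
  · have h1 := core2 (A := A) H hb hR
    rw [wt_congr _ (Φ := fun _ : Finset (List.Vector Bool s) => True)
        (Ψ := fun G => zer (kap s l) G R ∈ Y)
        (fun G => ⟨fun _ => (zer_mem hY G R).2 hRY, fun _ => trivial⟩),
      wt_congr _ (Φ := fun G : Finset (List.Vector Bool s) => Fail V A (zer (kap s l) G R) s l)
        (Ψ := fun G => zer (kap s l) G R ∈ Y ∩ {R | Fail V A R s l})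
        (fun G => ⟨fun h => ⟨(zer_mem hY G R).2 hRY, h⟩, fun h => h.2⟩)] at h1
    exact h1
  · rw [wt_false _ fun G h => hRY ((zer_mem hY G R).1 h)]
    exact zero_le

end Pool.Agent.ROP
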