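import Mathlib
import Pool.Agent.ROP.Defs
import Pool.Agent.ROP.QdA
import Pool.Agent.RO.LinkA

set_option autoImplicit false

/-!
# ROP-QdB: four marks with sum zero

Union bound over the triples `(a, b, c)`; the fourth mark is `vx c (vx a b)`.
-/

namespace Pool.Agent.ROP

open MeasureTheory Pool.Agent.Helper22
open Pool.Agent.RO (coin)
open scoped ENNReal

private theorem qdb_inj {s : ℕ} {v v' : List.Vector Bool s} {i i' : ℕ}
    (h : v.1 ++ un i = v'.1 ++ un i') : v = v' ∧ i = i' := by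
  have h1 := List.append_inj h (by rw [v.2, v'.2])
  refine ⟨Subtype.ext h1.1, ?_⟩
  have h2 := congrArg List.length h1.2
  simpa [un_length] using h2

/-- the words which are not in the oracle if the words of `A` are marks -/
private def qdbF {s : ℕ} (κ : ℕ) (A : Finset (List.Vector Bool s)) : Finset (List Bool) :=
  (A ×ˢ Finset.range κ).image fun p => p.1.1 ++ un p.2

private theorem qdbF_card {s : ℕ} (κ : ℕ) (A : Finset (List.Vector Bool s)) :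
    (qdbF κ A).card = A.card * κ := by
  unfold qdbF
  rw [Finset.card_image_of_injOn, Finset.card_product, Finset.card_range]
  intro p _ q _ h
  obtain ⟨h1, h2⟩ := qdb_inj h
  exact Prod.ext h1 h2

private theorem qdb_marks {s κ : ℕ} {R : Oracle} (A : Finset (List.Vector Bool s))
    (h : ∀ v ∈ A, v ∈ Pool.Agent.RO.marks R s κ) : ∀ w ∈ qdbF κ A, R w = false := by
  intro w hw
  unfold qdbF at hw
  obtain ⟨p, hp, rfl⟩ := Finset.mem_image.1 hw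
  obtain ⟨h1, h2⟩ := Finset.mem_product.1 hp
  have h3 := h _ h1
  unfold Pool.Agent.RO.marks at h3
  have h4 : Pool.Agent.RO.Mark R κ p.1.1 := by
    classical
    exact (Finset.mem_filter.1 h3).2
  exact h4 _ (Finset.mem_range.1 h2)

private theorem qdb_num {s κ B : ℕ} (h : s = κ + B) :
    ((2 : ℝ≥0∞) ^ s) ^ 3 * (2⁻¹ : ℝ≥0∞) ^ (4 * κ) = (2 : ℝ≥0∞) ^ (4 * B) * (2⁻¹ : ℝ≥0∞) ^ s := by
  have h2 : (2 : ℝ≥0∞) * 2⁻¹ = 1 := ENNReal.mul_inv_cancel two_ne_zero ENNReal.ofNat_ne_top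
  have key : ∀ n : ℕ, (2 : ℝ≥0∞) ^ n * (2⁻¹ : ℝ≥0∞) ^ n = 1 := fun n => by
    rw [← mul_pow, h2, one_pow]
  have e1 : 4 * κ + 4 * B = 3 * s + s := by omega
  calc ((2 : ℝ≥0∞) ^ s) ^ 3 * (2⁻¹ : ℝ≥0∞) ^ (4 * κ)
      = ((2 : ℝ≥0∞) ^ s) ^ 3 * (2⁻¹ : ℝ≥0∞) ^ (4 * κ) *
          ((2 : ℝ≥0∞) ^ (4 * B) * (2⁻¹ : ℝ≥0∞) ^ (4 * B)) := by rw [key, mul_one]
    _ = (2 : ℝ≥0∞) ^ (4 * B) * (((2 : ℝ≥0∞) ^ s) ^ 3 *
          ((2⁻¹ : ℝ≥0∞) ^ (4 * κ) * (2⁻¹ : ℝ≥0∞) ^ (4 * B))) := by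
        rw [mul_left_comm, mul_assoc]
    _ = (2 : ℝ≥0∞) ^ (4 * B) * ((2 : ℝ≥0∞) ^ (3 * s) *
          ((2⁻¹ : ℝ≥0∞) ^ (3 * s) * (2⁻¹ : ℝ≥0∞) ^ s)) := by
        rw [← pow_add, e1, pow_add, ← pow_mul, mul_comm s 3]
    _ = (2 : ℝ≥0∞) ^ (4 * B) * (2⁻¹ : ℝ≥0∞) ^ s := by
        rw [← mul_assoc ((2 : ℝ≥0∞) ^ (3 * s)), key, one_mul]

theorem coin_quad {s l : ℕ} (hs : 2 * tt l + 7 ≤ s) :
    coin {R | Quad R s l} ≤ (2 : ℝ≥0∞) ^ (4 * (2 * tt l + 7)) * (2⁻¹ : ℝ≥0∞) ^ s := by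
  classical
  obtain ⟨κ, hκ⟩ : ∃ κ, κ = kap s l := ⟨_, rfl⟩
  have hs' : s = κ + (2 * tt l + 7) := by
    rw [hκ]
    unfold kap
    omega
  obtain ⟨A, hA⟩ : ∃ A : List.Vector Bool s × List.Vector Bool s × List.Vector Bool s →
      Finset (List.Vector Bool s), A = fun t =>
        {t.1, t.2.1, t.2.2, Pool.Agent.RO.vx t.2.2 (Pool.Agent.RO.vx t.1 t.2.1)} := ⟨_, rfl⟩
  obtain ⟨T, hT⟩ : ∃ T : Finset (List.Vector Bool s × List.Vector Bool s × List.Vector Bool s),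
      T = Finset.univ.filter fun t => (A t).card = 4 := ⟨_, rfl⟩
  have hsub : {R | Quad R s l} ⊆ ⋃ t ∈ T, {R : Oracle | ∀ w ∈ qdbF κ (A t), R w = false} := by
    rintro R ⟨a, b, c, d, ⟨⟨h1, h2, h3⟩, h4, h5, h6⟩, ⟨m1, m2, m3, m4⟩, hv⟩
    have hd : Pool.Agent.RO.vx c (Pool.Agent.RO.vx a b) = d := by
      rw [hv, Pool.Agent.RO.vx_vx]
    have hAt : A (a, b, c) = {a, b, c, d} := by
      rw [hA]
      show ({a, b, c, Pool.Agent.RO.vx c (Pool.Agent.RO.vx a b)} :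
        Finset (List.Vector Bool s)) = _
      rw [hd]
    have hc : ({a, b, c, d} : Finset (List.Vector Bool s)).card = 4 := by
      rw [Finset.card_insert_of_notMem, Finset.card_insert_of_notMem,
        Finset.card_insert_of_notMem, Finset.card_singleton]
      · rwa [Finset.mem_singleton]
      · rw [Finset.mem_insert, Finset.mem_singleton]
        tauto
      · rw [Finset.mem_insert, Finset.mem_insert, Finset.mem_singleton]
        tauto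
    refine Set.mem_iUnion₂.2 ⟨(a, b, c), ?_, ?_⟩
    · rw [hT]
      exact Finset.mem_filter.2 ⟨Finset.mem_univ _, by rw [hAt, hc]⟩
    · show ∀ w ∈ qdbF κ (A (a, b, c)), R w = false
      rw [hAt]
      refine qdb_marks _ ?_
      intro v hv'
      rw [hκ]
      rw [Finset.mem_insert, Finset.mem_insert, Finset.mem_insert, Finset.mem_singleton] at hv'
      rcases hv' with rfl | rfl | rfl | rfl
      · exact m1
      · exact m2
      · exact m3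
      · exact m4
  have hterm : ∀ t ∈ T, coin {R : Oracle | ∀ w ∈ qdbF κ (A t), R w = false} =
      (2⁻¹ : ℝ≥0∞) ^ (4 * κ) := by
    intro t ht
    rw [hT] at ht
    rw [coin_false, qdbF_card, (Finset.mem_filter.1 ht).2]
  have hcard : (T.card : ℝ≥0∞) ≤ ((2 : ℝ≥0∞) ^ s) ^ 3 := by
    have h1 : T.card ≤ (2 ^ s) ^ 3 := by
      refine (Finset.card_le_univ T).trans (le_of_eq ?_)
      rw [Fintype.card_prod, Fintype.card_prod, card_vector, Fintype.card_bool]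
      ring
    calc (T.card : ℝ≥0∞) ≤ (((2 ^ s) ^ 3 : ℕ) : ℝ≥0∞) := by exact_mod_cast h1
      _ = ((2 : ℝ≥0∞) ^ s) ^ 3 := by push_cast; rfl
  calc coin {R | Quad R s l}
      ≤ coin (⋃ t ∈ T, {R : Oracle | ∀ w ∈ qdbF κ (A t), R w = false}) := measure_mono hsub
    _ ≤ ∑ t ∈ T, coin {R : Oracle | ∀ w ∈ qdbF κ (A t), R w = false} :=
        measure_biUnion_finset_le _ _
    _ = ∑ _t ∈ T, (2⁻¹ : ℝ≥0∞) ^ (4 * κ) := Finset.sum_congr rfl hterm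
    _ = (T.card : ℝ≥0∞) * (2⁻¹ : ℝ≥0∞) ^ (4 * κ) := by rw [Finset.sum_const, nsmul_eq_mul]
    _ ≤ ((2 : ℝ≥0∞) ^ s) ^ 3 * (2⁻¹ : ℝ≥0∞) ^ (4 * κ) := by gcongr
    _ = (2 : ℝ≥0∞) ^ (4 * (2 * tt l + 7)) * (2⁻¹ : ℝ≥0∞) ^ s := qdb_num hs'

end Pool.Agent.ROP
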