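import Mathlib
import Pool.Agent.ROP.QdB

set_option autoImplicit false

/-!
# ROP-QdC (job): almost surely there are no quadruples from some level on

PLAN. Let `s_i = lev S i ≥ nb i` (`hS`). `coin_quad` (note `tt l ≤ tt i` for `l ≤ i`): for `l ≤ i`:
`coin {Quad R s_i l} ≤ 2^(4 (2 tt i + 7)) * (1/2)^s_i`. `s_i ≥ nb i = mu i ^ (4 mu i + 1) ≥ mu i = 2^(2 tt i + 7) = 2^(2i+13)`, and
`2^(2i+13) ≥ 4 (2i + 13) + 2 i + 2` (e.g. `2^(n) ≥ ..`: `2^(2i+13) = 8192 * 4^i ≥ 8192 (i + 1)`), so the bound is `≤ (1/2)^(2i+2)`; the union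
over `l ≤ i` has measure `≤ (i+1) (1/2)^(2i+2) ≤ (1/2)^i` (`i + 1 ≤ 2^(i+1)`), summable. Borel-Cantelli:
`MeasureTheory.ae_eventually_notMem` (or `measure_setOf_frequently_eq_zero`) for the sets `{R | ∃ l ≤ i, Quad R s_i l}`.
-/

namespace Pool.Agent.ROP

open MeasureTheory Pool.Agent.Helper22
open Pool.Agent.RO (coin lev)
open scoped ENNReal

private theorem qd_lev {S : ℕ} (hS : ∀ i, nb i ≤ lev S i) (i : ℕ) :
    4 * (2 * tt i + 7) + (2 * i + 2) ≤ lev S i := by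
  refine le_trans ?_ (hS i)
  have h1 : mu i ≤ nb i := by
    unfold nb
    have h0 : 0 < mu i := by
      unfold mu
      positivity
    calc mu i = mu i ^ 1 := (pow_one _).symm
      _ ≤ mu i ^ (4 * mu i + 1) := Nat.pow_le_pow_right h0 (by omega)
  refine le_trans ?_ h1
  unfold mu tt
  have h2 : i < 4 ^ i := Nat.lt_pow_self (by norm_num)
  have h3 : 2 ^ (2 * (i + 3) + 7) = 8192 * 4 ^ i := by
    rw [show 2 * (i + 3) + 7 = 13 + 2 * i by ring, pow_add, pow_mul]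
    norm_num
  rw [h3]
  omega

private theorem qd_half (a m : ℕ) : (2 : ℝ≥0∞) ^ a * (2⁻¹ : ℝ≥0∞) ^ (a + m) = (2⁻¹ : ℝ≥0∞) ^ m := by
  rw [pow_add, ← mul_assoc, ← mul_pow,
    ENNReal.mul_inv_cancel (by norm_num) ENNReal.ofNat_ne_top, one_pow, one_mul]

private theorem qd_one {S : ℕ} (hS : ∀ i, nb i ≤ lev S i) {i l : ℕ} (hl : l ≤ i) :
    coin {R | Quad R (lev S i) l} ≤ (2⁻¹ : ℝ≥0∞) ^ (2 * i + 2) := by
  have h1 := qd_lev hS i
  have h2 : tt l ≤ tt i := by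
    unfold tt
    omega
  obtain ⟨m, hm⟩ : ∃ m, lev S i = 4 * (2 * tt l + 7) + m := ⟨lev S i - 4 * (2 * tt l + 7), by omega⟩
  have h3 : 2 * i + 2 ≤ m := by omega
  refine (coin_quad (s := lev S i) (l := l) (by omega)).trans ?_
  rw [hm, qd_half]
  exact pow_le_pow_right_of_le_one' (by norm_num) h3

private theorem qd_all {S : ℕ} (hS : ∀ i, nb i ≤ lev S i) (i : ℕ) :
    coin {R | ∃ l, l ≤ i ∧ Quad R (lev S i) l} ≤ (2⁻¹ : ℝ≥0∞) ^ i := by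
  have h1 : {R | ∃ l, l ≤ i ∧ Quad R (lev S i) l} ⊆
      ⋃ l ∈ Finset.range (i + 1), {R | Quad R (lev S i) l} := by
    rintro R ⟨l, hl, hR⟩
    refine Set.mem_iUnion₂.2 ⟨l, Finset.mem_range.2 (by omega), hR⟩
  refine (measure_mono h1).trans ((measure_biUnion_finset_le _ _).trans ?_)
  have h2 : ∑ l ∈ Finset.range (i + 1), coin {R | Quad R (lev S i) l} ≤
      ∑ _l ∈ Finset.range (i + 1), (2⁻¹ : ℝ≥0∞) ^ (2 * i + 2) :=
    Finset.sum_le_sum fun l hl => qd_one hS (by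
      have := Finset.mem_range.1 hl
      omega)
  refine h2.trans ?_
  rw [Finset.sum_const, Finset.card_range, nsmul_eq_mul]
  have h3 : ((i + 1 : ℕ) : ℝ≥0∞) ≤ 2 ^ (i + 1) := by
    have : i + 1 < 2 ^ (i + 1) := Nat.lt_two_pow_self
    exact_mod_cast this.le
  calc ((i + 1 : ℕ) : ℝ≥0∞) * (2⁻¹ : ℝ≥0∞) ^ (2 * i + 2)
      ≤ 2 ^ (i + 1) * (2⁻¹ : ℝ≥0∞) ^ (2 * i + 2) := by gcongr
    _ = (2⁻¹ : ℝ≥0∞) ^ (i + 1) := by
      rw [show 2 * i + 2 = (i + 1) + (i + 1) by ring, qd_half]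
    _ ≤ (2⁻¹ : ℝ≥0∞) ^ i := pow_le_pow_right_of_le_one' (by norm_num) (by omega)

theorem ae_quad {S : ℕ} (hS : ∀ i, nb i ≤ lev S i) :
    ∀ᵐ R ∂coin, ∃ i₀, ∀ i, i₀ ≤ i → ∀ l, l ≤ i → ¬ Quad R (lev S i) l := by
  have h1 : ∑' i, coin {R | ∃ l, l ≤ i ∧ Quad R (lev S i) l} ≠ ∞ := by
    have h2 : ∑' i, coin {R | ∃ l, l ≤ i ∧ Quad R (lev S i) l} ≤ ∑' i : ℕ, (2⁻¹ : ℝ≥0∞) ^ i :=
      ENNReal.tsum_le_tsum fun i => qd_all hS i
    refine ne_top_of_le_ne_top ?_ h2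
    rw [ENNReal.tsum_geometric]
    norm_num
  filter_upwards [ae_eventually_notMem h1] with R hR
  obtain ⟨i₀, h2⟩ := Filter.eventually_atTop.1 hR
  exact ⟨i₀, fun i hi l hl hq => h2 i hi ⟨l, hl, hq⟩⟩

end Pool.Agent.ROP
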