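import Mathlib
import Pool.Agent.RO.AE
import Pool.Agent.ROP.LI
import Pool.Agent.ROP.Cg
import Pool.Agent.ROP.QdC

set_option autoImplicit false

/-!
# The almost sure statement for two verifiers
-/

namespace Pool.Agent.ROP

open MeasureTheory Pool.Agent.Helper22
open Pool.Agent.RO (Vp coin lev dep dep_le dep_mono measurable_of_dep mp_fail mp_bad lev_strictMono)
open scoped ENNReal

theorem cnt_le (V : Vp) (S : ℕ) (A R : Oracle) (i : ℕ) : cnt V S A R i ≤ i := by
  induction i with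
  | zero => exact le_rfl
  | succ i ih =>
    rw [cnt]
    split_ifs <;> omega

private theorem big_lt' {S i l h : ℕ} (hb : 100 * mu l ^ 2 * (h + 1) ≤ 2 ^ lev S i) :
    h < lev S (i + 1) := by
  have h1 : h + 1 ≤ 100 * mu l ^ 2 * (h + 1) := by
    refine Nat.le_mul_of_pos_left _ ?_
    have : 0 < mu l := by
      unfold mu
      positivity
    positivity
  have h2 : 2 ^ lev S i ≤ lev S (i + 1) := (Nat.lt_two_pow_self).le
  omega

theorem ae_main {V : Vp} {S : ℕ} (hS : Big V S) (A : Oracle) :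
    ∀ᵐ R ∂coin, (∀ l, ∃ i, cnt V S A R i = l ∧ Fail V A R (lev S i) l) ∧
      ((∀ i, ¬ Inv V A R (lev S i) (cnt V S A R i)) →
        ∃ i₀, ∀ i, i₀ ≤ i → Win R (lev S i) (cnt V S A R i) ∧
          ¬ Quad R (lev S i) (cnt V S A R i)) := by
  have hF : ∀ i l, l ≤ i → MeasurableSet[dep (lev S (i + 1))] {R | Fail V A R (lev S i) l} := by
    intro i l hl R R' h
    obtain ⟨_, k, hk, hb⟩ := hS i l hl
    exact fail_congr hk fun u hu => h u (lt_of_le_of_lt hu (big_lt' hb))
  have hI : ∀ i l, l ≤ i → MeasurableSet[dep (lev S (i + 1))] {R | Inv V A R (lev S i) l} := by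
    intro i l hl R R' h
    obtain ⟨_, k, hk, hb⟩ := hS i l hl
    exact inv_congr hk fun u hu => h u (lt_of_le_of_lt hu (big_lt' hb))
  have hW : ∀ i l, l ≤ i → MeasurableSet[dep (lev S (i + 1))] {R | ¬ Win R (lev S i) l} := by
    intro i l hl R R' h
    obtain ⟨_, k, hk, hb⟩ := hS i l hl
    exact not_congr (win_congr hk fun u hu => h u (lt_of_le_of_lt hu (big_lt' hb)))
  have hc0 : ∀ R, cnt V S A R 0 = 0 := fun _ => rfl
  have hc1 : ∀ i R, R ∈ {R | Fail V A R (lev S i) (cnt V S A R i)} →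
      cnt V S A R (i + 1) = cnt V S A R i + 1 := by
    intro i R h
    have h' : Fail V A R (lev S i) (cnt V S A R i) := h
    rw [cnt, if_pos h']
  have hc2 : ∀ i R, R ∉ {R | Fail V A R (lev S i) (cnt V S A R i)} →
      cnt V S A R (i + 1) = cnt V S A R i := by
    intro i R h
    have h' : ¬ Fail V A R (lev S i) (cnt V S A R i) := h
    rw [cnt, if_neg h', add_zero]
  have hmono : Monotone fun i => dep (lev S i) := dep_mono.comp (lev_strictMono S).monotone
  have h2 : ∀ i l, l ≤ i → ∀ Y, MeasurableSet[dep (lev S i)] Y →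
      coin Y ≤ 91 * 4 ^ mu l * coin (Y ∩ {R | Fail V A R (lev S i) l}) := by
    intro i l hl Y hY
    obtain ⟨_, k, hk, hb⟩ := hS i l hl
    exact level_i2 hk hb hY (measurable_of_dep (hF i l hl))
  have hrho : ∀ l : ℕ, (56 / (rho l : ℝ≥0∞)) = 56 / (2 : ℝ≥0∞) ^ (l + 3) := by
    intro l
    unfold rho tt
    push_cast
    ring
  have h1 : ∀ i l, l ≤ i → ∀ Y, MeasurableSet[dep (lev S i)] Y →
      coin (Y ∩ {R | ¬ Win R (lev S i) l}) ≤ 84 * coin (Y ∩ {R | Inv V A R (lev S i) l}) +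
        (56 / (2 : ℝ≥0∞) ^ (l + 3)) * coin (Y ∩ {R | Fail V A R (lev S i) l}) := by
    intro i l hl Y hY
    obtain ⟨_, k, hk, hb⟩ := hS i l hl
    rw [← hrho]
    refine level_i1 hk hb hY (measurable_of_dep (hF i l hl)) (measurable_of_dep (hI i l hl)) ?_
    have h3 := (measurable_of_dep (hW i l hl)).compl
    have h4 : {R | ¬ Win R (lev S i) l}ᶜ = {R | Win R (lev S i) l} := by
      ext R
      simp
    rwa [h4] at h3
  have hsum : ∑' l : ℕ, (56 / (2 : ℝ≥0∞) ^ (l + 3)) ≠ ⊤ := by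
    have h3 : ∀ l : ℕ, (56 / (2 : ℝ≥0∞) ^ (l + 3)) ≤ 56 * (2 : ℝ≥0∞)⁻¹ ^ l := by
      intro l
      rw [ENNReal.div_eq_inv_mul, mul_comm, ENNReal.inv_pow]
      refine mul_le_mul_right ?_ _
      exact pow_le_pow_right_of_le_one' (ENNReal.inv_le_one.2 (by norm_num)) (by omega)
    refine ne_top_of_le_ne_top ?_ (ENNReal.tsum_le_tsum h3)
    rw [ENNReal.tsum_mul_left, ENNReal.tsum_geometric]
    refine ENNReal.mul_ne_top (by norm_num) ?_
    rw [ENNReal.one_sub_inv_two, inv_inv]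
    norm_num
  have hA := mp_fail coin (fun i => dep (lev S i)) hmono (fun i => dep_le _)
    (fun i l => {R | Fail V A R (lev S i) l}) (fun i R => cnt V S A R i) hF hc0 hc1 hc2
    (fun l => 91 * 4 ^ mu l) (fun l => by
      refine ENNReal.mul_ne_top (by norm_num) (ENNReal.pow_ne_top (by norm_num))) h2
  have hB := mp_bad coin (fun i => dep (lev S i)) hmono (fun i => dep_le _)
    (fun i l => {R | Fail V A R (lev S i) l}) (fun i l => {R | Inv V A R (lev S i) l})
    (fun i l => {R | ¬ Win R (lev S i) l}) (fun i R => cnt V S A R i) hF hI hW hc0 hc1 hc2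
    84 (by norm_num) (fun l => 56 / (2 : ℝ≥0∞) ^ (l + 3)) hsum h1
  have hC := ae_quad (S := S) fun i => (hS i i le_rfl).1
  filter_upwards [hA, hB, hC] with R h3 h4 h7
  refine ⟨h3, fun h5 => ?_⟩
  obtain ⟨i₀, h6⟩ := h4 h5
  obtain ⟨i₁, h8⟩ := h7
  exact ⟨max i₀ i₁, fun i hi => ⟨not_not.1 (h6 i (le_trans (le_max_left _ _) hi)),
    h8 i (le_trans (le_max_right _ _) hi) _ (cnt_le V S A R i)⟩⟩

end Pool.Agent.ROP
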