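import Mathlib
import Pool.Agent.ROP.Par
import Pool.Agent.RO.CTq

set_option autoImplicit false

/-!
# ROP-C1a (job): a bound for everything which occurs at one level

ADAPT `Pool/Agent/RO/C1a.lean`. Let `B = 4 * mu l * (2 s + 1) + l + 9`. An instance has length `jj l * (2s+1) ≤ B`
(`inst_length`, `par_be`), `rl s l ≤ B^l + l` (`pe l ≤ l`: `c1a_pe` there), so `x = cd u w ∈ Dom s l` has length
`2 |u| + 1 + |w| ≤ 2 B + 1 + B^l + l ≤ B^(l+2)` (see `c1a_pads`; `B ≥ 9`), and `(pads l x).length ≤ (B^(l+2) + l + 9)^(l+2)`-like bound by the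
argument of `c1a_pads` again: `2 l + 1 + 2 |x| + 1 + |x|^l + l ≤ B^((l+3) * (l+2))`; everything is at most `Z = B^((l+3)^2)`. The witnesses, the numbers and the
lengths of the queries are bounded by a polynomial `F` in `Z`, and `F Z ≤ Z ^ e + e ≤ (Z + D) ^ D`, `D = e + 1`, as there.
-/

namespace Pool.Agent.ROP

open Pool.Agent.Helper22 N487b59b3
open Pool.Agent.RO (Vp pj pe pad pads qs qs_bound)

/-- the bound -/
def hbd (D s l : ℕ) : ℕ := ((4 * mu l * (2 * s + 1) + l + 9) ^ ((l + 3) ^ 2) + D) ^ D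

private theorem c1a_enum_length (n : ℕ) : (enum n).length ≤ n := by
  induction n with
  | zero => simp [enum]
  | succ n ih =>
    have h1 : enum (n + 1) = nxt (enum n) := by
      rw [enum, enum, Function.iterate_succ_apply']
    rw [h1]
    exact (nxt_length _).trans (Nat.succ_le_succ ih)

private theorem c1a_pj (l : ℕ) : (pj l).length ≤ l := (cf_length_le _).trans (c1a_enum_length l)

private theorem c1a_pe (l : ℕ) : pe l ≤ l :=
  (cf_length_le _).trans ((cs_length _).trans (c1a_enum_length l))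

private theorem c1a_le {l A B : ℕ} (hB : B = A + l + 9) : 2 * A + 1 + (B ^ l + l) ≤ B ^ (l + 2) := by
  have hB1 : 1 ≤ B := by omega
  have h4 : 1 ≤ B ^ l := Nat.one_le_pow _ _ hB1
  have e2 : B ^ (l + 2) = B ^ l * (B * B) := by ring
  have h6 : 9 * B ≤ B * B := Nat.mul_le_mul_right B (by omega)
  have h7 : B ^ l * (9 * B) ≤ B ^ l * (B * B) := Nat.mul_le_mul_left _ h6
  have h8 : 1 * B ≤ B ^ l * B := Nat.mul_le_mul_right B h4
  have h9 : B ^ l * 1 ≤ B ^ l * B := Nat.mul_le_mul_left _ hB1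
  have e3 : B ^ l * (9 * B) = 9 * (B ^ l * B) := by ring
  rw [e2]
  omega

private theorem c1a_le2 {l X : ℕ} (hX : l + 9 ≤ X) : 2 * l + 1 + (2 * X + 1 + (X ^ l + l)) ≤ X ^ (l + 2) := by
  have hB1 : 1 ≤ X := by omega
  have h4 : 1 ≤ X ^ l := Nat.one_le_pow _ _ hB1
  have e2 : X ^ (l + 2) = X ^ l * (X * X) := by ring
  have h6 : 9 * X ≤ X * X := Nat.mul_le_mul_right X (by omega)
  have h7 : X ^ l * (9 * X) ≤ X ^ l * (X * X) := Nat.mul_le_mul_left _ h6
  have h8 : 1 * X ≤ X ^ l * X := Nat.mul_le_mul_right X h4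
  have h9 : X ^ l * 1 ≤ X ^ l * X := Nat.mul_le_mul_left _ hB1
  have e3 : X ^ l * (9 * X) = 9 * (X ^ l * X) := by ring
  rw [e2]
  omega

private theorem c1a_jj (s l : ℕ) : jj l * (2 * s + 1) ≤ 4 * mu l * (2 * s + 1) := by
  refine Nat.mul_le_mul_right _ ?_
  have := par_be l
  omega

private theorem c1a_rl {s l A B : ℕ} (hA : A = 4 * mu l * (2 * s + 1)) (hB : B = A + l + 9) :
    rl s l ≤ B ^ l + l := by
  have h1 := c1a_jj s l
  have h2 := c1a_pe l
  have hB1 : 1 ≤ B := by omega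
  have h3 : (jj l * (2 * s + 1)) ^ pe l ≤ B ^ l :=
    (Nat.pow_le_pow_left (by omega : jj l * (2 * s + 1) ≤ B) _).trans
      (Nat.pow_le_pow_right hB1 h2)
  unfold rl
  omega

private theorem c1a_dom {s l A B : ℕ} (hA : A = 4 * mu l * (2 * s + 1)) (hB : B = A + l + 9)
    {x : List Bool} (hx : Dom s l x) : x.length ≤ B ^ (l + 2) := by
  obtain ⟨u, w, hu, hw, rfl⟩ := hx
  have h1 := inst_length hu
  have h2 := c1a_jj s l
  have h3 := c1a_rl hA hB
  have h4 := c1a_le hB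
  rw [cd_length]
  omega

private theorem c1a_pads {s l A B : ℕ} (hA : A = 4 * mu l * (2 * s + 1)) (hB : B = A + l + 9)
    {x : List Bool} (hx : Dom s l x) : (pads l x).length ≤ B ^ ((l + 3) ^ 2) := by
  have e1 : (pads l x).length =
      2 * (pj l).length + 1 + (2 * x.length + 1 + (x.length ^ pe l + pe l)) := by
    rw [pads, pad, cd_length, cd_length, un_length]
  have h0 := c1a_dom hA hB hx
  have h1 := c1a_pj l
  have h2 := c1a_pe l
  have hB1 : 1 ≤ B := by omega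
  set X : ℕ := B ^ (l + 2) with hX
  have hXB : B ≤ X := Nat.le_self_pow (by omega) _
  have h3 : x.length ^ pe l ≤ X ^ l :=
    (Nat.pow_le_pow_left h0 _).trans (Nat.pow_le_pow_right (by omega) h2)
  have h4 := c1a_le2 (l := l) (X := X) (by omega)
  have h5 : X ^ (l + 2) ≤ B ^ ((l + 3) ^ 2) := by
    rw [hX, ← pow_mul]
    exact Nat.pow_le_pow_right hB1 (by nlinarith)
  omega

private theorem c1a_pow (Z e : ℕ) : Z ^ e + e ≤ (Z + (e + 1)) ^ (e + 1) := by
  have h1 : Z ^ e ≤ (Z + (e + 1)) ^ e := Nat.pow_le_pow_left (by omega) _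
  have h2 : 1 ≤ (Z + (e + 1)) ^ e := Nat.one_le_pow _ _ (by omega)
  have h3 : 1 * e ≤ (Z + (e + 1)) ^ e * e := Nat.mul_le_mul_right _ h2
  have e1 : (Z + (e + 1)) ^ (e + 1) =
      (Z + (e + 1)) ^ e * Z + (Z + (e + 1)) ^ e * e + (Z + (e + 1)) ^ e := by ring
  rw [e1]
  omega

private theorem c1a_Z (Z e : ℕ) : Z ≤ (Z + (e + 1)) ^ (e + 1) := by
  have h1 : Z + (e + 1) ≤ (Z + (e + 1)) ^ (e + 1) := Nat.le_self_pow (by omega) _
  omega

/-- the polynomial bound for one of the procedures -/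
private theorem c1a_one (M : OracleProc (List Bool × List Bool) Bool) (p : Polynomial ℕ) :
    ∃ F : ℕ → ℕ, PB F ∧ (∀ n m, n ≤ m → p.eval n ≤ F m) ∧
      ∀ (R : Oracle) (z w : List Bool) (n : ℕ), z.length ≤ n → w.length ≤ p.eval z.length →
        (qs M R (z, w)).length ≤ F n ∧ ∀ q ∈ qs M R (z, w), q.length ≤ F n := by
  obtain ⟨B, hB, hBm, hq⟩ := qs_bound M
  refine ⟨fun n => p.eval n + B (6 * n + 1 + 3 * p.eval n), ?_, ?_, ?_⟩
  · refine (PB.poly p).add (hB.comp ?_)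
    exact (((PB.const 6).mul PB.id).add (PB.const 1)).add ((PB.const 3).mul (PB.poly p))
  · intro n m hnm
    exact (poly_mono p hnm).trans (Nat.le_add_right _ _)
  · intro R z w n hz hw
    have h1 : sz (z, w) ≤ 6 * n + 1 + 3 * p.eval n := by
      have h2 : p.eval z.length ≤ p.eval n := poly_mono p hz
      rw [sz_pair, sz_bits, sz_bits]
      omega
    have h3 := hBm h1
    obtain ⟨h4, h5⟩ := hq R (z, w)
    refine ⟨?_, ?_⟩
    · show (qs M R (z, w)).length ≤ p.eval n + B (6 * n + 1 + 3 * p.eval n)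
      omega
    · intro q hqq
      have h6 := h5 q hqq
      show q.length ≤ p.eval n + B (6 * n + 1 + 3 * p.eval n)
      omega

theorem exists_hb (V : Vp) : ∃ D, ∀ s l, HB V s l (hbd D s l) := by
  obtain ⟨F1, hF1, hm1, hq1⟩ := c1a_one (V true).1 (V true).2
  obtain ⟨F2, hF2, hm2, hq2⟩ := c1a_one (V false).1 (V false).2
  obtain ⟨p, hp⟩ := exists_poly (hF1.add hF2)
  obtain ⟨e, he⟩ := poly_le_pow p
  refine ⟨e + 1, ?_⟩
  intro s l
  obtain ⟨A, hA⟩ : ∃ A, A = 4 * mu l * (2 * s + 1) := ⟨_, rfl⟩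
  obtain ⟨B, hB⟩ : ∃ B, B = A + l + 9 := ⟨_, rfl⟩
  set Z : ℕ := B ^ ((l + 3) ^ 2) with hZ
  have hh : hbd (e + 1) s l = (Z + (e + 1)) ^ (e + 1) := by
    rw [hbd, ← hA, ← hB]
  have hF : F1 Z + F2 Z ≤ hbd (e + 1) s l := by
    rw [hh]
    exact ((hp Z).trans (he Z)).trans (c1a_pow Z e)
  have hAZ : B ≤ Z := Nat.le_self_pow (by positivity) _
  have hZh : Z ≤ hbd (e + 1) s l := by
    rw [hh]
    exact c1a_Z Z e
  have hB1 : 1 ≤ B := by omega
  have hXZ : B ^ (l + 2) ≤ Z := Nat.pow_le_pow_right hB1 (by nlinarith)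
  have hsA : 2 * s ≤ A := by
    have h1 : 1 ≤ 4 * mu l := by
      have := mu_pos l
      omega
    have h2 := Nat.mul_le_mul_right (2 * s + 1) h1
    omega
  have hb : ∀ b : Bool, (∀ n m, n ≤ m → (V b).2.eval n ≤ F1 m + F2 m) ∧
      ∀ (R : Oracle) (z w : List Bool) (n : ℕ), z.length ≤ n →
        w.length ≤ (V b).2.eval z.length →
        (qs (V b).1 R (z, w)).length ≤ F1 n + F2 n ∧
          ∀ q ∈ qs (V b).1 R (z, w), q.length ≤ F1 n + F2 n := by
    intro b
    cases b with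
    | true =>
      refine ⟨fun n m hnm => (hm1 n m hnm).trans (Nat.le_add_right _ _), ?_⟩
      intro R z w n hz hw
      obtain ⟨h1, h2⟩ := hq1 R z w n hz hw
      exact ⟨h1.trans (Nat.le_add_right _ _), fun q hq => (h2 q hq).trans (Nat.le_add_right _ _)⟩
    | false =>
      refine ⟨fun n m hnm => (hm2 n m hnm).trans (Nat.le_add_left _ _), ?_⟩
      intro R z w n hz hw
      obtain ⟨h1, h2⟩ := hq2 R z w n hz hw
      exact ⟨h1.trans (Nat.le_add_left _ _), fun q hq => (h2 q hq).trans (Nat.le_add_left _ _)⟩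
  refine ⟨?_, ?_, ?_, ?_, ?_, ?_, ?_⟩
  · omega
  · intro u hu
    have h1 := inst_length hu
    have h2 := c1a_jj s l
    omega
  · have h3 := c1a_rl hA hB
    have h4 := c1a_le hB
    omega
  · intro x hx
    exact (c1a_pads hA hB hx).trans hZh
  · intro x hx b
    exact ((hb b).1 _ _ (c1a_pads hA hB hx)).trans hF
  · intro x hx b R w hw
    exact ((hb b).2 R _ w Z (c1a_pads hA hB hx) hw).1.trans hF
  · intro x hx b R w hw q hq
    exact (((hb b).2 R _ w Z (c1a_pads hA hB hx) hw).2 q hq).trans hF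

end Pool.Agent.ROP
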