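import Mathlib
import Pool.Agent.ROP.C1a

set_option autoImplicit false

/-!
# ROP-C1b: the levels grow fast enough (arithmetic)
-/

namespace Pool.Agent.ROP

open Pool.Agent.Helper22 N487b59b3
open Pool.Agent.RO (Vp lev)

private lemma cb_two_mul_le_pow (x : ℕ) : 2 * x ≤ 2 ^ x := by
  rcases x with _ | x
  · simp
  · have h := (Nat.lt_two_pow_self (n := x))
    rw [pow_succ]
    omega

private lemma cb_four_mul_le (x : ℕ) : 4 * x ≤ 2 ^ (2 ^ x) := by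
  have h1 : x + 1 ≤ 2 ^ x := Nat.lt_two_pow_self
  have h2 : 2 ^ (x + 1) ≤ 2 ^ (2 ^ x) := Nat.pow_le_pow_right (by norm_num) h1
  have h3 := cb_two_mul_le_pow x
  rw [pow_succ] at h2
  omega

private lemma cb_lev_ge (S : ℕ) (i : ℕ) : S ≤ lev S i := by
  induction i with
  | zero => exact le_rfl
  | succ i ih =>
    have h := cb_four_mul_le (lev S i)
    have e : lev S (i + 1) = 2 ^ (2 ^ lev S i) := rfl
    rw [e]
    omega

private lemma cb_cube_le (m : ℕ) (hm : 10 ≤ m) : m ^ 3 ≤ 2 ^ m := by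
  induction m, hm using Nat.le_induction with
  | base => norm_num
  | succ m hm ih =>
    have h1 : (m + 1) ^ 3 ≤ 2 * m ^ 3 := by nlinarith [sq_nonneg (m : ℤ), mul_le_mul hm hm (by norm_num) (by omega)]
    calc (m + 1) ^ 3 ≤ 2 * m ^ 3 := h1
      _ ≤ 2 * 2 ^ m := by omega
      _ = 2 ^ (m + 1) := by rw [pow_succ]; ring

private lemma cb_exp_le (D m : ℕ) (hm : 10 * D + 100 ≤ m) :
    9 + 3 * m + ((m + 1) * m + D) * D ≤ 2 ^ m := by
  have h1 := cb_cube_le m (by omega)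
  refine le_trans ?_ h1
  have hD : 10 * D ≤ m := by omega
  have h2 : 10 * (((m + 1) * m + D) * D) ≤ ((m + 1) * m + m) * m := by
    calc 10 * (((m + 1) * m + D) * D) = ((m + 1) * m + D) * (10 * D) := by ring
      _ ≤ ((m + 1) * m + m) * m := Nat.mul_le_mul (by omega) hD
  have h3 : ((m + 1) * m + m) * m = m ^ 3 + 2 * m ^ 2 := by ring
  have h4 : 100 * m ^ 2 ≤ m ^ 3 := by
    rw [show m ^ 3 = m * m ^ 2 by ring]
    exact Nat.mul_le_mul_right _ (by omega)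
  have h5 : 100 * m ≤ m ^ 2 := by
    rw [show m ^ 2 = m * m by ring]
    exact Nat.mul_le_mul_right _ (by omega)
  rw [h3] at h2
  omega

private lemma cb_pow_add_le (a D : ℕ) : 2 ^ a + D ≤ 2 ^ (a + D) := by
  have h1 : 1 ≤ 2 ^ a := Nat.one_le_two_pow
  have h2 : D + 1 ≤ 2 ^ D := Nat.lt_two_pow_self
  rw [pow_add]
  nlinarith

private lemma cb_mu (l : ℕ) : mu l = 2 ^ (2 * l + 13) := by
  unfold mu tt
  congr 1

private lemma cb_mu_ge (l : ℕ) : 8 * l + 8192 ≤ 4 * mu l ∧ 8192 ≤ mu l ∧ 2 * l + 15 ≤ mu l := by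
  rw [cb_mu]
  have h1 : 2 * l < 2 ^ (2 * l) := Nat.lt_two_pow_self
  rw [pow_add]
  have h2 : (2 : ℕ) ^ 13 = 8192 := by norm_num
  rw [h2]
  refine ⟨?_, ?_, ?_⟩ <;> omega

private lemma cb_mu_sq (l : ℕ) : (l + 3) ^ 2 ≤ mu l := by
  rw [cb_mu, show 2 * l + 13 = (l + 3) + (l + 10) by ring, pow_add, sq]
  have h1 : l + 3 < 2 ^ (l + 3) := Nat.lt_two_pow_self
  have h2 : l + 10 < 2 ^ (l + 10) := Nat.lt_two_pow_self
  exact Nat.mul_le_mul h1.le (by omega)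

private lemma cb_nb_step (i : ℕ) : nb (i + 1) ≤ 2 ^ (2 ^ nb i) := by
  obtain ⟨M, hM⟩ : ∃ M, M = mu i := ⟨_, rfl⟩
  have h1 : nb (i + 1) = 2 ^ ((2 * i + 15) * (16 * M + 1)) := by
    have h2 : mu (i + 1) = 2 ^ (2 * i + 15) := by
      rw [cb_mu]
      congr 1
    have h3 : 4 * mu (i + 1) + 1 = 16 * M + 1 := by
      rw [h2, hM, cb_mu, show 2 * i + 15 = (2 * i + 13) + 2 by ring, pow_add]
      ring
    unfold nb
    rw [h3, h2, ← pow_mul]
  rw [h1]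
  apply Nat.pow_le_pow_right (by norm_num)
  obtain ⟨g1, g2, g3⟩ := cb_mu_ge i
  rw [← hM] at g1 g2 g3
  have h4 : (2 * i + 15) * (16 * M + 1) ≤ M ^ 3 := by
    have h5 : 16 * M + 1 ≤ M ^ 2 := by
      rw [sq]
      nlinarith
    calc (2 * i + 15) * (16 * M + 1) ≤ M * M ^ 2 := Nat.mul_le_mul g3 h5
      _ = M ^ 3 := by ring
  have h6 : M ^ 3 ≤ nb i := by
    unfold nb
    rw [← hM]
    exact Nat.pow_le_pow_right (by omega) (by omega)
  have h7 : nb i < 2 ^ nb i := Nat.lt_two_pow_self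
  omega

private lemma cb_nb_lev (S : ℕ) (hS : nb 0 ≤ S) (i : ℕ) : nb i ≤ lev S i := by
  induction i with
  | zero => exact hS
  | succ i ih =>
    have e : lev S (i + 1) = 2 ^ (2 ^ lev S i) := rfl
    rw [e]
    refine (cb_nb_step i).trans ?_
    exact Nat.pow_le_pow_right (by norm_num) (Nat.pow_le_pow_right (by norm_num) ih)

private lemma cb_nb_mono {l i : ℕ} (h : l ≤ i) : nb l ≤ nb i := by
  have h1 : mu l ≤ mu i := by
    rw [cb_mu, cb_mu]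
    exact Nat.pow_le_pow_right (by norm_num) (by omega)
  obtain ⟨_, g2, _⟩ := cb_mu_ge i
  unfold nb
  exact (Nat.pow_le_pow_left h1 _).trans (Nat.pow_le_pow_right (by omega) (by omega))

private lemma cb_key (D s l : ℕ) (h4 : nb l ≤ s) (hs : 2 ^ (10 * D + 100) ≤ s) :
    100 * mu l ^ 2 * (hbd D s l + 1) ≤ 2 ^ s := by
  obtain ⟨m, hm⟩ : ∃ m, m = Nat.log 2 s := ⟨_, rfl⟩
  have hs0 : s ≠ 0 := by
    have : 1 ≤ 2 ^ (10 * D + 100) := Nat.one_le_two_pow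
    omega
  have hm1 : 2 ^ m ≤ s := by
    rw [hm]
    exact Nat.pow_log_le_self 2 hs0
  have hm2 : s < 2 ^ (m + 1) := by
    rw [hm]
    exact Nat.lt_pow_succ_log_self (by norm_num) s
  have hmD : 10 * D + 100 ≤ m := by
    by_contra hlt
    have : 2 ^ (m + 1) ≤ 2 ^ (10 * D + 100) := Nat.pow_le_pow_right (by norm_num) (by omega)
    omega
  obtain ⟨M, hM⟩ : ∃ M, M = mu l := ⟨_, rfl⟩
  obtain ⟨g1, g2, g3⟩ := cb_mu_ge l
  have g4 := cb_mu_sq l
  rw [← hM] at g1 g2 g3 g4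
  have hl : 4 * M ≤ m := by
    by_contra hlt
    have h5 : 2 ^ (m + 1) ≤ 2 ^ (4 * M + 1) := Nat.pow_le_pow_right (by norm_num) (by omega)
    have h6 : 2 ^ (4 * M + 1) ≤ nb l := by
      unfold nb
      rw [← hM]
      exact Nat.pow_le_pow_left (by omega) _
    omega
  have hms : m < 2 ^ m := Nat.lt_two_pow_self
  have hB : 4 * M * (2 * s + 1) + l + 9 ≤ s ^ 3 := by
    have h8 : 4 * M * (2 * s + 1) ≤ 3 * s ^ 2 := by
      calc 4 * M * (2 * s + 1) ≤ s * (3 * s) := Nat.mul_le_mul (by omega) (by omega)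
        _ = 3 * s ^ 2 := by ring
    have h9 : s ≤ s ^ 2 := by
      rw [show s ^ 2 = s * s by ring]
      exact Nat.le_mul_of_pos_left s (by omega)
    have h10 : 4 * s ^ 2 ≤ s ^ 3 := by
      rw [show s ^ 3 = s * s ^ 2 by ring]
      exact Nat.mul_le_mul_right _ (by omega)
    omega
  have hpow : (4 * M * (2 * s + 1) + l + 9) ^ ((l + 3) ^ 2) ≤ 2 ^ ((m + 1) * m) := by
    calc (4 * M * (2 * s + 1) + l + 9) ^ ((l + 3) ^ 2) ≤ (s ^ 3) ^ ((l + 3) ^ 2) :=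
          Nat.pow_le_pow_left hB _
      _ = s ^ (3 * (l + 3) ^ 2) := by rw [← pow_mul]
      _ ≤ (2 ^ (m + 1)) ^ (3 * (l + 3) ^ 2) := Nat.pow_le_pow_left hm2.le _
      _ = 2 ^ ((m + 1) * (3 * (l + 3) ^ 2)) := by rw [← pow_mul]
      _ ≤ 2 ^ ((m + 1) * m) := Nat.pow_le_pow_right (by norm_num)
          (Nat.mul_le_mul_left _ (by omega))
  have hh : hbd D s l ≤ 2 ^ (((m + 1) * m + D) * D) := by
    unfold hbd
    rw [← hM]
    calc ((4 * M * (2 * s + 1) + l + 9) ^ ((l + 3) ^ 2) + D) ^ D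
        ≤ (2 ^ ((m + 1) * m) + D) ^ D := Nat.pow_le_pow_left (by omega) _
      _ ≤ (2 ^ ((m + 1) * m + D)) ^ D := Nat.pow_le_pow_left (cb_pow_add_le _ _) _
      _ = 2 ^ (((m + 1) * m + D) * D) := by rw [← pow_mul]
  have hh1 : hbd D s l + 1 ≤ 2 ^ (((m + 1) * m + D) * D + 1) := by
    have : 1 ≤ 2 ^ (((m + 1) * m + D) * D) := Nat.one_le_two_pow
    rw [pow_succ]
    omega
  have hM2 : M ^ 2 ≤ 2 ^ (2 * m) := by
    rw [mul_comm 2 m, pow_mul]
    exact Nat.pow_le_pow_left (by omega) 2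
  rw [← hM]
  calc 100 * M ^ 2 * (hbd D s l + 1)
      ≤ 2 ^ 7 * 2 ^ (2 * m) * 2 ^ (((m + 1) * m + D) * D + 1) :=
        Nat.mul_le_mul (Nat.mul_le_mul (by norm_num) hM2) hh1
    _ = 2 ^ (7 + 2 * m + (((m + 1) * m + D) * D + 1)) := by
        rw [← pow_add, ← pow_add]
    _ ≤ 2 ^ s := by
        apply Nat.pow_le_pow_right (by norm_num)
        have h10 := cb_exp_le D m hmD
        omega

theorem exists_lev (D : ℕ) : ∃ S, ∀ i l, l ≤ i → nb l ≤ lev S i ∧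
    100 * mu l ^ 2 * (hbd D (lev S i) l + 1) ≤ 2 ^ lev S i := by
  refine ⟨nb 0 + 2 ^ (10 * D + 100), ?_⟩
  intro i l hli
  have h1 : nb l ≤ lev (nb 0 + 2 ^ (10 * D + 100)) i :=
    (cb_nb_mono hli).trans (cb_nb_lev _ (Nat.le_add_right _ _) i)
  refine ⟨h1, cb_key D _ l h1 ?_⟩
  exact (Nat.le_add_left _ _).trans (cb_lev_ge _ i)

theorem exists_big (V : Vp) : ∃ S, Big V S := by
  obtain ⟨D, hD⟩ := exists_hb V
  obtain ⟨S, hS⟩ := exists_lev D
  exact ⟨S, fun i l hli => ⟨(hS i l hli).1, hbd D (lev S i) l, hD _ _, (hS i l hli).2⟩⟩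

end Pool.Agent.ROP
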