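import Mathlib
import Pool.Agent.ROP.CIns
import Pool.Agent.RO.Pr

set_option autoImplicit false

/-!
# ROP-CMaj (job): the majority of the random words, correctness

PLAN. * `enum` is injective: e.g. define `dv [] = 0`, `dv (false :: w) = 2 dv w + 1`, `dv (true :: w) = 2 dv w + 2`; then `dv (enum n) = n`
  (`enum_odd`, `enum_even` in `Pool/Agent/Helper22/Enum.lean`, strong induction). So `strs r = (List.range |r|).map enum` has no repetition.
* `mem_rw`: `|rlU r l u| = |u|^(pe l) + pe l = rl s l` if this is at most `|r|` (`enumU_eq`, `pw_eq`, `un_length`; `inst_length`; see `padB_eq` in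
  `Pool/Agent/RO/CAcc.lean`), and every word of length `rl s l ≤ h` is in `strs r` (`Hrd.mem_strs_of_length`).
* So `rw' r l u` is a list without repetition whose elements are exactly the words of length `n = rl s l`: its length is `2^n`
  (`card_vector`), and for a predicate `q` the length of `(rw' r l u).filter q` is the number of the `w : List.Vector Bool n` with
  `q w.1` (compare the Finsets `(rw' r l u).toFinset` and the image of `Finset.univ.filter ..` under `Subtype.val`). Then
  `2 * 2^n ≤ 3 * count ↔ 2/3 ≤ pr ..` (`RO.pr` is `count / card`), and `accB_iff` (`ROP/CIns`) for `cd u w ∈ Dom`.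
* `bothB_iff`: `List.any_eq_true`, `mem_rw`, `accB_iff`.
-/

namespace Pool.Agent.ROP

open N68a2faeb N793a5b8e N487b59b3 Pool.Agent.Helper22
open Pool.Agent.Helper20.Cons (join Po cRun)
open Pool.Agent.RO (Vp)

private def dv : List Bool → ℕ
  | [] => 0
  | false :: w => 2 * dv w + 1
  | true :: w => 2 * dv w + 2

private theorem dv_enum (n : ℕ) : dv (enum n) = n := by
  induction n using Nat.strong_induction_on with
  | _ n ih =>
    rcases Nat.even_or_odd' n with ⟨k, hk | hk⟩
    · rcases Nat.eq_zero_or_pos k with h0 | h0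
      · subst h0
        rw [hk]
        rfl
      · obtain ⟨m, rfl⟩ : ∃ m, k = m + 1 := ⟨k - 1, by omega⟩
        have e : n = 2 * m + 2 := by omega
        rw [e, enum_even, dv, ih m (by omega)]
    · rw [hk, enum_odd, dv, ih k (by omega)]

private theorem strs_nodup (t : List Bool) : (strs t).Nodup := by
  rw [strs]
  exact List.Nodup.map (Function.LeftInverse.injective dv_enum) List.nodup_range

private theorem rlU_length {r l u : List Bool} {s : ℕ} (hu : u.length = jj l.length * (2 * s + 1))
    (h : rl s l.length ≤ r.length) : (rlU r l u).length = rl s l.length := by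
  rw [rlU, enumU_eq, pw_eq, List.length_append, un_length, un_length, rl, ← hu]
  rw [rl, ← hu, RO.pe] at h
  rw [RO.pe, min_eq_left (by omega)]

private theorem mem_rw {V : Vp} {r : List Bool} {s h : ℕ} {l u : List Bool}
    (hb : HB V s l.length h) (hr : 2 ^ (h + 1) ≤ r.length) (hu : IsInst s l.length u)
    (w : List Bool) : w ∈ rw' r l u ↔ w.length = rl s l.length := by
  have h0 : h < 2 ^ (h + 1) := lt_trans (Nat.lt_succ_self h) Nat.lt_two_pow_self
  have h1 := hb.rnd
  rw [rw', List.mem_filter, leneq_iff, rlU_length (inst_length hu) (by omega)]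
  refine ⟨fun h => h.2, fun hw => ⟨Hrd.mem_strs_of_length (le_trans ?_ hr), hw⟩⟩
  exact Nat.pow_le_pow_right (by norm_num) (by omega)

open Classical in
private theorem len_count {n : ℕ} {L : List (List Bool)} (hL : L.Nodup) (q : List Bool → Prop)
    (h : ∀ w, w ∈ L ↔ w.length = n ∧ q w) :
    L.length = (Finset.univ.filter fun w : List.Vector Bool n => q w.1).card := by
  rw [← List.toFinset_card_of_nodup hL]
  have e : L.toFinset = (Finset.univ.filter fun w : List.Vector Bool n => q w.1).image
      (fun v : List.Vector Bool n => v.1) := by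
    ext w
    rw [List.mem_toFinset, h, Finset.mem_image]
    constructor
    · rintro ⟨h1, h2⟩
      exact ⟨(⟨w, h1⟩ : List.Vector Bool n), Finset.mem_filter.2 ⟨Finset.mem_univ _, h2⟩, rfl⟩
    · rintro ⟨v, hv, rfl⟩
      exact ⟨v.2, (Finset.mem_filter.1 hv).2⟩
  rw [e, Finset.card_image_of_injective]
  intro a b hab
  exact Subtype.ext hab

theorem majB_iff {V : Vp} {b : Bool} {r : List Bool} {T : List (List Bool)} {A R : Oracle}
    {s h : ℕ} {l u : List Bool} (hb : HB V s l.length h) (hr : 2 ^ (h + 1) ≤ r.length)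
    (hT : ∀ w : List Bool, w.length ≤ h → wmem T w = join A R w) (hu : IsInst s l.length u) :
    majB V b r T l u = true ↔ Maj V b A R s l.length u := by
  classical
  have hrw := mem_rw hb hr hu
  have hnd : (rw' r l u).Nodup := List.Nodup.filter _ (strs_nodup r)
  have e1 : (rw' r l u).length = 2 ^ rl s l.length := by
    rw [len_count hnd (fun _ => True) fun w => by rw [hrw, and_true]]
    simp
  have e2 : (aw' V b r T l u).length = (Finset.univ.filter fun w : List.Vector Bool
      (rl s l.length) => ROA.acc V b A R l.length (cd u w.1)).card := by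
    refine len_count (List.Nodup.filter _ hnd) (fun w => ROA.acc V b A R l.length (cd u w)) ?_
    intro w
    rw [List.mem_filter, hrw]
    refine and_congr_right fun hw => ?_
    exact accB_iff hb hr hT ⟨u, w, hu, hw, rfl⟩
  rw [majB, decide_eq_true_eq, List.length_append, List.length_append, List.length_append,
    un_length, un_length, e1, e2, Maj, RO.pr]
  have hc : (Fintype.card (List.Vector Bool (rl s l.length)) : ℝ) = 2 ^ rl s l.length := by
    simp
  rw [hc, le_div_iff₀ (by positivity)]
  obtain ⟨c, hcd⟩ : ∃ c : ℕ, c = (Finset.univ.filter fun w : List.Vector Bool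
      (rl s l.length) => ROA.acc V b A R l.length (cd u w.1)).card := ⟨_, rfl⟩
  have hcc : (Finset.univ.filter fun w : List.Vector Bool
      (rl s l.length) => ROA.acc V b A R l.length (cd u w.1)).card = c := hcd.symm
  rw [hcc]
  obtain ⟨N, hN⟩ : ∃ N : ℕ, N = 2 ^ rl s l.length := ⟨_, rfl⟩
  have hNR : (2 : ℝ) ^ rl s l.length = N := by
    rw [hN]
    push_cast
    ring
  rw [hNR, ← hN]
  constructor
  · intro h
    have h' : ((N + N : ℕ) : ℝ) ≤ ((c + (c + c) : ℕ) : ℝ) := by exact_mod_cast h
    push_cast at h'
    linarith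
  · intro h
    have h' : ((N + N : ℕ) : ℝ) ≤ ((c + (c + c) : ℕ) : ℝ) := by
      push_cast
      linarith
    exact_mod_cast h'

theorem bothB_iff {V : Vp} {r : List Bool} {T : List (List Bool)} {A R : Oracle}
    {s h : ℕ} {l u : List Bool} (hb : HB V s l.length h) (hr : 2 ^ (h + 1) ≤ r.length)
    (hT : ∀ w : List Bool, w.length ≤ h → wmem T w = join A R w) (hu : IsInst s l.length u) :
    bothB V r T l u = true ↔ Both V A R s l.length u := by
  have hrw := mem_rw hb hr hu
  rw [bothB, List.any_eq_true, Both]
  constructor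
  · rintro ⟨w, hw, h1⟩
    rw [hrw] at hw
    rw [Bool.and_eq_true, accB_iff hb hr hT ⟨u, w, hu, hw, rfl⟩,
      accB_iff hb hr hT ⟨u, w, hu, hw, rfl⟩] at h1
    exact ⟨⟨w, hw⟩, h1⟩
  · rintro ⟨w, h1⟩
    refine ⟨w.1, (hrw w.1).2 w.2, ?_⟩
    rw [Bool.and_eq_true, accB_iff hb hr hT ⟨u, w.1, hu, w.2, rfl⟩,
      accB_iff hb hr hT ⟨u, w.1, hu, w.2, rfl⟩]
    exact h1

end Pool.Agent.ROP
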