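import Mathlib
import Pool.Agent.ROP.CMaj

set_option autoImplicit false

/-!
# ROP-CFail: the bounded version of failure is correct
-/

namespace Pool.Agent.ROP

open N68a2faeb N793a5b8e N487b59b3 Pool.Agent.Helper22
open Pool.Agent.Helper20.Cons (join Po cRun)
open Pool.Agent.RO (Vp)

theorem failB_iff {V : Vp} {r : List Bool} {T : List (List Bool)} {A R : Oracle}
    {h : ℕ} {s l : List Bool} (hn : nb l.length ≤ s.length) (hb : HB V s.length l.length h)
    (hr : 2 ^ (h + 1) ≤ r.length)
    (hT : ∀ w : List Bool, w.length ≤ h → wmem T w = join A R w) :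
    failB V r T s l = true ↔ Fail V A R s.length l.length := by
  have key : ∀ u, IsInst s.length l.length u →
      (((satB r T s l u && !majB V true r T l u) ||
        ((!satB r T s l u && !majB V false r T l u) || bothB V r T l u)) = true ↔
      ((Sat R s.length l.length u ∧ ¬ Maj V true A R s.length l.length u) ∨
        (¬ Sat R s.length l.length u ∧ ¬ Maj V false A R s.length l.length u) ∨
          Both V A R s.length l.length u)) := by
    intro u hu
    rw [← satB_iff hb.two hr hT hu, ← majB_iff hb hr hT hu, ← majB_iff hb hr hT hu,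
      ← bothB_iff hb hr hT hu]
    cases satB r T s l u <;> cases majB V true r T l u <;> cases majB V false r T l u <;>
      cases bothB V r T l u <;> simp
  rw [failB, List.any_eq_true, Fail]
  constructor
  · rintro ⟨u, -, hu⟩
    rw [Bool.and_eq_true, instB_iff hn] at hu
    exact ⟨u, hu.1, (key u hu.1).1 hu.2⟩
  · rintro ⟨u, hu1, hu2⟩
    refine ⟨u, Hrd.mem_strs_of_length (le_trans ?_ hr), ?_⟩
    · have := hb.inst u hu1
      exact Nat.pow_le_pow_right (by norm_num) (by omega)
    · rw [Bool.and_eq_true, instB_iff hn]
      exact ⟨hu1, (key u hu1).2 hu2⟩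

end Pool.Agent.ROP
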