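import Mathlib
import Pool.Agent.ROP.Defs
import Pool.Agent.RO.CTk

set_option autoImplicit false

/-!
# ROP-Cod (job): codes of randomized reductions

PLAN. As `RO.KK_univ` in `Pool/Agent/RO/CTk.lean`. `Pool.Agent.Helper20.Cons.exists_codeG M dec hdec wo hwo` with
`M : OracleProc (List Bool × List Bool) _`, `dec y = (cf y, (cs y).take (p.eval (cf y).length))` (in FP: `FP.take`, `FP.un_poly`: `take` takes the length of a
word in unary; `(un (p.eval n)).length = p.eval n`), `wo b = b` resp. `wo b = [b]`. It gives `j` and `P` with `PB P`; `RO.exists_poly` (or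
`exists_poly`) turns `P` into a polynomial `p'`, `poly_le_pow (p + p')` gives `e` with `p.eval n + p'.eval n ≤ n ^ e + e`. With `y = cd u w`: `cf y = u`,
`cs y = w` (`cf_cd`, `cs_cd`), and `pad j e y = cd j (cd y (un (|y|^e + e)))`.
-/

namespace Pool.Agent.ROP

open N68a2faeb N793a5b8e N487b59b3 Pool.Agent.Helper22
open Pool.Agent.Helper20.Cons (join Po cRun cRunW)

private theorem cod_dec (p : Polynomial ℕ) : FP fun y : List Bool =>
    ((cf y, (cs y).take (p.eval (cf y).length)) : List Bool × List Bool) := by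
  have h1 : FP fun y : List Bool => (cs y).take (un (p.eval (cf y).length)).length :=
    FP.take (by fun_prop) (FP.un_poly (by fun_prop) p)
  have h2 : FP fun y : List Bool => (cs y).take (p.eval (cf y).length) := by
    simpa only [un_length] using h1
  exact FP.pair (by fun_prop) h2

theorem cod_word (f : OracleProc (List Bool × List Bool) (List Bool)) (p : Polynomial ℕ) :
    ∃ (j : List Bool) (e : ℕ), (∀ n, p.eval n ≤ n ^ e + e) ∧ ∀ (X : Oracle) (u w : List Bool),
      cRunW j (un ((cd u w).length ^ e + e)) (cd u w) X =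
        f.run X (u, w.take (p.eval u.length)) := by
  obtain ⟨j, P, hP, hPm, hj⟩ := Pool.Agent.Helper20.Cons.exists_codeG f _ (cod_dec p)
    (fun b : List Bool => b) FP.id
  obtain ⟨q, hq⟩ := exists_poly hP
  obtain ⟨e, he⟩ := poly_le_pow (p + q)
  have he' : ∀ n, p.eval n + q.eval n ≤ n ^ e + e := by
    intro n
    rw [← Polynomial.eval_add]
    exact he n
  refine ⟨j, e, fun n => le_trans (Nat.le_add_right _ _) (he' n), fun X u w => ?_⟩
  have h1 := (hj X (cd u w) (un ((cd u w).length ^ e + e)) (by
    rw [un_length]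
    exact (hq _).trans (le_trans (Nat.le_add_left _ _) (he' _)))).1
  rw [h1, cf_cd, cs_cd]

theorem cod_bool (M : OracleProc (List Bool × List Bool) Bool) (p : Polynomial ℕ) :
    ∃ (j : List Bool) (e : ℕ), (∀ n, p.eval n ≤ n ^ e + e) ∧ ∀ (X : Oracle) (u w : List Bool),
      cRun j (un ((cd u w).length ^ e + e)) (cd u w) X =
        M.run X (u, w.take (p.eval u.length)) := by
  obtain ⟨j, P, hP, hPm, hj⟩ := Pool.Agent.Helper20.Cons.exists_codeG M _ (cod_dec p)
    (fun b : Bool => [b]) (by fun_prop)
  obtain ⟨q, hq⟩ := exists_poly hP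
  obtain ⟨e, he⟩ := poly_le_pow (p + q)
  have he' : ∀ n, p.eval n + q.eval n ≤ n ^ e + e := by
    intro n
    rw [← Polynomial.eval_add]
    exact he n
  refine ⟨j, e, fun n => le_trans (Nat.le_add_right _ _) (he' n), fun X u w => ?_⟩
  have h1 := (hj X (cd u w) (un ((cd u w).length ^ e + e)) (by
    rw [un_length]
    exact (hq _).trans (le_trans (Nat.le_add_left _ _) (he' _)))).2
  rw [h1, cf_cd, cs_cd]
  rfl

end Pool.Agent.ROP
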