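import Mathlib
import Pool.Agent.ROP.Defs
import Pool.Agent.RO.Pr

set_option autoImplicit false

/-!
# ROP-Prb (job): the first letters of a random word

PLAN. `prob n P = RO.pr (fun w : List.Vector Bool n => P w.1)`. `RO.pr_fibre` with `f w = ⟨w.1.take m, _⟩ : List.Vector Bool m` and `c = 2^(n-m)`:
the fibre over `v` is in bijection with `List.Vector Bool (n - m)` (`w ↦ w.drop m`, inverse `x ↦ v ++ x`; `Nat.card_congr`, `card_vector`).
-/

namespace Pool.Agent.ROP

private def tk {m n : ℕ} (h : m ≤ n) (w : List.Vector Bool n) : List.Vector Bool m :=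
  ⟨w.1.take m, by rw [List.length_take, w.2]; omega⟩

private def fib {m n : ℕ} (h : m ≤ n) (v : List.Vector Bool m) :
    {w : List.Vector Bool n // tk h w = v} ≃ List.Vector Bool (n - m) where
  toFun w := ⟨w.1.1.drop m, by rw [List.length_drop, w.1.2]⟩
  invFun x := ⟨⟨v.1 ++ x.1, by rw [List.length_append, v.2, x.2]; omega⟩,
    Subtype.ext (List.take_left' v.2)⟩
  left_inv w := by
    refine Subtype.ext (Subtype.ext ?_)
    have h1 : w.1.1.take m = v.1 := congrArg Subtype.val w.2
    show v.1 ++ w.1.1.drop m = w.1.1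
    rw [← h1, List.take_append_drop]
  right_inv x := by
    refine Subtype.ext ?_
    exact List.drop_left' v.2

theorem prob_take {m n : ℕ} (h : m ≤ n) (P : List Bool → Prop) :
    prob n (fun w => P (w.take m)) = prob m P := by
  unfold prob
  refine RO.pr_fibre (Ω := List.Vector Bool n) (Ω' := List.Vector Bool m) (f := tk h)
    (c := 2 ^ (n - m)) (by positivity) (fun v => ?_) (fun v => P v.1)
  rw [Nat.card_congr (fib h v), Nat.card_eq_fintype_card, card_vector, Fintype.card_bool]

end Pool.Agent.ROP
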