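import Mathlib
import Pool.Agent.ROP.Defs
import Pool.Agent.Helper49.Cons.Bind

set_option autoImplicit false

/-!
# Smart procedures: all queries to the second oracle satisfy the promise
-/

namespace Pool.Agent.ROP

open N68a2faeb N793a5b8e N487b59b3 Pool.Agent.Helper22
open Pool.Agent.Helper20.Cons (join)

section

variable {α : Type} [N487b59b3 α]

/-- the procedure `M` on the input `a`, with oracle `join X C`, asks its second oracle only words of
`C` or of `D` -/
def Smart (X : Oracle) (C D : DecisionProblem) (M : OracleProc α Bool) (a : α) : Prop :=
  ∀ n < (M.clock a).length, ∀ u : List Bool,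
    M.query (a, M.answers (join X C) a n) = true :: u → C u = true ∨ D u = true

/-- the procedure with the negated output -/
def neg (M : OracleProc α Bool) : OracleProc α Bool where
  clock := M.clock
  query := M.query
  out := fun s => !M.out s
  clock_poly := M.clock_poly
  query_poly := M.query_poly
  out_poly := (isPolyTime_iff _).2 (((isPolyTime_iff _).1 M.out_poly).not)

theorem neg_answers (M : OracleProc α Bool) (X : Oracle) (a : α) (n : ℕ) :
    (neg M).answers X a n = M.answers X a n := by
  induction n with
  | zero => rfl
  | succ n ih => rw [OracleProc.answers, OracleProc.answers, ih]; rfl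

theorem neg_run (M : OracleProc α Bool) (X : Oracle) (a : α) :
    (neg M).run X a = !(M.run X a) := by
  rw [OracleProc.run, OracleProc.run, neg_answers]
  rfl

theorem smart_neg {X : Oracle} {C D : DecisionProblem} {M : OracleProc α Bool} {a : α} :
    Smart X C D (neg M) a ↔ Smart X C D M a := by
  unfold Smart
  simp only [neg_answers]
  exact Iff.rfl

end

theorem pre_answers {α β : Type} [N487b59b3 α] [N487b59b3 β] (M : OracleProc β Bool) (h : α → β)
    (hh : FP h) (X : Oracle) (a : α) (n : ℕ) :
    (Pool.Agent.Helper49.Cons.pre M h hh).answers X a n = M.answers X (h a) n := by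
  induction n with
  | zero => rfl
  | succ n ih => rw [OracleProc.answers, OracleProc.answers, ih]; rfl

theorem smart_pre {α β : Type} [N487b59b3 α] [N487b59b3 β] {X : Oracle} {C D : DecisionProblem}
    {M : OracleProc β Bool} {h : α → β} {hh : FP h} {a : α} :
    Smart X C D (Pool.Agent.Helper49.Cons.pre M h hh) a ↔ Smart X C D M (h a) := by
  unfold Smart
  simp only [pre_answers]
  exact Iff.rfl

/-- `L` is reducible to the pair `(C, D)` by a randomized smart Turing reduction with oracle `X` and
error at most `1 / 3` -/
def RandSmart (X : Oracle) (L C D : DecisionProblem) : Prop :=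
  ∃ (M : OracleProc (List Bool × List Bool) Bool) (p : Polynomial ℕ), ∀ x : List Bool,
    2 / 3 ≤ prob (p.eval x.length) fun w =>
      M.run (join X C) (x, w) = L x ∧ Smart X C D M (x, w)

end Pool.Agent.ROP
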