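import Mathlib
import Pool.Agent.ROP.Sdef
import Pool.Agent.Helper20.Cons.UnivG

set_option autoImplicit false

/-!
# ROP-SCod: codes of procedures, with the same queries
-/

namespace Pool.Agent.ROP

open N68a2faeb N793a5b8e N487b59b3 Pool.Agent.Helper22
open Pool.Agent.Helper20.Cons (join cNum cAns cOut cRun)
open Pool.Agent.Helper20.ConsG (runB)

theorem exists_codeQ {α : Type} [N487b59b3 α] (M : OracleProc α Bool) (dec : List Bool → α)
    (hdec : FP dec) :
    ∃ (j : List Bool) (P : ℕ → ℕ), PB P ∧ Monotone P ∧ ∀ (X : Oracle) (y r : List Bool),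
      P y.length ≤ r.length →
        runB.clock (j, (r, y)) = M.clock (dec y) ∧
        (∀ n < (M.clock (dec y)).length, runB.query ((j, (r, y)), runB.answers X (j, (r, y)) n) =
          M.query (dec y, M.answers X (dec y) n)) ∧
        runB.run X (j, (r, y)) = M.run X (dec y) := by
  have hwo : FP fun b : Bool => [b] := by fun_prop
  have fc := (isPolyTime_iff _).1 M.clock_poly
  have fq := (isPolyTime_iff _).1 M.query_poly
  have fo := (isPolyTime_iff _).1 M.out_poly
  have gc : FP fun y : List Bool => M.clock (dec y) := fc.comp hdec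
  have gq : FP fun v : List Bool => M.query (dec (cf v), cs v) :=
    fq.comp ((hdec.comp (by fun_prop)).pair (by fun_prop))
  have go : FP fun v : List Bool => [M.out (dec (cf v), cs v)] :=
    hwo.comp (fo.comp ((hdec.comp (by fun_prop)).pair (by fun_prop)))
  obtain ⟨jc, hjc⟩ := exists_fj gc
  obtain ⟨jq, hjq⟩ := exists_fj gq
  obtain ⟨jo, hjo⟩ := exists_fj go
  obtain ⟨Bc, hBc, hBcm, hBcle⟩ := gc.bound
  obtain ⟨Bq, hBq, hBqm, hBqle⟩ := gq.bound
  set c : ℕ → ℕ := fun n => Bc (3 * n) with hc
  have hcPB : PB c := hBc.comp (by fun_prop)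
  set l : ℕ → ℕ := fun n => 2 * n + 1 + c n with hl
  have hlPB : PB l := by rw [hl]; fun_prop
  have hlm : Monotone l := fun m n h => by
    have := hBcm (show 3 * m ≤ 3 * n by omega)
    simp only [hl, hc]; omega
  set P : ℕ → ℕ := fun n => c n + n ^ (cs jc).length + Bq (3 * l n) + (l n) ^ (cs jq).length +
    (l n) ^ (cs jo).length with hP
  have hPB : PB P := by
    have h1 : PB fun n : ℕ => n := by fun_prop
    have h3 := h1.pow (cs jc).length
    have h4 := hlPB.pow (cs jq).length
    have h5 := hlPB.pow (cs jo).length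
    have h6 : PB fun n => Bq (3 * l n) := hBq.comp (by fun_prop)
    rw [hP]; fun_prop
  have hPm : Monotone P := fun m n h => by
    have h0 := hBcm (show 3 * m ≤ 3 * n by omega)
    have h1 := hlm h
    have h2 := hBqm (show 3 * l m ≤ 3 * l n by omega)
    have h4 : m ^ (cs jc).length ≤ n ^ (cs jc).length := Nat.pow_le_pow_left h _
    have h5 : (l m) ^ (cs jq).length ≤ (l n) ^ (cs jq).length := Nat.pow_le_pow_left h1 _
    have h6 : (l m) ^ (cs jo).length ≤ (l n) ^ (cs jo).length := Nat.pow_le_pow_left h1 _
    simp only [hP, hc] at *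
    omega
  refine ⟨cd jc (cd jq jo), P, hPB, hPm, fun X y r hr => ?_⟩
  simp only [hP] at hr
  have hck : (M.clock (dec y)).length ≤ c y.length := by
    have h1 := hBcle y
    rw [sz_bits, sz_bits] at h1
    simp only [hc]; omega
  have hnum : cNum (cd jc (cd jq jo)) r y = M.clock (dec y) := by
    rw [cNum, cf_cd, fjt_eq _ _ _ (by omega), hjc]
    exact List.take_of_length_le (by omega)
  have hlen : ∀ k, k ≤ (M.clock (dec y)).length →
      (cd y (M.answers X (dec y) k)).length ≤ l y.length := by
    intro k hk
    rw [cd_length, OracleProc.answers_length]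
    simp only [hl]; omega
  have hqu : ∀ k, k < (M.clock (dec y)).length →
      (fjt (cf (cs (cd jc (cd jq jo)))) (cd y (M.answers X (dec y) k)) r).take r.length =
        M.query (dec y, M.answers X (dec y) k) := by
    intro k hk
    have h1 := hlen k hk.le
    have h2 : (cd y (M.answers X (dec y) k)).length ^ (cs jq).length ≤
        (l y.length) ^ (cs jq).length := Nat.pow_le_pow_left h1 _
    rw [cs_cd, cf_cd, fjt_eq _ _ _ (by omega), hjq, cf_cd, cs_cd, List.take_of_length_le]
    have h3 := hBqle (cd y (M.answers X (dec y) k))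
    rw [sz_bits, sz_bits, cf_cd, cs_cd] at h3
    have h4 := hBqm (show 3 * (cd y (M.answers X (dec y) k)).length ≤ 3 * l y.length by omega)
    omega
  have hans : ∀ k, k ≤ (M.clock (dec y)).length →
      cAns (cd jc (cd jq jo)) r y X k = M.answers X (dec y) k := by
    intro k
    induction k with
    | zero => intro _; rfl
    | succ k ih =>
      intro hk
      rw [cAns, OracleProc.answers, ih (by omega), hqu k (by omega)]
  have h1 := hlen _ le_rfl
  have h2 : (cd y (M.answers X (dec y) (M.clock (dec y)).length)).length ^ (cs jo).length ≤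
      (l y.length) ^ (cs jo).length := Nat.pow_le_pow_left h1 _
  have hout : fjt (cs (cs (cd jc (cd jq jo))))
      (cd y (M.answers X (dec y) (M.clock (dec y)).length)) r = [M.run X (dec y)] := by
    rw [cs_cd, cs_cd, fjt_eq _ _ _ (by omega), hjo, cf_cd, cs_cd]
    rfl
  refine ⟨hnum, ?_, ?_⟩
  · intro n hn
    rw [Pool.Agent.Helper20.ConsG.runB_answers, hans n hn.le]
    exact hqu n hn
  · rw [Pool.Agent.Helper20.ConsG.runB_run, cRun, hnum, hans _ le_rfl, cOut, hout]
    have h7 : decide ((pw (cd y (M.answers X (dec y) (M.clock (dec y)).length))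
        (cs (cs (cs (cd jc (cd jq jo))))) r).length ≤ r.length) = true := by
      rw [decide_eq_true_eq, cs_cd, cs_cd, pw_eq, un_length]
      omega
    rw [h7, Bool.true_and]
    rfl

private theorem sc_dec (p : Polynomial ℕ) : FP fun y : List Bool =>
    ((cf y, (cs y).take (p.eval (cf y).length)) : List Bool × List Bool) := by
  have h1 : FP fun y : List Bool => (cs y).take (un (p.eval (cf y).length)).length :=
    FP.take (by fun_prop) (FP.un_poly (by fun_prop) p)
  have h2 : FP fun y : List Bool => (cs y).take (p.eval (cf y).length) := by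
    simpa only [un_length] using h1
  exact FP.pair (by fun_prop) h2

theorem cod_smart (M : OracleProc (List Bool × List Bool) Bool) (p : Polynomial ℕ) :
    ∃ (j : List Bool) (e : ℕ), (∀ n, p.eval n ≤ n ^ e + e) ∧
      ∀ (X : Oracle) (C D : DecisionProblem) (u w : List Bool),
        (runB.run (join X C) (j, (un ((cd u w).length ^ e + e), cd u w)) =
          M.run (join X C) (u, w.take (p.eval u.length))) ∧
        (Smart X C D M (u, w.take (p.eval u.length)) →
          Smart X C D runB (j, (un ((cd u w).length ^ e + e), cd u w))) := by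
  obtain ⟨j, P, hP, -, hj⟩ := exists_codeQ M _ (sc_dec p)
  obtain ⟨q, hq⟩ := exists_poly hP
  obtain ⟨e, he⟩ := poly_le_pow (p + q)
  have he' : ∀ n, p.eval n + q.eval n ≤ n ^ e + e := by
    intro n
    rw [← Polynomial.eval_add]
    exact he n
  refine ⟨j, e, fun n => le_trans (Nat.le_add_right _ _) (he' n), fun X C D u w => ?_⟩
  obtain ⟨h1, h2, h3⟩ := hj (join X C) (cd u w) (un ((cd u w).length ^ e + e)) (by
    rw [un_length]
    exact (hq _).trans (le_trans (Nat.le_add_left _ _) (he' _)))
  rw [cf_cd, cs_cd] at h1 h2 h3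
  refine ⟨h3, fun hs n hn v hv => ?_⟩
  rw [h1] at hn
  rw [h2 n hn] at hv
  exact hs n hn v hv

end Pool.Agent.ROP
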