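import Mathlib
import Pool.Agent.ROP.Sdef
import Pool.Agent.RO.CTlow

set_option autoImplicit false

/-!
# ROP-SLow (job): smart acceptance is in NP

PLAN. ADAPT `NPo_join_low` (`Pool/Agent/RO/CTlow.lean`; read its header). `C`, `D` have the verifiers `(p₁, M₁)`, `(p₀, M₀)`. The witness is
`W = cd (lc Pp) (cd (lc Pm) (cd (lc T) (cd (lc F) (lc Cs))))`: `Pp, Pm` = queries of `N` with claimed answers `true`, `false`; `T, F` = queries
to `X` with claimed answers; `Cs` = certificates. The check is the same as there (`cert`, `chq` are public), with `tabRun N Pp Pm z` and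
`M₀` a verifier of `D` instead of the complement of `C`.
Soundness: for a claimed answer `true` to `true :: u` a certificate shows `C u`; for `false` it shows `D u`, hence `¬ C u` (disjoint): all
the claimed answers are those of `join X C` and every `u` is in `C` or `D`. `tabRun` also says that all queries of the run are in `Pp ++ Pm`, so
the run is smart (the queries of the run with the table are those of the run with `join X C`: see `answers_eq` in `Pool/Agent/RO/CTq.lean`).
Completeness: as there; the certificates exist for all queries `true :: u` of the run, since `u` is in `C` (answer `true`) or, if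
the answer is `false`, in `D` (`Smart`).
-/

namespace Pool.Agent.ROP

open N68a2faeb N793a5b8e N487b59b3 Pool.Agent.Helper22
open Pool.Agent.Helper20.Cons (join)

open Pool.Agent.RO (qs qs_bound tabRun tabRun_sound tabRun_compl chq chq_sound chq_compl chk2
  chk2_FP wP wM wT wF' wC wT_FP wF'_FP ask)
open Pool.Agent.Helper21.Off (lc_length_le)
open Pool.Agent.Helper49.Cons (pre pre_run)

private theorem slow_answers_eq {α : Type} [N487b59b3 α] (M : OracleProc α Bool) {X Y : Oracle}
    {a : α} {N : ℕ}
    (h : ∀ n < N, X (M.query (a, M.answers X a n)) = Y (M.query (a, M.answers X a n))) :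
    ∀ n ≤ N, M.answers X a n = M.answers Y a n := by
  intro n
  induction n with
  | zero => intro _; rfl
  | succ n ih =>
    intro hn
    have h1 := ih (by omega)
    rw [OracleProc.answers, OracleProc.answers, h n (by omega), h1]

/-- all queries of a run with a correct table are in the table -/
private theorem slow_tab {α : Type} [N487b59b3 α] (M : OracleProc α Bool)
    {T F : List (List Bool)} {R : Oracle} {a : α}
    (hT : ∀ q ∈ T, R q = true) (hF : ∀ q ∈ F, R q = false) (h : tabRun M T F a = true) :
    ∀ n < (M.clock a).length, M.query (a, M.answers R a n) ∈ T ++ F := by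
  rw [tabRun, Bool.and_eq_true, List.all_eq_true] at h
  obtain ⟨h1, h2⟩ := h
  have h3 : ∀ n < (M.clock a).length,
      (fun q => wmem T q) (M.query (a, M.answers (fun q => wmem T q) a n)) =
        R (M.query (a, M.answers (fun q => wmem T q) a n)) := by
    intro n hn
    have h4 := (wmem_iff _ _).1 (h2 _ (List.mem_map_of_mem (List.mem_range.2 hn)))
    rcases List.mem_append.1 h4 with h5 | h5
    · rw [hT _ h5]
      exact (wmem_iff _ _).2 h5
    · rw [hF _ h5]
      by_contra h6
      have h7 : wmem T (M.query (a, M.answers (fun q => wmem T q) a n)) = true := by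
        simpa using h6
      have h8 := hT _ ((wmem_iff _ _).1 h7)
      rw [hF _ h5] at h8
      exact absurd h8 (by decide)
  have h4 := slow_answers_eq M h3
  intro n hn
  rw [← h4 n hn.le]
  exact (wmem_iff _ _).1 (h2 _ (List.mem_map_of_mem (List.mem_range.2 hn)))

open Classical in
theorem smart_low {X : Oracle} {C D : DecisionProblem} (hC : C ∈ NPo X) (hD : D ∈ NPo X)
    (hd : ∀ x, ¬ (C x = true ∧ D x = true)) (N : OracleProc (List Bool) Bool) :
    (fun z => decide (N.run (join X C) z = true ∧ Smart X C D N z)) ∈ NPo X := by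
  obtain ⟨p₁, M₁, hC₁⟩ := hC
  obtain ⟨p₀, M₀, hD₀⟩ := hD
  obtain ⟨p, hp0⟩ : ∃ p : Polynomial ℕ, ∀ n, p.eval n = 0 := ⟨0, fun n => by simp⟩
  let C' : DecisionProblem := fun u => !(D u)
  have hC' : ∀ u, C' u = false ↔ Accepts M₀ p₀ X u := by
    intro u
    rw [← hD₀ u]
    show (!(D u)) = false ↔ _
    simp
  let M : OracleProc (List Bool × List Bool) Bool :=
    pre N (fun a : List Bool × List Bool => a.1) FP.fst
  obtain ⟨V, hV⟩ := ask (α := List Bool × List Bool) (fun a => wT a.2 ++ wF' a.2)
    (chk2 M M₁ M₀ p p₁ p₀) (FP.append (wT_FP.comp FP.snd) (wF'_FP.comp FP.snd))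
    (chk2_FP M M₁ M₀ p p₁ p₀)
  obtain ⟨B, hB, hBm, hBq⟩ := qs_bound M
  obtain ⟨B₁, hB₁, hBm₁, hBq₁⟩ := qs_bound M₁
  obtain ⟨B₀, hB₀, hBm₀, hBq₀⟩ := qs_bound M₀
  let E : ℕ → ℕ := fun n => B (6 * n + 1)
  let K : ℕ → ℕ := fun n => p₁.eval (E n) + p₀.eval (E n)
  let G : ℕ → ℕ := fun n => B₁ (6 * E n + 1 + 3 * K n) + B₀ (6 * E n + 1 + 3 * K n)
  have hE : PB E := by
    have h1 : PB fun n => 6 * n + 1 := by fun_prop
    exact hB.comp h1
  have hK : PB K := ((PB.poly p₁).comp hE).add ((PB.poly p₀).comp hE)
  have hG : PB G := by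
    have h1 : PB fun n => 6 * E n + 1 + 3 * K n := by fun_prop
    exact (hB₁.comp h1).add (hB₀.comp h1)
  have hPB : PB fun n => 1 + (2 * (E n * (2 * E n + 1)) + 1) +
      (2 * (E n * (2 * E n + 1)) + 1) +
      (2 * ((E n + E n * G n) * (2 * (E n + G n) + 1)) + 1) +
      (2 * ((E n + E n * G n) * (2 * (E n + G n) + 1)) + 1) + E n * (2 * K n + 1) := by fun_prop
  obtain ⟨P, hP⟩ := exists_poly hPB
  refine ⟨P, V, fun x => ?_⟩
  rw [decide_eq_true_eq]
  constructor
  · rintro ⟨hrunN, hsmN⟩
    have hrun : M.run (join X C) (x, []) = true := by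
      rw [pre_run]
      exact hrunN
    have hsm : Smart X C D M (x, []) := smart_pre.2 hsmN
    have hsz : sz (x, ([] : List Bool)) ≤ 6 * x.length + 1 := by
      simp only [sz_pair, sz_bits, List.length_nil]; omega
    set n := x.length with hn
    obtain ⟨hq1, hq2⟩ := hBq (join X C) (x, [])
    have hE1 : (qs M (join X C) (x, [])).length ≤ E n := hq1.trans (hBm hsz)
    have hE2 : ∀ q ∈ qs M (join X C) (x, []), q.length ≤ E n := fun q hq =>
      (hq2 q hq).trans (hBm hsz)
    -- the certificates
    have hct : ∀ u : List Bool, ∃ c : List Bool, (C u = true → c.length ≤ p₁.eval u.length ∧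
        M₁.run X (u, c) = true) ∧ (D u = true → c.length ≤ p₀.eval u.length ∧
        M₀.run X (u, c) = true) ∧ c.length ≤ p₁.eval u.length + p₀.eval u.length := by
      intro u
      cases hu : C u
      · cases hv : D u
        · exact ⟨[], by simp, by simp, by simp⟩
        · obtain ⟨c, h1, h2⟩ := (hD₀ u).1 hv
          exact ⟨c, by simp, fun _ => ⟨h1, h2⟩, by omega⟩
      · obtain ⟨c, h1, h2⟩ := (hC₁ u).1 hu
        refine ⟨c, fun _ => ⟨h1, h2⟩, fun hv => absurd ⟨hu, hv⟩ (hd u), by omega⟩
    choose ct hct1 hct0 hctn using hct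
    have hctl : ∀ u : List Bool, u.length ≤ E n → (ct u).length ≤ K n := by
      intro u hu
      have h1 : p₁.eval u.length ≤ p₁.eval (E n) := poly_mono p₁ hu
      have h0 : p₀.eval u.length ≤ p₀.eval (E n) := poly_mono p₀ hu
      show _ ≤ p₁.eval (E n) + p₀.eval (E n)
      have := hctn u
      omega
    -- the queries to `X`
    let sub : List Bool → List (List Bool) := fun u => qs M₁ X (u, ct u) ++ qs M₀ X (u, ct u)
    have hsub : ∀ u : List Bool, u.length ≤ E n → (sub u).length ≤ G n ∧
        ∀ r ∈ sub u, r.length ≤ G n := by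
      intro u hu
      have hs : sz (u, ct u) ≤ 6 * E n + 1 + 3 * K n := by
        have := hctl u hu
        simp only [sz_pair, sz_bits]; omega
      obtain ⟨a1, a2⟩ := hBq₁ X (u, ct u)
      obtain ⟨b1, b2⟩ := hBq₀ X (u, ct u)
      have m1 := hBm₁ hs
      have m0 := hBm₀ hs
      have hGn : G n = B₁ (6 * E n + 1 + 3 * K n) + B₀ (6 * E n + 1 + 3 * K n) := rfl
      have e1 : sub u = qs M₁ X (u, ct u) ++ qs M₀ X (u, ct u) := rfl
      rw [e1]
      refine ⟨?_, fun r hr => ?_⟩
      · rw [List.length_append]
        omega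
      · rcases List.mem_append.1 hr with h | h
        · have := a2 r h
          omega
        · have := b2 r h
          omega
    set Q := qs M (join X C) (x, []) with hQ
    set RQ : List (List Bool) := Q.map List.tail ++ Q.flatMap fun q => sub q.tail with hRQ
    have htl : ∀ q ∈ Q, q.tail.length ≤ E n := fun q hq => by
      have := hE2 q hq
      rw [List.length_tail]; omega
    have hR1 : RQ.length ≤ E n + E n * G n := by
      rw [hRQ, List.length_append, List.length_map, List.length_flatMap]
      have h1 : (Q.map fun q => (sub q.tail).length).sum ≤ Q.length * G n := by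
        have h2 := List.sum_le_card_nsmul (Q.map fun q => (sub q.tail).length) (G n) (by
          intro k hk
          obtain ⟨q, hq, rfl⟩ := List.mem_map.1 hk
          exact (hsub _ (htl q hq)).1)
        rwa [List.length_map, smul_eq_mul] at h2
      have h2 : Q.length * G n ≤ E n * G n := Nat.mul_le_mul_right _ hE1
      omega
    have hR2 : ∀ r ∈ RQ, r.length ≤ E n + G n := by
      intro r hr
      rcases List.mem_append.1 hr with h | h
      · obtain ⟨q, hq, rfl⟩ := List.mem_map.1 h
        have := htl q hq
        omega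
      · obtain ⟨q, hq, hr'⟩ := List.mem_flatMap.1 h
        have := (hsub _ (htl q hq)).2 r hr'
        omega
    set T := RQ.filter fun q => X q with hT
    set F := RQ.filter fun q => !X q with hF
    set Pp := Q.filter fun q => join X C q with hPp
    set Pm := Q.filter fun q => !join X C q with hPm
    set Cs := Q.map fun q => ct q.tail with hCs
    have hTR : ∀ u ∈ T, X u = true := fun u hu => (List.mem_filter.1 hu).2
    have hFR : ∀ u ∈ F, X u = false := fun u hu => by
      simpa using (List.mem_filter.1 hu).2
    have hPpR : ∀ u ∈ Pp, join X C u = true := fun u hu => (List.mem_filter.1 hu).2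
    have hPmR : ∀ u ∈ Pm, join X C u = false := fun u hu => by
      simpa using (List.mem_filter.1 hu).2
    have hPmR' : ∀ u ∈ Pm, join X C' u = false := by
      intro q hq
      have h1 := hPmR q hq
      rcases q with _ | ⟨b, u⟩
      · rfl
      · cases b
        · exact h1
        · have h2 : C u = false := h1
          have hqQ : (true :: u) ∈ Q := (List.mem_filter.1 hq).1
          obtain ⟨k, hk, he⟩ := List.mem_map.1 hqQ
          have h3 := hsm k (List.mem_range.1 hk) u he
          rw [h2] at h3
          have h4 : D u = true := by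
            rcases h3 with h3 | h3
            · exact absurd h3 Bool.false_ne_true
            · exact h3
          show (!(D u)) = false
          rw [h4]
          rfl
    have hTF : ∀ u ∈ RQ, u ∈ T ++ F := by
      intro u hu
      cases hb : X u
      · exact List.mem_append_right _ (List.mem_filter.2 ⟨hu, by simp [hb]⟩)
      · exact List.mem_append_left _ (List.mem_filter.2 ⟨hu, hb⟩)
    have hPQ : ∀ u ∈ Q, u ∈ Pp ++ Pm := by
      intro u hu
      cases hb : join X C u
      · exact List.mem_append_right _ (List.mem_filter.2 ⟨hu, by simp [hb]⟩)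
      · exact List.mem_append_left _ (List.mem_filter.2 ⟨hu, hb⟩)
    have hlen : ∀ (l : List (List Bool)) (a b : ℕ), l.length ≤ a → (∀ u ∈ l, u.length ≤ b) →
        (lc l).length ≤ a * (2 * b + 1) := fun l a b h1 h2 =>
      (lc_length_le l b h2).trans (Nat.mul_le_mul_right _ h1)
    have l1 : (lc Pp).length ≤ E n * (2 * E n + 1) :=
      hlen _ _ _ ((List.length_filter_le _ _).trans hE1) fun u hu =>
        hE2 u (List.mem_filter.1 hu).1
    have l2 : (lc Pm).length ≤ E n * (2 * E n + 1) :=
      hlen _ _ _ ((List.length_filter_le _ _).trans hE1) fun u hu =>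
        hE2 u (List.mem_filter.1 hu).1
    have l3 : (lc T).length ≤ (E n + E n * G n) * (2 * (E n + G n) + 1) :=
      hlen _ _ _ ((List.length_filter_le _ _).trans hR1) fun u hu =>
        hR2 u (List.mem_filter.1 hu).1
    have l4 : (lc F).length ≤ (E n + E n * G n) * (2 * (E n + G n) + 1) :=
      hlen _ _ _ ((List.length_filter_le _ _).trans hR1) fun u hu =>
        hR2 u (List.mem_filter.1 hu).1
    have l5 : (lc Cs).length ≤ E n * (2 * K n + 1) := by
      refine hlen _ _ _ ?_ ?_
      · rw [hCs, List.length_map]
        exact hE1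
      · intro c hc
        obtain ⟨q, hq, rfl⟩ := List.mem_map.1 hc
        exact hctl _ (htl q hq)
    refine ⟨cd [] (cd (lc Pp) (cd (lc Pm) (cd (lc T) (cd (lc F) (lc Cs))))), ?_, ?_⟩
    · rw [cd_length, cd_length, cd_length, cd_length, cd_length, ← hn, List.length_nil]
      have h6 := hP n
      omega
    · rw [hV]
      have eP : wP (cd [] (cd (lc Pp) (cd (lc Pm) (cd (lc T) (cd (lc F) (lc Cs)))))) = Pp := by
        simp only [wP, cs_cd, cf_cd, ld_lc]
      have eM : wM (cd [] (cd (lc Pp) (cd (lc Pm) (cd (lc T) (cd (lc F) (lc Cs)))))) = Pm := by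
        simp only [wM, cs_cd, cf_cd, ld_lc]
      have eT : wT (cd [] (cd (lc Pp) (cd (lc Pm) (cd (lc T) (cd (lc F) (lc Cs)))))) = T := by
        simp only [wT, cs_cd, cf_cd, ld_lc]
      have eF : wF' (cd [] (cd (lc Pp) (cd (lc Pm) (cd (lc T) (cd (lc F) (lc Cs)))))) = F := by
        simp only [wF', cs_cd, cf_cd, ld_lc]
      have eC : wC (cd [] (cd (lc Pp) (cd (lc Pm) (cd (lc T) (cd (lc F) (lc Cs)))))) = Cs := by
        simp only [wC, cs_cd, ld_lc]
      simp only [chk2, eP, eM, eT, eF, eC, cf_cd, Bool.and_eq_true, decide_eq_true_eq, un_length,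
        List.all_eq_true, wmem_iff, Bool.not_eq_true', List.length_nil]
      refine ⟨⟨⟨Nat.zero_le _, tabRun_compl M hPpR hPmR hPQ hrun⟩, ?_, ?_⟩, ?_, ?_⟩
      · intro q hq
        have hqQ : q ∈ Q := (List.mem_filter.1 hq).1
        have hRt : q.tail ∈ RQ := List.mem_append_left _ (List.mem_map_of_mem hqQ)
        refine chq_compl (C := C) hTR hFR (hPpR q hq)
          (fun h => List.mem_filter.2 ⟨hRt, h⟩) fun h => ?_
        refine ⟨ct q.tail, List.mem_map_of_mem (f := fun q => ct q.tail) hqQ,
          (hct1 _ h).1, (hct1 _ h).2, fun r hr => hTF r ?_⟩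
        refine List.mem_append_right _ (List.mem_flatMap.2 ⟨q, hqQ, ?_⟩)
        exact List.mem_append_left _ hr
      · intro q hq
        have hqQ : q ∈ Q := (List.mem_filter.1 hq).1
        have hRt : q.tail ∈ RQ := List.mem_append_left _ (List.mem_map_of_mem hqQ)
        refine chq_compl (C := C') hTR hFR (hPmR' q hq)
          (fun h => List.mem_filter.2 ⟨hRt, by simp [h]⟩) fun h => ?_
        have h' : D q.tail = true := by
          have h0 : (!(D q.tail)) = false := h
          simpa using h0
        refine ⟨ct q.tail, List.mem_map_of_mem (f := fun q => ct q.tail) hqQ,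
          (hct0 _ h').1, (hct0 _ h').2, fun r hr => hTF r ?_⟩
        refine List.mem_append_right _ (List.mem_flatMap.2 ⟨q, hqQ, ?_⟩)
        exact List.mem_append_right _ hr
      · intro q hq
        exact List.mem_filter.2 ⟨List.mem_append_left _ hq, hTR q hq⟩
      · intro q hq
        rw [← Bool.not_eq_true, wmem_iff]
        intro h
        have h1 := (List.mem_filter.1 h).2
        rw [hFR q hq] at h1
        exact Bool.false_ne_true h1
  · rintro ⟨W, -, hW⟩
    rw [hV] at hW
    simp only [chk2, Bool.and_eq_true, decide_eq_true_eq, un_length,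
      List.all_eq_true, wmem_iff, Bool.not_eq_true'] at hW
    obtain ⟨⟨⟨h1, h2⟩, h3, h4⟩, h5, h6⟩ := hW
    have hT : ∀ u ∈ wT W, X u = true := fun u hu => (List.mem_filter.1 (h5 u hu)).2
    have hF : ∀ u ∈ wF' W, X u = false := by
      intro u hu
      have h7 := h6 u hu
      rw [← Bool.not_eq_true, wmem_iff] at h7
      by_contra h8
      rw [Bool.not_eq_false] at h8
      exact h7 (List.mem_filter.2 ⟨List.mem_append_right _ hu, h8⟩)
    have g3 : ∀ q ∈ wP W, join X C q = true := fun q hq => chq_sound hC₁ hT hT hF (h3 q hq)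
    have g4' : ∀ q ∈ wM W, join X C' q = false := fun q hq => chq_sound hC' hF hT hF (h4 q hq)
    have g4 : ∀ q ∈ wM W, join X C q = false := by
      intro q hq
      have h7 := g4' q hq
      rcases q with _ | ⟨b, u⟩
      · rfl
      · cases b
        · exact h7
        · have h8 : (!(D u)) = false := h7
          have h9 : D u = true := by simpa using h8
          show C u = false
          cases hc : C u
          · rfl
          · exact absurd ⟨hc, h9⟩ (hd u)
    have hr : M.run (join X C) (x, cf W) = true := tabRun_sound M g3 g4 h2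
    rw [pre_run] at hr
    refine ⟨hr, (smart_pre (M := N) (h := fun a : List Bool × List Bool => a.1)
      (hh := FP.fst) (a := (x, cf W))).1 ?_⟩
    intro k hk u he
    have h7 := slow_tab M g3 g4 h2 k hk
    rw [he] at h7
    rcases List.mem_append.1 h7 with h8 | h8
    · left
      exact g3 _ h8
    · right
      have h9 : (!(D u)) = false := g4' _ h8
      simpa using h9

end Pool.Agent.ROP
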