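import Mathlib
import Pool.Agent.ROP.AE
import Pool.Agent.ROP.C1b
import Pool.Agent.ROP.CYes
import Pool.Agent.ROP.CNo
import Pool.Agent.ROP.Prb
import Pool.Agent.ROP.SCod
import Pool.Agent.ROP.SLow
import Pool.Agent.RO.CTk

set_option autoImplicit false

/-!
# Disjoint NP-pairs relative to a random oracle: assembly
-/

namespace Pool.Agent.ROP

open MeasureTheory Pool.Agent.Helper22 N487b59b3 N68a2faeb N793a5b8e
open Pool.Agent.Helper20.Cons (join Po cRun)
open Pool.Agent.Helper20.ConsG (runB)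
open Pool.Agent.RO (Vp pads pad pj pe lev coin exists_number pr_mono)

theorem lng_iff {V : Vp} {S i₀ i : ℕ} {A R : Oracle} {u : List Bool} (hi : i₀ ≤ i)
    (h : IsInst (lev S i) (cnt V S A R i) u) :
    Lng V S i₀ A R u ↔ Sat R (lev S i) (cnt V S A R i) u := by
  constructor
  · rintro ⟨i', _, h1, h2⟩
    have h3 : i' = i := level_unique h1 h
    subst h3
    exact h2
  · exact fun h1 => ⟨i, hi, h, h1⟩

/-- the statement for one oracle and one disjoint pair of languages of NP, from the almost sure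
statements for all pairs of verifiers -/
theorem no_hard {S : Vp → ℕ} (hS : ∀ V, Big V (S V)) {A R : Oracle}
    (hR : ∀ V : Vp, (∀ l, ∃ i, cnt V (S V) A R i = l ∧ Fail V A R (lev (S V) i) l) ∧
      ((∀ i, ¬ Inv V A R (lev (S V) i) (cnt V (S V) A R i)) →
        ∃ i₀, ∀ i, i₀ ≤ i → Win R (lev (S V) i) (cnt V (S V) A R i) ∧
          ¬ Quad R (lev (S V) i) (cnt V (S V) A R i)))
    {K1 K0 : DecisionProblem} (h1 : K1 ∈ NPo (join A R)) (h0 : K0 ∈ NPo (join A R))
    (hd : ∀ z, ¬ (K1 z = true ∧ K0 z = true)) :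
    ∃ L ∈ UPo (join A R) ∩ coNPo (join A R), ¬ ∃ (j : List Bool) (e : ℕ), ∀ u : List Bool,
      (L u = true → 2 / 3 ≤ prob (u.length ^ e + e) fun w => K1 (pad j e (cd u w)) = true) ∧
      (L u = false → 2 / 3 ≤ prob (u.length ^ e + e) fun w => K0 (pad j e (cd u w)) = true) := by
  classical
  obtain ⟨p₁, M₁, h₁⟩ := h1
  obtain ⟨p₂, M₂, h₂⟩ := h0
  let V : Vp := fun b => if b then (M₁, p₁) else (M₂, p₂)
  have hV1 : ∀ l x, ROA.acc V true A R l x ↔ K1 (pads l x) = true := fun l x => (h₁ _).symm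
  have hV2 : ∀ l x, ROA.acc V false A R l x ↔ K0 (pads l x) = true := fun l x => (h₂ _).symm
  have hboth : ∀ s l u, ¬ Both V A R s l u := by
    rintro s l u ⟨w, hw1, hw2⟩
    exact hd _ ⟨(hV1 _ _).1 hw1, (hV2 _ _).1 hw2⟩
  obtain ⟨hfail, hwin⟩ := hR V
  obtain ⟨i₀, hi₀⟩ := hwin (by
    rintro i ⟨u, _, hu⟩
    exact hboth _ _ _ hu)
  refine ⟨fun z => decide (Lng V (S V) i₀ A R z),
    ⟨up_side (hS V) i₀ A R fun i hi => (hi₀ i hi).2,
      conp_side (hS V) i₀ A R fun i hi => (hi₀ i hi).1⟩, ?_⟩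
  rintro ⟨j, e, hje⟩
  obtain ⟨l, hl, hj, he⟩ := exists_number j e i₀
  obtain ⟨i, hi, u, hu, hf⟩ := hfail l
  have hi' : i₀ ≤ i := by
    have := cnt_le V (S V) A R i
    omega
  have hu' : IsInst (lev (S V) i) (cnt V (S V) A R i) u := by rw [hi]; exact hu
  have h7 := lng_iff (V := V) hi' hu'
  rw [hi] at h7
  have hlen : rl (lev (S V) i) l = u.length ^ e + e := by
    rw [rl, inst_length hu, he]
  have hpad : ∀ w, pad j e (cd u w) = pads l (cd u w) := fun w => by rw [pads, hj, he]
  obtain ⟨g1, g2⟩ := hje u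
  have m1 : Maj V true A R (lev (S V) i) l u ↔
      2 / 3 ≤ prob (u.length ^ e + e) fun w => K1 (pad j e (cd u w)) = true := by
    rw [← hlen]
    have : (fun w => K1 (pad j e (cd u w)) = true) = fun w => ROA.acc V true A R l (cd u w) := by
      funext w
      rw [hpad]
      exact propext (hV1 _ _).symm
    rw [this]
    exact Iff.rfl
  have m2 : Maj V false A R (lev (S V) i) l u ↔
      2 / 3 ≤ prob (u.length ^ e + e) fun w => K0 (pad j e (cd u w)) = true := by
    rw [← hlen]
    have : (fun w => K0 (pad j e (cd u w)) = true) = fun w => ROA.acc V false A R l (cd u w) := by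
      funext w
      rw [hpad]
      exact propext (hV2 _ _).symm
    rw [this]
    exact Iff.rfl
  rcases hf with ⟨hs, hm⟩ | ⟨hs, hm⟩ | hb
  · exact hm (m1.2 (g1 (decide_eq_true (h7.2 hs))))
  · exact hm (m2.2 (g2 (decide_eq_false fun h => hs (h7.1 h))))
  · exact hboth _ _ _ hb

private theorem prob_mono (n : ℕ) {P Q : List Bool → Prop} (h : ∀ w, P w → Q w) :
    prob n P ≤ prob n Q := pr_mono fun w hw => h w.1 hw

/-- the universal procedure on the images of the trivial reductions -/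
private noncomputable def NN : OracleProc (List Bool) Bool :=
  Pool.Agent.Helper49.Cons.pre runB (fun z => (cf z, (cs (cs z), cf (cs z)))) (by fun_prop)

/-- For every oracle `A` and almost every oracle `R`, relative to `X = join A R` no disjoint pair of
languages of NP is hard for UP ∩ coNP under randomized smart Turing reductions. -/
theorem random_smart (A : Oracle) : ∀ᵐ R ∂coin,
    ∀ C ∈ NPo (join A R), ∀ D ∈ NPo (join A R), (∀ x, ¬ (C x = true ∧ D x = true)) →
      ∃ L ∈ UPo (join A R) ∩ coNPo (join A R), ¬ RandSmart (join A R) L C D := by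
  classical
  choose S hS using exists_big
  have h : ∀ᵐ R ∂coin, ∀ V : Vp,
      (∀ l, ∃ i, cnt V (S V) A R i = l ∧ Fail V A R (lev (S V) i) l) ∧
      ((∀ i, ¬ Inv V A R (lev (S V) i) (cnt V (S V) A R i)) →
        ∃ i₀, ∀ i, i₀ ≤ i → Win R (lev (S V) i) (cnt V (S V) A R i) ∧
          ¬ Quad R (lev (S V) i) (cnt V (S V) A R i)) :=
    ae_all_iff.2 fun V => ae_main (hS V) A
  filter_upwards [h] with R hR
  intro C hC D hD hd
  have h1 := smart_low hC hD hd NN
  have h0 := smart_low hC hD hd (neg NN)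
  obtain ⟨L, hL, hn⟩ := no_hard hS hR h1 h0 (by
    rintro z ⟨hz1, hz0⟩
    rw [decide_eq_true_eq] at hz1 hz0
    rw [neg_run, hz1.1] at hz0
    exact absurd hz0.1 (by decide))
  refine ⟨L, hL, ?_⟩
  rintro ⟨M, p, hM⟩
  obtain ⟨j, e, hp, hje⟩ := cod_smart M p
  refine hn ⟨j, e, fun u => ?_⟩
  have h5 := hM u
  rw [← prob_take (hp _) fun w => M.run (join (join A R) C) (u, w) = L u ∧
    Smart (join A R) C D M (u, w)] at h5
  have hz : ∀ w : List Bool, (cf (pad j e (cd u w)), (cs (cs (pad j e (cd u w))),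
      cf (cs (pad j e (cd u w))))) = (j, (un ((cd u w).length ^ e + e), cd u w)) := by
    intro w
    rw [pad, cf_cd, cs_cd, cs_cd, cf_cd]
  have hrun : ∀ w : List Bool, NN.run (join (join A R) C) (pad j e (cd u w)) =
      M.run (join (join A R) C) (u, w.take (p.eval u.length)) := by
    intro w
    rw [NN, Pool.Agent.Helper49.Cons.pre_run, hz]
    exact (hje _ C D u w).1
  have hsm : ∀ w : List Bool, Smart (join A R) C D M (u, w.take (p.eval u.length)) →
      Smart (join A R) C D NN (pad j e (cd u w)) := by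
    intro w hw
    rw [NN, smart_pre, hz]
    exact (hje _ C D u w).2 hw
  constructor
  · intro hLu
    refine h5.trans (prob_mono _ fun w hw => ?_)
    rw [decide_eq_true_eq, hrun, hw.1]
    exact ⟨hLu, hsm _ hw.2⟩
  · intro hLu
    refine h5.trans (prob_mono _ fun w hw => ?_)
    rw [decide_eq_true_eq, neg_run, smart_neg, hrun, hw.1, hLu]
    exact ⟨rfl, hsm _ hw.2⟩

end Pool.Agent.ROP
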