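import Mathlib
import Pool.Agent.ROP.Defs
import Pool.Agent.RO.CTk
import Pool.Agent.Helper20.Cons.UnivG

set_option autoImplicit false

/-!
# ROP-KC (job): preimages under the universal procedure

PLAN. `Pool.Agent.Helper20.ConsG.runW : OracleProc (List Bool × (List Bool × List Bool)) (List Bool)` computes
`runW.run X (j, (r, y)) = cRunW j r y X` (`runW_run`), and its output has length at most `|r|` (`cOutW` is a `take`; see its definition), so
`q = cRunW (cf z) (cs (cs z)) (cf (cs z)) X` has length at most `|z|` (`cs_length`). Let `(p, N)` be the verifier of `C`. New verifier on `(z, w)`: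
compute `q`, accept iff `|w| ≤ p(|q|)` and `N` accepts `(q, w)`; witness bound `p` (`poly_mono`). Compose with
`Pool.Agent.Helper49.Cons` (`Bind.lean`): `pre`, `pre_run`, `exists_post`, `exists_comp`, `exists_bind`: first the procedure
`(z, w) ↦ q` (`pre runW`), `exists_post` to keep `w`: `(z, w) ↦ (q, w)`, then `exists_comp` with `N`, and `exists_post`/another pair for the
length check (`FP.length_le`, `FP.un_poly`).
-/

namespace Pool.Agent.ROP

open N68a2faeb N793a5b8e N487b59b3 Pool.Agent.Helper22
open Pool.Agent.Helper20.Cons (join Po cRun cRunW)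

/-- the preimage of `C` under the universal procedure -/
def KC (X : Oracle) (C : DecisionProblem) : DecisionProblem :=
  fun z => C (cRunW (cf z) (cs (cs z)) (cf (cs z)) X)

private theorem kc_fp : FP fun s : List Bool × List Bool =>
    ((cf s.1, (cs (cs s.1), cf (cs s.1))) : List Bool × (List Bool × List Bool)) := by
  fun_prop

private theorem kc_length (j r y : List Bool) (X : Oracle) : (cRunW j r y X).length ≤ r.length := by
  rw [cRunW, Pool.Agent.Helper20.Cons.cOutW, List.length_take]
  exact min_le_left _ _

theorem KC_mem {X : Oracle} {C : DecisionProblem} (hC : C ∈ NPo X) : KC X C ∈ NPo X := by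
  obtain ⟨p, N, hN⟩ := hC
  -- `(z, w) ↦ (q, w)`
  obtain ⟨K1, hK1⟩ := Pool.Agent.Helper49.Cons.exists_post
    (Pool.Agent.Helper49.Cons.pre Pool.Agent.Helper20.ConsG.runW _ kc_fp)
    (fun s : (List Bool × List Bool) × List Bool => ((s.2, s.1.2) : List Bool × List Bool))
    (by fun_prop)
  -- the verifier `N` with the length check
  obtain ⟨K2, hK2⟩ := Pool.Agent.Helper49.Cons.exists_post N
    (fun s : (List Bool × List Bool) × Bool =>
      s.2 && decide (s.1.2.length ≤ (un (p.eval s.1.1.length)).length)) (by
        have e1 : FP fun s : (List Bool × List Bool) × Bool => un (p.eval s.1.1.length) :=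
          FP.un_poly (by fun_prop) _
        have e2 : FP fun s : (List Bool × List Bool) × Bool => s.1.2 := by fun_prop
        exact (FP.snd).and (FP.length_le e2 e1))
  obtain ⟨K, hK⟩ := Pool.Agent.Helper49.Cons.exists_comp K1 K2
  have hrun : ∀ z w, K.run X (z, w) = (N.run X (cRunW (cf z) (cs (cs z)) (cf (cs z)) X, w) &&
      decide (w.length ≤ p.eval (cRunW (cf z) (cs (cs z)) (cf (cs z)) X).length)) := by
    intro z w
    rw [hK, hK1, hK2, Pool.Agent.Helper49.Cons.pre_run, Pool.Agent.Helper20.ConsG.runW_run]
    simp only [un_length]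
  refine ⟨p, K, fun z => ?_⟩
  have hN' := hN (cRunW (cf z) (cs (cs z)) (cf (cs z)) X)
  show C (cRunW (cf z) (cs (cs z)) (cf (cs z)) X) = true ↔ Accepts K p X z
  rw [hN']
  constructor
  · rintro ⟨w, hw, h1⟩
    refine ⟨w, hw.trans (poly_mono p ?_), ?_⟩
    · exact (kc_length _ _ _ _).trans ((cs_length _).trans (cs_length _))
    · rw [hrun, h1, Bool.true_and, decide_eq_true_eq]
      exact hw
  · rintro ⟨w, -, h1⟩
    rw [hrun, Bool.and_eq_true, decide_eq_true_eq] at h1
    exact ⟨w, h1.2, h1.1⟩

end Pool.Agent.ROP
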